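import Mathlib

/-!
# The universal Grigorchuk group is not finitely presented: abstract part
-/

namespace Pool.Agent.H121Z.GrigU

open Equiv
open scoped commutatorElement

abbrev F := FreeGroup (Fin 4)

/-- the relations of the free product of a group of order two and the Klein group -/
structure Rel {H : Type} [Group H] (q : Fin 4 → H) : Prop where
  sq : ∀ j, q j * q j = 1
  bcd : q 1 * q 2 = q 3

/-- block diagonal permutations -/
def diag {Y : Type} : (Bool → Perm Y) →* Perm (Bool × Y) where
  toFun e := Equiv.prodCongrRight e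
  map_one' := by ext p <;> rfl
  map_mul' e e' := by ext p <;> rfl

@[simp] theorem diag_apply {Y : Type} (e : Bool → Perm Y) (x : Bool) (y : Y) :
    diag e (x, y) = (x, e x y) := rfl

theorem diag_eq_one {Y : Type} (e : Bool → Perm Y) : diag e = 1 ↔ ∀ x, e x = 1 := by
  constructor
  · intro h x
    ext y
    have := congrArg (fun g : Perm (Bool × Y) => (g (x, y)).2) h
    simpa using this
  · intro h
    have : e = 1 := funext h
    rw [this, map_one]

/-- the swap -/
def sw {Y : Type} : Perm (Bool × Y) :=
  Function.Involutive.toPerm (fun p => (!p.1, p.2)) (fun p => by simp)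

@[simp] theorem sw_apply {Y : Type} (x : Bool) (y : Y) : sw (x, y) = (!x, y) := rfl

/-- one step of the wreath recursion -/
def up {Y : Type} (i : Fin 3) (q : Fin 4 → Perm Y) (j : Fin 4) : Perm (Bool × Y) :=
  if j = 0 then sw
  else diag (fun x => if x then q j else if i.val + j.val = 3 then 1 else q 0)

theorem up_zero {Y : Type} (i : Fin 3) (q : Fin 4 → Perm Y) : up i q 0 = sw := by simp [up]

theorem up_ne {Y : Type} (i : Fin 3) (q : Fin 4 → Perm Y) {j : Fin 4} (hj : j ≠ 0) :
    up i q j = diag (fun x => if x then q j else if i.val + j.val = 3 then 1 else q 0) := by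
  simp [up, hj]

theorem Rel.up {Y : Type} {q : Fin 4 → Perm Y} (h : Rel q) (i : Fin 3) : Rel (up i q) := by
  constructor
  · intro j
    by_cases hj : j = 0
    · subst hj
      rw [up_zero]
      ext p <;> simp [sw]
    · rw [up_ne i q hj, ← map_mul, diag_eq_one]
      intro x
      cases x
      · by_cases h3 : i.val + j.val = 3 <;> simp [h3, h.sq]
      · simp [h.sq]
  · rw [up_ne i q (by decide), up_ne i q (by decide), up_ne i q (by decide), ← map_mul]
    congr 1
    funext x
    cases x
    · fin_cases i <;> simp [h.sq]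
    · simp [h.bcd]

theorem Rel.inv {H : Type} [Group H] {q : Fin 4 → H} (h : Rel q) (j : Fin 4) : (q j)⁻¹ = q j :=
  inv_eq_of_mul_eq_one_right (h.sq j)

/-- evaluation of a word -/
def ev {H : Type} [Group H] (q : Fin 4 → H) (L : List (Fin 4)) : H := (L.map q).prod

@[simp] theorem ev_nil {H : Type} [Group H] (q : Fin 4 → H) : ev q [] = 1 := rfl

@[simp] theorem ev_cons {H : Type} [Group H] (q : Fin 4 → H) (l : Fin 4) (L : List (Fin 4)) :
    ev q (l :: L) = q l * ev q L := by simp [ev]

@[simp] theorem ev_append {H : Type} [Group H] (q : Fin 4 → H) (L L' : List (Fin 4)) :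
    ev q (L ++ L') = ev q L * ev q L' := by simp [ev]

theorem lift_eq_ev {H : Type} [Group H] {q : Fin 4 → H} (h : Rel q) (w : F) :
    FreeGroup.lift q w = ev q (w.toWord.map Prod.fst) := by
  conv_lhs => rw [← FreeGroup.mk_toWord (x := w)]
  rw [FreeGroup.lift_mk, ev, List.map_map]
  congr 1
  refine List.map_congr_left fun p _ => ?_
  rcases p with ⟨j, b⟩
  cases b <;> simp [h.inv]

/-- parity of the number of letters `a` -/
def par : List (Fin 4) → Bool
  | [] => false
  | l :: L => if l = 0 then !(par L) else par L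

/-- section of a letter -/
def sec1 (i : Fin 3) (l : Fin 4) (x : Bool) : List (Fin 4) :=
  if l = 0 then [] else if x then [l] else if i.val + l.val = 3 then [] else [0]

/-- section of a word -/
def sec (i : Fin 3) (x : Bool) : List (Fin 4) → List (Fin 4)
  | [] => []
  | l :: L => sec1 i l (xor x (par L)) ++ sec i x L

theorem ev_up {Y : Type} (i : Fin 3) (q : Fin 4 → Perm Y) (L : List (Fin 4)) (x : Bool) (y : Y) :
    ev (up i q) L (x, y) = (xor x (par L), ev q (sec i x L) y) := by
  induction L with
  | nil => simp [par, sec]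
  | cons l L ih =>
    rw [ev_cons, Perm.mul_apply, ih]
    by_cases hl : l = 0
    · subst hl
      simp [up_zero, par, sec, sec1]
    · rw [up_ne i q hl]
      simp only [diag_apply, par, hl, if_false, sec, sec1, ev_append, Perm.mul_apply]
      congr 1
      cases (xor x (par L))
      · by_cases h3 : i.val + l.val = 3 <;> simp [h3]
      · simp

theorem ev_up_eq_one {Y : Type} [Nonempty Y] (i : Fin 3) (q : Fin 4 → Perm Y) (L : List (Fin 4)) :
    ev (up i q) L = 1 ↔ par L = false ∧ ∀ x, ev q (sec i x L) = 1 := by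
  constructor
  · intro h
    constructor
    · obtain ⟨y⟩ := ‹Nonempty Y›
      have := ev_up i q L false y
      rw [h] at this
      simpa using (congrArg Prod.fst this).symm
    · intro x
      ext y
      have := ev_up i q L x y
      rw [h] at this
      simpa using (congrArg Prod.snd this).symm
  · rintro ⟨h1, h2⟩
    ext ⟨x, y⟩
    · rw [ev_up, h1]; simp
    · rw [ev_up, h2]; simp

theorem length_sec1 (i : Fin 3) (l : Fin 4) (x : Bool) : (sec1 i l x).length ≤ 1 := by
  unfold sec1
  split_ifs <;> simp

theorem length_sec_le (i : Fin 3) (x : Bool) (L : List (Fin 4)) : (sec i x L).length ≤ L.length := by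
  induction L with
  | nil => simp [sec]
  | cons l L ih =>
    have := length_sec1 i l (xor x (par L))
    simp only [sec, List.length_append, List.length_cons]
    omega

theorem length_sec_lt (i : Fin 3) (x : Bool) (L : List (Fin 4)) (h : (0 : Fin 4) ∈ L) :
    (sec i x L).length < L.length := by
  induction L with
  | nil => simp at h
  | cons l L ih =>
    simp only [sec, List.length_append, List.length_cons]
    by_cases hl : l = 0
    · have := length_sec_le i x L
      simp [sec1, hl]
      omega
    · have h1 := length_sec1 i l (xor x (par L))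
      have h2 := ih (by
        rcases List.mem_cons.1 h with h | h
        · exact absurd h.symm hl
        · exact h)
      omega

theorem Rel.mul_eq {H : Type} [Group H] {q : Fin 4 → H} (h : Rel q) :
    q 2 * q 1 = q 3 ∧ q 1 * q 3 = q 2 ∧ q 3 * q 1 = q 2 ∧ q 2 * q 3 = q 1 ∧ q 3 * q 2 = q 1 := by
  have e1 : q 2 * q 1 = q 3 := by
    rw [← h.inv 3, ← h.bcd, mul_inv_rev, h.inv, h.inv]
  refine ⟨e1, ?_, ?_, ?_, ?_⟩
  · rw [← h.bcd, ← mul_assoc, h.sq, one_mul]
  · rw [← e1, mul_assoc, h.sq, mul_one]
  · rw [← e1, ← mul_assoc, h.sq, one_mul]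
  · rw [← h.bcd, mul_assoc, h.sq, mul_one]

/-- words in `b, c, d` reduce to at most one letter -/
theorem klein (L : List (Fin 4)) (h0 : (0 : Fin 4) ∉ L) :
    ∃ L' : List (Fin 4), (L' = [] ∨ L' = [1] ∨ L' = [2] ∨ L' = [3]) ∧
      ∀ (H : Type) [Group H] (q : Fin 4 → H), Rel q → ev q L = ev q L' := by
  induction L with
  | nil => exact ⟨[], Or.inl rfl, fun _ _ _ _ => rfl⟩
  | cons l L ih =>
    obtain ⟨L', h1, h2⟩ := ih (fun h => h0 (List.mem_cons_of_mem _ h))
    have hl : l ≠ 0 := fun h => h0 (by simp [h])
    have hl' : l = 1 ∨ l = 2 ∨ l = 3 := by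
      revert hl; fin_cases l <;> simp
    rcases hl' with rfl | rfl | rfl <;> rcases h1 with rfl | rfl | rfl | rfl
    · exact ⟨[1], by simp, fun H _ q hq => by simp [h2 H q hq]⟩
    · exact ⟨[], by simp, fun H _ q hq => by simp [h2 H q hq, hq.sq]⟩
    · exact ⟨[3], by simp, fun H _ q hq => by simp [h2 H q hq, hq.bcd]⟩
    · exact ⟨[2], by simp, fun H _ q hq => by simp [h2 H q hq, hq.mul_eq]⟩
    · exact ⟨[2], by simp, fun H _ q hq => by simp [h2 H q hq]⟩
    · exact ⟨[3], by simp, fun H _ q hq => by simp [h2 H q hq, hq.mul_eq]⟩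
    · exact ⟨[], by simp, fun H _ q hq => by simp [h2 H q hq, hq.sq]⟩
    · exact ⟨[1], by simp, fun H _ q hq => by simp [h2 H q hq, hq.mul_eq]⟩
    · exact ⟨[3], by simp, fun H _ q hq => by simp [h2 H q hq]⟩
    · exact ⟨[2], by simp, fun H _ q hq => by simp [h2 H q hq, hq.mul_eq]⟩
    · exact ⟨[1], by simp, fun H _ q hq => by simp [h2 H q hq, hq.mul_eq]⟩
    · exact ⟨[], by simp, fun H _ q hq => by simp [h2 H q hq, hq.sq]⟩

/-! ### The substitution -/

/-- the images of the generators under the substitution `a ↦ a b a` -/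
def subq {H : Type} [Group H] (q : Fin 4 → H) (j : Fin 4) : H :=
  if j = 0 then q 0 * q 1 * q 0 else q j

/-- the substitution `a ↦ a b a` -/
def sig : F →* F := FreeGroup.lift (subq FreeGroup.of)

theorem lift_sig {H : Type} [Group H] (q : Fin 4 → H) (g : F) :
    FreeGroup.lift q (sig g) = FreeGroup.lift (subq q) g := by
  have : (FreeGroup.lift q).comp sig = FreeGroup.lift (subq q) := by
    ext j
    by_cases hj : j = 0 <;> simp [sig, subq, hj]
  exact DFunLike.congr_fun this g

theorem Rel.subq {H : Type} [Group H] {q : Fin 4 → H} (h : Rel q) : Rel (subq q) := by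
  constructor
  · intro j
    by_cases hj : j = 0
    · simp only [GrigU.subq, hj, if_true]
      calc q 0 * q 1 * q 0 * (q 0 * q 1 * q 0) = q 0 * (q 1 * (q 0 * q 0) * q 1) * q 0 := by
            group
        _ = 1 := by simp [h.sq]
    · simp [GrigU.subq, hj, h.sq]
  · simp [GrigU.subq, h.bcd]

/-- degenerate quadruples -/
def Deg {H : Type} [Group H] (q : Fin 4 → H) : Prop :=
  q 1 = 1 ∨ q 2 = 1 ∨ q 3 = 1 ∨ ∀ j, Commute (q 0) (q j)

/-- elements killed by all degenerate quadruples -/
def Good (g : F) : Prop :=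
  ∀ (H : Type) [Group H] (q : Fin 4 → H), Rel q → Deg q → FreeGroup.lift q g = 1

theorem Good.sig {g : F} (h : Good g) : Good (sig g) := by
  intro H _ q hq hd
  rw [lift_sig]
  refine h H _ hq.subq ?_
  rcases hd with hd | hd | hd | hd
  · left; simp [subq, hd]
  · right; left; simp [subq, hd]
  · right; right; left; simp [subq, hd]
  · right; right; right
    have e : q 0 * q 1 * q 0 = q 1 := by
      rw [(hd 1).eq, mul_assoc, hq.sq, mul_one]
    intro j
    obtain ⟨e1, e2, e3, -, -⟩ := hq.mul_eq
    have e4 := hq.bcd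
    fin_cases j
    · exact Commute.refl _
    · simp [subq, e]
    · simp [subq, e, Commute, SemiconjBy, e1, e4]
    · simp [subq, e, Commute, SemiconjBy, e2, e3]

/-- the sections of the substituted generators -/
def secq {H : Type} [Group H] (i : Fin 3) (x : Bool) (q : Fin 4 → H) (j : Fin 4) : H :=
  if j = 0 then (if x then (if i = 2 then 1 else q 0) else q 1)
  else (if x then q j else if i.val + j.val = 3 then 1 else q 0)

theorem lift_up_sig {Y : Type} (i : Fin 3) (q : Fin 4 → Perm Y) (g : F) :
    FreeGroup.lift (up i q) (sig g) = diag (fun x => FreeGroup.lift (secq i x q) g) := by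
  rw [lift_sig]
  have : FreeGroup.lift (subq (up i q)) =
      diag.comp (Pi.monoidHom (fun x => FreeGroup.lift (secq i x q))) := by
    refine FreeGroup.ext_hom _ _ fun j => ?_
    by_cases hj : j = 0
    · subst hj
      ext ⟨x, y⟩
      · simp [subq, up_zero, up_ne]
      · cases x <;> fin_cases i <;> simp [subq, up_zero, up_ne, secq, Pi.monoidHom]
    · ext ⟨x, y⟩
      · simp [subq, hj, up_ne]
      · simp [subq, hj, up_ne, secq, Pi.monoidHom]
  rw [this]
  rfl

theorem secq_true {H : Type} [Group H] {i : Fin 3} (hi : i ≠ 2) (q : Fin 4 → H) :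
    secq i true q = q := by
  funext j
  by_cases hj : j = 0 <;> simp [secq, hj, hi]

theorem Rel.secq {H : Type} [Group H] {q : Fin 4 → H} (h : Rel q) (i : Fin 3) (x : Bool) :
    Rel (secq i x q) := by
  constructor
  · intro j
    unfold GrigU.secq
    split_ifs <;> simp [h.sq]
  · cases x
    · fin_cases i <;> simp [GrigU.secq, h.sq]
    · simp [GrigU.secq, h.bcd]

theorem deg_secq_false {H : Type} [Group H] (q : Fin 4 → H) (i : Fin 3) :
    Deg (secq i false q) := by
  fin_cases i
  · right; right; left; simp [secq]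
  · right; left; simp [secq]
  · left; simp [secq]

theorem deg_secq_two {H : Type} [Group H] (q : Fin 4 → H) : Deg (secq 2 true q) := by
  right; right; right
  intro j
  simp [secq]

/-! ### The first relator -/

/-- the commutator of a generator with its conjugate by `a` -/
def cm {H : Type} [Group H] (q : Fin 4 → H) (j : Fin 4) : H := ⁅q j, q 0 * q j * q 0⁆

/-- the first relator -/
def rel0 {H : Type} [Group H] (q : Fin 4 → H) : H := ⁅⁅cm q 3, cm q 2⁆, cm q 1⁆

/-- the first relator, in the free group -/
def g0 : F := rel0 FreeGroup.of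

theorem lift_g0 {H : Type} [Group H] (q : Fin 4 → H) : FreeGroup.lift q g0 = rel0 q := by
  simp [g0, rel0, cm, map_commutatorElement]

theorem rel0_eq_one {H : Type} [Group H] {q : Fin 4 → H}
    (h : cm q 1 = 1 ∨ cm q 2 = 1 ∨ cm q 3 = 1) : rel0 q = 1 := by
  rcases h with h | h | h <;> simp [rel0, h]

theorem good_g0 : Good g0 := by
  intro H _ q hq hd
  rw [lift_g0]
  refine rel0_eq_one ?_
  rcases hd with hd | hd | hd | hd
  · left; simp [cm, hd]
  · right; left; simp [cm, hd]
  · right; right; simp [cm, hd]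
  · left
    have e : q 0 * q 1 * q 0 = q 1 := by
      rw [(hd 1).eq, mul_assoc, hq.sq, mul_one]
    simp [cm, e]

theorem cm_up {Y : Type} (i : Fin 3) (q : Fin 4 → Perm Y) {j : Fin 4} (hj : j ≠ 0)
    (h3 : i.val + j.val = 3) : cm (up i q) j = 1 := by
  rw [cm, commutatorElement_eq_one_iff_mul_comm, up_zero, up_ne i q hj]
  ext ⟨x, y⟩
  · simp
  · cases x <;> simp [h3]

theorem rel0_up {Y : Type} (i : Fin 3) (q : Fin 4 → Perm Y) : rel0 (up i q) = 1 := by
  refine rel0_eq_one ?_
  fin_cases i
  · right; right; exact cm_up _ q (by decide) (by decide)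
  · right; left; exact cm_up _ q (by decide) (by decide)
  · left; exact cm_up _ q (by decide) (by decide)

/-! ### The tower of finite quotients -/

/-- the base quadruple -/
def q0 : Fin 4 → Perm (Fin 5) :=
  ![swap 0 1, swap 1 2 * swap 3 4, swap 1 3 * swap 2 4, swap 1 4 * swap 2 3]

theorem rel_q0 : Rel q0 := ⟨by decide, by decide⟩

theorem rel0_q0 : rel0 q0 ≠ 1 := by decide +kernel

/-- the levels -/
def Tw : ℕ → Type
  | 0 => Fin 5
  | n + 1 => Bool × Tw n

instance : ∀ n, Nonempty (Tw n)
  | 0 => ⟨(0 : Fin 5)⟩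
  | n + 1 => by
    obtain ⟨y⟩ := instNonemptyTw n
    exact ⟨((false, y) : Bool × Tw n)⟩

/-- the quadruples of the tower -/
def tq : ∀ n, Fin 4 → Perm (Tw n)
  | 0 => q0
  | n + 1 => up 0 (tq n)

theorem rel_tq : ∀ n, Rel (tq n)
  | 0 => rel_q0
  | n + 1 => (rel_tq n).up 0

theorem tq_sig : ∀ n, FreeGroup.lift (tq n) (sig^[n] g0) ≠ 1
  | 0 => by
    rw [Function.iterate_zero_apply, lift_g0]
    exact rel0_q0
  | n + 1 => by
    rw [Function.iterate_succ_apply']
    intro h
    have h1 : FreeGroup.lift (up 0 (tq n)) (sig (sig^[n] g0)) = 1 := h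
    rw [lift_up_sig, diag_eq_one] at h1
    have h2 := h1 true
    rw [secq_true (by decide)] at h2
    exact tq_sig n h2

/-! ### The abstract theorem -/

theorem main {X : Type} [Nonempty X] (gen : (ℕ → Fin 3) → Fin 4 → Perm X)
    (hrel : ∀ ω, Rel (gen ω))
    (hne : ∀ j, j ≠ 0 → ∃ ω, gen ω j ≠ 1)
    (hss : ∀ ω (g : F), FreeGroup.lift (gen ω) g = 1 ↔
      FreeGroup.lift (up (ω 0) (gen (fun n => ω (n + 1)))) g = 1)
    (S : Finset F)
    (hS : (Subgroup.normalClosure (S : Set F) : Set F) =
      {w | ∀ ω, FreeGroup.lift (gen ω) w = 1}) : False := by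
  have hss' : ∀ ω (L : List (Fin 4)), ev (gen ω) L = 1 ↔
      ev (up (ω 0) (gen (fun n => ω (n + 1)))) L = 1 := by
    intro ω L
    have key : ∀ (H : Type) [Group H] (q : Fin 4 → H),
        FreeGroup.lift q (ev FreeGroup.of L) = ev q L := by
      intro H _ q
      induction L with
      | nil => simp
      | cons l L ih => simp [ih]
    rw [← key, ← key _ (up _ _), hss]
  have contr : ∀ (k : ℕ) (L : List (Fin 4)), L.length < k → (∀ ω, ev (gen ω) L = 1) →
      ∃ N, ∀ n, N ≤ n → ev (tq n) L = 1 := by
    intro k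
    induction k with
    | zero => intro L h; omega
    | succ k ih =>
      intro L hL hK
      by_cases h0 : (0 : Fin 4) ∈ L
      · have hsec : ∀ ω, par L = false ∧ ∀ x, ev (gen ω) (sec 0 x L) = 1 := by
          intro ω
          have := (hss' (fun n => Nat.casesOn n 0 ω) L).1 (hK _)
          exact (ev_up_eq_one _ _ _).1 this
        have h1 : ∀ x, ∃ N, ∀ n, N ≤ n → ev (tq n) (sec 0 x L) = 1 := fun x =>
          ih _ (by have := length_sec_lt 0 x L h0; omega) (fun ω => (hsec ω).2 x)
        obtain ⟨N1, hN1⟩ := h1 false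
        obtain ⟨N2, hN2⟩ := h1 true
        refine ⟨N1 + N2 + 1, fun n hn => ?_⟩
        obtain ⟨m, rfl⟩ : ∃ m, n = m + 1 := ⟨n - 1, by omega⟩
        change ev (up 0 (tq m)) L = 1
        rw [ev_up_eq_one]
        refine ⟨(hsec (fun _ => 0)).1, fun x => ?_⟩
        cases x
        · exact hN1 m (by omega)
        · exact hN2 m (by omega)
      · obtain ⟨L', h1, h2⟩ := klein L h0
        have h3 : ∀ j : Fin 4, j ≠ 0 → L' ≠ [j] := by
          rintro j hj rfl
          obtain ⟨ω, hω⟩ := hne j hj
          apply hω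
          have := hK ω
          rw [h2 _ _ (hrel ω)] at this
          simpa using this
        rcases h1 with rfl | rfl | rfl | rfl
        · exact ⟨0, fun n _ => by rw [h2 _ _ (rel_tq n)]; rfl⟩
        · exact absurd rfl (h3 1 (by decide))
        · exact absurd rfl (h3 2 (by decide))
        · exact absurd rfl (h3 3 (by decide))
  have contr' : ∀ w : F, (∀ ω, FreeGroup.lift (gen ω) w = 1) →
      ∃ N, ∀ n, N ≤ n → FreeGroup.lift (tq n) w = 1 := by
    intro w hw
    obtain ⟨N, hN⟩ := contr _ (w.toWord.map Prod.fst) (Nat.lt_succ_self _)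
      (fun ω => by rw [← lift_eq_ev (hrel ω)]; exact hw ω)
    exact ⟨N, fun n hn => by rw [lift_eq_ev (rel_tq n)]; exact hN n hn⟩
  have hgood : ∀ n, Good (sig^[n] g0) := by
    intro n
    induction n with
    | zero => exact good_g0
    | succ n ih => rw [Function.iterate_succ_apply']; exact ih.sig
  have hK : ∀ n ω, FreeGroup.lift (gen ω) (sig^[n] g0) = 1 := by
    intro n
    induction n with
    | zero =>
      intro ω
      rw [hss, Function.iterate_zero_apply, lift_g0, rel0_up]
    | succ n ih =>
      intro ω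
      rw [hss, Function.iterate_succ_apply', lift_up_sig, diag_eq_one]
      intro x
      cases x
      · exact hgood n _ _ ((hrel _).secq _ _) (deg_secq_false _ _)
      · by_cases h2 : ω 0 = 2
        · rw [h2]
          exact hgood n _ _ ((hrel _).secq _ _) (deg_secq_two _)
        · rw [secq_true h2]
          exact ih _
  have hSK : ∀ s ∈ S, ∃ N, ∀ n, N ≤ n → FreeGroup.lift (tq n) s = 1 := by
    intro s hs
    refine contr' s ?_
    have : s ∈ (Subgroup.normalClosure (S : Set F) : Set F) :=
      Subgroup.subset_normalClosure (by simpa using hs)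
    rw [hS] at this
    exact this
  choose! N hN using hSK
  have hle : Subgroup.normalClosure (S : Set F) ≤ (FreeGroup.lift (tq (S.sup N))).ker := by
    refine Subgroup.normalClosure_le_normal fun s hs => ?_
    exact hN s (by simpa using hs) _ (Finset.le_sup (by simpa using hs))
  have hmem : sig^[S.sup N] g0 ∈ (Subgroup.normalClosure (S : Set F) : Set F) := by
    rw [hS]
    exact hK _
  exact tq_sig _ (hle hmem)

end Pool.Agent.H121Z.GrigU
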