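import Pool.Agent.H121Z.GrigU

/-!
# The universal Grigorchuk group is not finitely presented: the concrete action
-/

namespace Pool.Agent.H121Z.GrigU

open Equiv
open scoped Classical

/-- position `m` is the active position of the sequence `v` -/
def Act (v : ℕ → Bool) (m : ℕ) : Prop := 0 < m ∧ v (m - 1) = false ∧ ∀ j < m - 1, v j = true

/-- the action of a generator on binary sequences -/
noncomputable def act (ω : ℕ → Fin 3) (l : Fin 4) (v : ℕ → Bool) : ℕ → Bool :=
  if l = 0 then Function.update v 0 (!v 0)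
  else fun m =>
    if 0 < m ∧ v (m - 1) = false ∧ (∀ j < m - 1, v j = true) ∧ (ω (m - 1)).val + l.val ≠ 3
    then !v m else v m

theorem act_ne (ω : ℕ → Fin 3) {l : Fin 4} (hl : l ≠ 0) (v : ℕ → Bool) (m : ℕ) :
    act ω l v m = if Act v m ∧ (ω (m - 1)).val + l.val ≠ 3 then !v m else v m := by
  simp only [act, hl, if_false, Act, and_assoc]

theorem Act.unique {v : ℕ → Bool} {m m' : ℕ} (h : Act v m) (h' : Act v m') : m = m' := by
  obtain ⟨h1, h2, h3⟩ := h
  obtain ⟨h4, h5, h6⟩ := h'
  rcases lt_trichotomy m m' with h | h | h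
  · have := h6 (m - 1) (by omega)
    rw [h2] at this
    exact absurd this (by simp)
  · exact h
  · have := h3 (m' - 1) (by omega)
    rw [h5] at this
    exact absurd this (by simp)

theorem act_of_lt (ω : ℕ → Fin 3) {l : Fin 4} (hl : l ≠ 0) {v : ℕ → Bool} {m : ℕ} (h : Act v m)
    {j : ℕ} (hj : j < m) : act ω l v j = v j := by
  rw [act_ne ω hl, if_neg]
  rintro ⟨h1, -⟩
  have := h.unique h1
  omega

theorem Act.act (ω : ℕ → Fin 3) {l : Fin 4} (hl : l ≠ 0) {v : ℕ → Bool} {m : ℕ} (h : Act v m) :
    Act (act ω l v) m := by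
  refine ⟨h.1, ?_, fun j hj => ?_⟩
  · rw [act_of_lt ω hl h (by have := h.1; omega)]
    exact h.2.1
  · rw [act_of_lt ω hl h (by omega)]
    exact h.2.2 j hj

theorem act_act_iff (ω : ℕ → Fin 3) {l : Fin 4} (hl : l ≠ 0) (v : ℕ → Bool) (m : ℕ) :
    Act (act ω l v) m ↔ Act v m := by
  refine ⟨fun h => ?_, fun h => h.act ω hl⟩
  by_cases h0 : ∃ m', Act v m'
  · obtain ⟨m', h1⟩ := h0
    rw [h.unique (h1.act ω hl)]
    exact h1
  · have : act ω l v = v := by
      funext k
      rw [act_ne ω hl, if_neg]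
      rintro ⟨h1, -⟩
      exact h0 ⟨k, h1⟩
    rwa [this] at h

theorem act_invol (ω : ℕ → Fin 3) (l : Fin 4) : Function.Involutive (act ω l) := by
  intro v
  by_cases hl : l = 0
  · subst hl
    funext m
    by_cases hm : m = 0
    · subst hm
      simp [act]
    · simp [act, hm]
  · funext m
    rw [act_ne ω hl, act_act_iff ω hl, act_ne ω hl]
    split_ifs <;> simp

/-- the generators as permutations -/
noncomputable def gen (ω : ℕ → Fin 3) (l : Fin 4) : Perm (ℕ → Bool) :=
  (act_invol ω l).toPerm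

@[simp] theorem gen_apply (ω : ℕ → Fin 3) (l : Fin 4) (v : ℕ → Bool) : gen ω l v = act ω l v := rfl

theorem rel_gen (ω : ℕ → Fin 3) : Rel (gen ω) := by
  constructor
  · intro j
    ext v m
    simp [act_invol ω j v]
  · ext v m
    simp only [Perm.mul_apply, gen_apply]
    rw [act_ne ω (by decide), act_act_iff ω (by decide), act_ne ω (by decide),
      act_ne ω (by decide)]
    by_cases h : Act v m
    · generalize ω (m - 1) = i
      fin_cases i <;> simp [h]
    · simp [h]

theorem gen_ne (j : Fin 4) (hj : j ≠ 0) : ∃ ω, gen ω j ≠ 1 := by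
  refine ⟨fun _ => if j = 3 then 1 else 0, fun h => ?_⟩
  have h1 := congrArg (fun g : Perm (ℕ → Bool) => g (fun _ => false) 1) h
  simp only [gen_apply, act_ne _ hj, Perm.one_apply] at h1
  rw [if_pos] at h1
  · simp at h1
  · refine ⟨⟨by simp, by simp, by simp⟩, ?_⟩
    revert hj
    fin_cases j <;> simp

/-- head and tail of a sequence -/
def ht : (ℕ → Bool) ≃ Bool × (ℕ → Bool) where
  toFun v := (v 0, fun n => v (n + 1))
  invFun p := fun n => Nat.casesOn n p.1 p.2
  left_inv v := by
    funext n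
    cases n <;> rfl
  right_inv p := rfl

theorem act_succ_succ (v : ℕ → Bool) (m : ℕ) :
    Act v (m + 2) ↔ v 0 = true ∧ Act (fun n => v (n + 1)) (m + 1) := by
  simp only [Act]
  constructor
  · rintro ⟨-, h2, h3⟩
    refine ⟨h3 0 (by omega), by omega, by simpa using h2, fun j hj => h3 _ (by omega)⟩
  · rintro ⟨h1, -, h2, h3⟩
    refine ⟨by omega, by simpa using h2, fun j hj => ?_⟩
    cases j with
    | zero => exact h1
    | succ j => exact h3 j (by omega)

theorem act_one (v : ℕ → Bool) : Act v 1 ↔ v 0 = false := by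
  simp [Act]

theorem act_zero (v : ℕ → Bool) : ¬ Act v 0 := by
  simp [Act]

theorem ht_gen (ω : ℕ → Fin 3) (l : Fin 4) (v : ℕ → Bool) :
    ht (gen ω l v) = up (ω 0) (gen (fun n => ω (n + 1))) l (ht v) := by
  by_cases hl : l = 0
  · subst hl
    rw [up_zero]
    simp [ht, act]
  · rw [up_ne _ _ hl]
    simp only [ht, Equiv.coe_fn_mk, diag_apply, gen_apply]
    congr 1
    · rw [act_ne ω hl, if_neg (fun h => act_zero v h.1)]
    · funext n
      rw [act_ne ω hl]
      cases n with
      | zero =>
        cases hv : v 0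
        · by_cases h3 : (ω 0).val + l.val = 3
          · simp [h3]
          · simp [h3, act_one, hv, act]
        · simp [act_one, hv, act_ne _ hl, act_zero]
      | succ n =>
        cases hv : v 0
        · by_cases h3 : (ω 0).val + l.val = 3
          · simp [h3, act_succ_succ, hv]
          · simp [h3, act_succ_succ, hv, act]
        · simp [act_succ_succ, hv, act_ne _ hl]

theorem gen_ss (ω : ℕ → Fin 3) (g : F) : FreeGroup.lift (gen ω) g = 1 ↔
    FreeGroup.lift (up (ω 0) (gen (fun n => ω (n + 1)))) g = 1 := by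
  have : FreeGroup.lift (up (ω 0) (gen (fun n => ω (n + 1)))) =
      (ht.permCongrHom.toMonoidHom).comp (FreeGroup.lift (gen ω)) := by
    refine FreeGroup.ext_hom _ _ fun j => ?_
    refine Equiv.ext fun p => ?_
    obtain ⟨v, rfl⟩ := ht.surjective p
    simp [← ht_gen]
  rw [this]
  exact (map_eq_one_iff ht.permCongrHom ht.permCongrHom.injective).symm

theorem foldr_eq (ω : ℕ → Fin 3) (L : List (Fin 4 × Bool)) :
    L.foldr (fun p f => act ω p.1 ∘ f) id = ev (gen ω) (L.map Prod.fst) := by
  induction L with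
  | nil => rfl
  | cons p L ih =>
    rw [List.foldr_cons, ih]
    funext v
    simp

theorem final : ¬ ∃ S : Finset F, (Subgroup.normalClosure (S : Set F) : Set F) =
    {w : F | ∀ ω : ℕ → Fin 3, (FreeGroup.toWord w).foldr (fun p f => act ω p.1 ∘ f) id = id} := by
  rintro ⟨S, hS⟩
  refine main gen rel_gen gen_ne gen_ss S ?_
  rw [hS]
  ext w
  simp only [Set.mem_setOf_eq]
  refine forall_congr' fun ω => ?_
  rw [foldr_eq, ← lift_eq_ev (rel_gen ω)]
  constructor
  · intro h
    ext v m
    exact congrFun (congrFun h v) m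
  · intro h
    rw [h]
    rfl

end Pool.Agent.H121Z.GrigU
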