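import Mathlib

namespace Pool.Agent.H121Z.Kot

/-- The full list of conditions: P-quasigroup whose walk covers every edge once. -/
def Good (M : ℕ) (V : Type) : Prop :=
  ∃ op : V → V → V,
    (∀ a, op a a = a) ∧ (∀ a b, a ≠ b → op a b ≠ a ∧ op a b ≠ b) ∧
    (∀ a b c, op a b = c ↔ op c b = a) ∧
    (∀ a b, ∃! x, op a x = b) ∧ (∀ a b, ∃! y, op y a = b) ∧
    ∃ v : ZMod M → V, (∀ i, op (v i) (v (i + 1)) = v (i + 2)) ∧
      ∀ a b, a ≠ b → ∃! i, s(v i, v (i + 1)) = s(a, b)

theorem good_of_walk (M : ℕ) (V : Type) [Finite V] (v : ZMod M → V)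
    (hE : ∀ a b, a ≠ b → ∃! i, s(v i, v (i + 1)) = s(a, b))
    (hN : ∀ i, v i ≠ v (i + 1)) (hN2 : ∀ i, v i ≠ v (i + 2))
    (hD : ∀ i j, s(v i, v (i + 2)) = s(v j, v (j + 2)) → i = j) : Good M V := by
  classical
  let idx : V → V → ZMod M := fun a b => if h : a ≠ b then (hE a b h).choose else 0
  have hidx : ∀ a b, a ≠ b → s(v (idx a b), v (idx a b + 1)) = s(a, b) := by
    intro a b h
    simp only [idx, dif_pos h]
    exact (hE a b h).choose_spec.1
  have huniq : ∀ a b, a ≠ b → ∀ i, s(v i, v (i + 1)) = s(a, b) → idx a b = i := by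
    intro a b h i hi
    exact (hE a b h).unique (hidx a b h) hi
  let op : V → V → V := fun a b =>
    if a = b then a else if v (idx a b) = a then v (idx a b + 2) else v (idx a b - 1)
  have h1 : ∀ i, op (v i) (v (i + 1)) = v (i + 2) := by
    intro i
    have := huniq _ _ (hN i) i rfl
    simp only [op, if_neg (hN i), this, if_true]
  have h2 : ∀ i, op (v (i + 2)) (v (i + 1)) = v i := by
    intro i
    have hne : v (i + 2) ≠ v (i + 1) := by
      have := hN (i + 1)
      rw [show i + 1 + 1 = i + 2 by ring] at this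
      exact this.symm
    have := huniq _ _ hne (i + 1) (by rw [show i + 1 + 1 = i + 2 by ring, Sym2.eq_swap])
    simp only [op, if_neg hne, this, if_neg hne.symm]
    congr 1; ring
  have key : ∀ a b, a ≠ b → ∃ i, b = v (i + 1) ∧
      ((a = v i ∧ op a b = v (i + 2)) ∨ (a = v (i + 2) ∧ op a b = v i)) := by
    intro a b h
    have := hidx a b h
    rw [Sym2.eq_iff] at this
    rcases this with ⟨ha, hb⟩ | ⟨ha, hb⟩
    · refine ⟨idx a b, hb.symm, Or.inl ⟨ha.symm, ?_⟩⟩
      have := h1 (idx a b)
      rwa [ha, hb] at this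
    · refine ⟨idx a b - 1, by rw [sub_add_cancel]; exact ha.symm, Or.inr ⟨?_, ?_⟩⟩
      · rw [show idx a b - 1 + 2 = idx a b + 1 by ring]; exact hb.symm
      · have := h2 (idx a b - 1)
        rwa [show idx a b - 1 + 2 = idx a b + 1 by ring, sub_add_cancel, ha, hb] at this
  have hid : ∀ a, op a a = a := fun a => by simp only [op, if_true]
  have hN' : ∀ i, v (i + 2) ≠ v (i + 1) := by
    intro i
    have := hN (i + 1)
    rw [show i + 1 + 1 = i + 2 by ring] at this
    exact this.symm
  have hne : ∀ a b, a ≠ b → op a b ≠ a ∧ op a b ≠ b := by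
    intro a b h
    obtain ⟨i, hb, ⟨ha, ho⟩ | ⟨ha, ho⟩⟩ := key a b h
    · rw [ho, ha, hb]; exact ⟨(hN2 i).symm, hN' i⟩
    · rw [ho, ha, hb]; exact ⟨hN2 i, hN i⟩
  have hinv : ∀ a b, op (op a b) b = a := by
    intro a b
    by_cases h : a = b
    · subst h; rw [hid, hid]
    · obtain ⟨i, hb, ⟨ha, ho⟩ | ⟨ha, ho⟩⟩ := key a b h
      · rw [ho, ha, hb]; exact h2 i
      · rw [ho, ha, hb]; exact h1 i
  have hinj : ∀ a, Function.Injective (op a) := by
    intro a x y hxy
    by_cases hx : a = x
    · by_contra hne'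
      have hy : a ≠ y := fun h => hne' (hx.symm.trans h)
      apply (hne a y hy).1
      rw [← hxy, ← hx, hid]
    · by_cases hy : a = y
      · exfalso
        apply (hne a x hx).1
        rw [hxy, ← hy, hid]
      · obtain ⟨i, hb, hi⟩ := key a x hx
        obtain ⟨j, hc, hj⟩ := key a y hy
        have e1 : s(a, op a x) = s(v i, v (i + 2)) := by
          rcases hi with ⟨ha, ho⟩ | ⟨ha, ho⟩
          · rw [ho, ← ha]
          · rw [ho, ← ha, Sym2.eq_swap]
        have e2 : s(a, op a y) = s(v j, v (j + 2)) := by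
          rcases hj with ⟨ha, ho⟩ | ⟨ha, ho⟩
          · rw [ho, ← ha]
          · rw [ho, ← ha, Sym2.eq_swap]
        have : i = j := hD i j (by rw [← e1, ← e2, hxy])
        rw [hb, hc, this]
  refine ⟨op, hid, hne, ?_, ?_, ?_, v, h1, hE⟩
  · intro a b c
    constructor
    · rintro rfl; exact hinv a b
    · rintro rfl; exact hinv c b
  · intro a b
    exact (Finite.injective_iff_bijective.1 (hinj a)).existsUnique b
  · intro a b
    refine ⟨op b a, hinv b a, ?_⟩
    rintro y rfl
    exact (hinv y a).symm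

theorem good_of_cyc (n m : ℕ) (hn : n = 2 * m + 1) (hm : 1 ≤ m) (D : ℕ → ZMod n)
    (hper : ∀ k, D (k % m) = D k)
    (h0 : ∀ k, D k ≠ 0)
    (hinj : ∀ i j, D i = D j ∨ D i = - D j → i % m = j % m)
    (hsurj : ∀ z, z ≠ 0 → ∃ j, D j = z ∨ D j = - z)
    (t0 : ∀ k, D k + D (k + 1) ≠ 0)
    (tinj : ∀ i j, D i + D (i + 1) = D j + D (j + 1) ∨ D i + D (i + 1) = - (D j + D (j + 1)) →
      i % m = j % m)
    (hS : IsUnit (∑ k ∈ Finset.range m, D k)) : Good (n * m) (ZMod n) := by
  haveI : NeZero n := ⟨by omega⟩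
  haveI : NeZero (n * m) := ⟨Nat.mul_ne_zero (by omega) (by omega)⟩
  set S := ∑ k ∈ Finset.range m, D k with hSdef
  let w : ℕ → ZMod n := fun k => ∑ j ∈ Finset.range k, D j
  have wsucc : ∀ k, w (k + 1) = w k + D k := fun k => Finset.sum_range_succ _ _
  have hDm : ∀ k t, D (k + t * m) = D k := by
    intro k t
    rw [← hper, Nat.add_mul_mod_self_right, hper]
  have wm : ∀ k, w (k + m) = w k + S := by
    intro k
    induction k with
    | zero => simp [w, hSdef]
    | succ k ih =>
      rw [show k + 1 + m = k + m + 1 by ring, wsucc, ih, wsucc]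
      have := hDm k 1
      rw [one_mul] at this
      rw [this]; ring
  have wtm : ∀ t k, w (k + t * m) = w k + t * S := by
    intro t
    induction t with
    | zero => simp
    | succ t ih =>
      intro k
      rw [show k + (t + 1) * m = k + t * m + m by ring, wm, ih]
      push_cast; ring
  have wmod : ∀ k, w (k % (n * m)) = w k := by
    intro k
    conv_rhs => rw [← Nat.mod_add_div k (n * m)]
    rw [show n * m * (k / (n * m)) = (n * (k / (n * m))) * m by ring, wtm]
    push_cast
    simp
  have Dmod : ∀ k, D (k % (n * m)) = D k := by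
    intro k
    rw [← hper, Nat.mod_mul_left_mod, hper]
  let v : ZMod (n * m) → ZMod n := fun i => w i.val
  have vcast : ∀ k : ℕ, v (k : ZMod (n * m)) = w k := by
    intro k
    simp only [v, ZMod.val_natCast, wmod]
  have v1 : ∀ i, v (i + 1) = v i + D i.val := by
    intro i
    have : i + 1 = ((i.val + 1 : ℕ) : ZMod (n * m)) := by push_cast; simp
    rw [this, vcast, wsucc]
  have v2 : ∀ i, v (i + 2) = v i + (D i.val + D (i.val + 1)) := by
    intro i
    have : i + 2 = ((i.val + 1 + 1 : ℕ) : ZMod (n * m)) := by push_cast; simp; ring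
    rw [this, vcast, wsucc, wsucc, add_assoc]
  have two : ∀ x : ZMod n, x = -x → x = 0 := by
    intro x hx
    have h1 : (2 * (m : ZMod n) + 1) = 0 := by
      have : ((2 * m + 1 : ℕ) : ZMod n) = 0 := by rw [← hn]; simp
      exact_mod_cast this
    have h2 : 2 * x = 0 := by linear_combination hx
    linear_combination x * h1 - (m : ZMod n) * h2
  have gen : ∀ X : ℕ → ZMod n, (∀ k, X (k % m) = X k) → (∀ k, X k ≠ 0) →
      (∀ i j, X i = X j ∨ X i = - X j → i % m = j % m) →
      ∀ i j : ZMod (n * m), s(v i, v i + X i.val) = s(v j, v j + X j.val) → i = j := by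
    intro X Xper X0 Xinj i j h
    rw [Sym2.eq_iff] at h
    rcases h with ⟨ha, hb⟩ | ⟨ha, hb⟩
    · have e : X i.val = X j.val := by rw [ha] at hb; exact add_left_cancel hb
      have hmod := Xinj _ _ (Or.inl e)
      have ei : v i = w (i.val % m) + (i.val / m : ℕ) * S := by
        rw [← wtm, Nat.mod_add_div']
      have ej : v j = w (j.val % m) + (j.val / m : ℕ) * S := by
        rw [← wtm, Nat.mod_add_div']
      rw [ei, ej, hmod] at ha
      have h3 := hS.mul_right_cancel (add_left_cancel ha)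
      have li : i.val / m < n := Nat.div_lt_of_lt_mul (lt_of_lt_of_eq (ZMod.val_lt i) (mul_comm n m))
      have lj : j.val / m < n := Nat.div_lt_of_lt_mul (lt_of_lt_of_eq (ZMod.val_lt j) (mul_comm n m))
      have h4 : i.val / m = j.val / m := by
        have := congrArg ZMod.val h3
        rwa [ZMod.val_natCast, ZMod.val_natCast, Nat.mod_eq_of_lt li, Nat.mod_eq_of_lt lj] at this
      apply ZMod.val_injective
      rw [← Nat.mod_add_div i.val m, ← Nat.mod_add_div j.val m, hmod, h4]
    · exfalso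
      have e : X i.val = - X j.val := by linear_combination hb - ha
      have hmod := Xinj _ _ (Or.inr e)
      have e2 : X i.val = X j.val := by rw [← Xper, hmod, Xper]
      rw [← e2] at e
      exact X0 _ (two _ e)
  apply good_of_walk (n * m) (ZMod n) v
  · intro a b hab
    have ex : ∀ a b : ZMod n, ∀ j, D j = b - a → ∃ i, s(v i, v (i + 1)) = s(a, b) := by
      intro a b j hj
      obtain ⟨u, hu⟩ := hS.exists_left_inv
      refine ⟨((j + ((a - w j) * u).val * m : ℕ) : ZMod (n * m)), ?_⟩
      have e1 : v ((j + ((a - w j) * u).val * m : ℕ) : ZMod (n * m)) = a := by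
        rw [vcast, wtm, ZMod.natCast_zmod_val, mul_assoc, hu]; ring
      rw [v1, e1, ZMod.val_natCast, Dmod, hDm, hj]
      congr 1; ring
    have : ∃ i, s(v i, v (i + 1)) = s(a, b) := by
      obtain ⟨j, hj | hj⟩ := hsurj (b - a) (sub_ne_zero.2 hab.symm)
      · exact ex a b j hj
      · obtain ⟨i, hi⟩ := ex b a j (by rw [hj]; ring)
        exact ⟨i, by rw [hi, Sym2.eq_swap]⟩
    obtain ⟨i, hi⟩ := this
    refine ⟨i, hi, fun j hj => ?_⟩
    apply gen D hper h0 hinj
    rw [← v1, ← v1, hi, hj]
  · intro i h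
    rw [v1] at h
    exact h0 i.val (by linear_combination -h)
  · intro i h
    rw [v2] at h
    exact t0 i.val (by linear_combination -h)
  · intro i j h
    rw [v2, v2] at h
    refine gen (fun k => D k + D (k + 1)) ?_ t0 tinj i j h
    intro k
    show D (k % m) + D (k % m + 1) = D k + D (k + 1)
    rw [hper, ← hper (k % m + 1), Nat.mod_add_mod, hper]

end Pool.Agent.H121Z.Kot
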