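import Pool.Agent.H121Z.KotA

namespace Pool.Agent.H121Z.Kot

theorem cast_eq_cases (n : ℕ) (x y : ℤ) (h1 : x - y < 2 * n) (h2 : y - x < 2 * n)
    (h : (x : ZMod n) = (y : ZMod n)) : x - y = 0 ∨ x - y = n ∨ x - y = -n := by
  rw [ZMod.intCast_eq_intCast_iff_dvd_sub] at h
  obtain ⟨k, hk⟩ := h
  have hn : (0 : ℤ) < n := by omega
  have a1 : k < 2 := by nlinarith
  have a2 : -2 < k := by nlinarith
  have : k = -1 ∨ k = 0 ∨ k = 1 := by omega
  rcases this with rfl | rfl | rfl <;> omega

theorem good_of_int (n m : ℕ) (hn : n = 2 * m + 1) (hm : 1 ≤ m) (d s : ℕ → ℤ)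
    (hb : ∀ i < m, d i ≠ 0 ∧ -(m : ℤ) ≤ d i ∧ d i ≤ m)
    (hinj : ∀ i < m, ∀ j < m, d i = d j ∨ d i = - d j → i = j)
    (hs1 : ∀ i < m, i + 1 < m → s i = d i + d (i + 1))
    (hs2 : s (m - 1) = d (m - 1) + d 0)
    (s0 : ∀ i < m, s i ≠ 0)
    (sinj : ∀ i < m, ∀ j < m, (s i - s j = 0 ∨ s i - s j = n ∨ s i - s j = -n ∨
      s i + s j = 0 ∨ s i + s j = n ∨ s i + s j = -n) → i = j)
    (hS : IsCoprime (∑ i ∈ Finset.range m, d i) (n : ℤ)) : Good (n * m) (ZMod n) := by
  haveI : NeZero n := ⟨by omega⟩
  have hlt : ∀ k, k % m < m := fun k => Nat.mod_lt _ (by omega)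
  have hs : ∀ k, s (k % m) = d (k % m) + d ((k + 1) % m) := by
    intro k
    by_cases h : k % m + 1 < m
    · rw [hs1 _ (hlt k) h, ← Nat.mod_add_mod, Nat.mod_eq_of_lt h]
    · have e : k % m = m - 1 := by have := hlt k; omega
      have e2 : (k + 1) % m = 0 := by
        rw [← Nat.mod_add_mod, e, show m - 1 + 1 = m by omega, Nat.mod_self]
      rw [e2, e, hs2]
  have sb : ∀ k, -(n : ℤ) < s (k % m) ∧ s (k % m) < n := by
    intro k
    have := hb _ (hlt k)
    have := hb _ (hlt (k + 1))
    have := hs k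
    omega
  have hT : ∀ k, ((d (k % m) : ℤ) : ZMod n) + ((d ((k + 1) % m) : ℤ) : ZMod n)
      = ((s (k % m) : ℤ) : ZMod n) := by
    intro k; rw [hs]; push_cast; ring
  apply good_of_cyc n m hn hm (fun k => ((d (k % m) : ℤ) : ZMod n))
  · intro k; simp
  · intro k h
    have hk := hb _ (hlt k)
    have := cast_eq_cases n (d (k % m)) 0 (by omega) (by omega) (by simpa using h)
    omega
  · intro i j h
    have hi := hb _ (hlt i)
    have hj := hb _ (hlt j)
    apply hinj _ (hlt i) _ (hlt j)
    rcases h with h | h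
    · have := cast_eq_cases n (d (i % m)) (d (j % m)) (by omega) (by omega) h
      omega
    · have := cast_eq_cases n (d (i % m)) (- d (j % m)) (by omega) (by omega) (by simpa using h)
      omega
  · have hsurj : ∀ x ∈ Finset.Icc 1 m, ∃ i, ∃ _ : i ∈ Finset.range m, x = (d i).natAbs := by
      apply Finset.surj_on_of_inj_on_of_card_le (fun i _ => (d i).natAbs)
      · intro i hi
        have := hb i (Finset.mem_range.1 hi)
        rw [Finset.mem_Icc]; omega
      · intro i j hi hj h
        apply hinj i (Finset.mem_range.1 hi) j (Finset.mem_range.1 hj)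
        omega
      · simp
    intro z hz
    have hv : z.val ≠ 0 := by rwa [Ne, ZMod.val_eq_zero]
    have hv2 := ZMod.val_lt z
    have hz' : ((z.val : ℤ) : ZMod n) = z := by simp
    by_cases hc : z.val ≤ m
    · obtain ⟨i, hi, e⟩ := hsurj z.val (by rw [Finset.mem_Icc]; omega)
      have hi' := Finset.mem_range.1 hi
      refine ⟨i, ?_⟩
      simp only [Nat.mod_eq_of_lt hi']
      have : d i = z.val ∨ d i = - z.val := by omega
      rcases this with h | h
      · left; rw [h, hz']
      · right; rw [h]; push_cast; simp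
    · obtain ⟨i, hi, e⟩ := hsurj (n - z.val) (by rw [Finset.mem_Icc]; omega)
      have hi' := Finset.mem_range.1 hi
      refine ⟨i, ?_⟩
      simp only [Nat.mod_eq_of_lt hi']
      have : d i = z.val - n ∨ d i = n - z.val := by omega
      rcases this with h | h
      · left; rw [h]; push_cast; simp
      · right; rw [h]; push_cast; simp
  · intro k h
    simp only [hT] at h
    have hk := sb k
    have := cast_eq_cases n (s (k % m)) 0 (by omega) (by omega) (by simpa using h)
    have := s0 _ (hlt k)
    omega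
  · intro i j h
    simp only [hT] at h
    have hi := sb i
    have hj := sb j
    apply sinj _ (hlt i) _ (hlt j)
    rcases h with h | h
    · have := cast_eq_cases n (s (i % m)) (s (j % m)) (by omega) (by omega) h
      omega
    · have := cast_eq_cases n (s (i % m)) (- s (j % m)) (by omega) (by omega) (by simpa using h)
      omega
  · have e : ∑ k ∈ Finset.range m, ((d (k % m) : ℤ) : ZMod n)
        = ((∑ i ∈ Finset.range m, d i : ℤ) : ZMod n) := by
      push_cast
      exact Finset.sum_congr rfl fun k hk => by rw [Nat.mod_eq_of_lt (Finset.mem_range.1 hk)]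
    rw [e]
    obtain ⟨a, b, hab⟩ := hS
    have := congrArg (Int.cast : ℤ → ZMod n) hab
    simp only [Int.cast_add, Int.cast_mul, Int.cast_natCast, ZMod.natCast_self, mul_zero, add_zero,
      Int.cast_one] at this
    exact IsUnit.of_mul_eq_one_right _ this

theorem sum_lin (d : ℕ → ℤ) (a b : ℕ) (u c : ℤ) (hab : a ≤ b)
    (h : ∀ i, a ≤ i → i < b → d i = u * i + c) :
    2 * ∑ i ∈ Finset.range b, d i =
      2 * ∑ i ∈ Finset.range a, d i + (u * (b * (b - 1) - a * (a - 1)) + 2 * c * (b - a)) := by
  induction b, hab using Nat.le_induction with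
  | base => simp
  | succ b hab ih =>
    rw [Finset.sum_range_succ, mul_add, ih (fun i h1 h2 => h i h1 (by omega)), h b hab (by omega)]
    push_cast; ring

theorem coprime_of (S n k q : ℤ) (c : ℤ) (hc : IsCoprime c n) (h : k * S = c + n * q) :
    IsCoprime S n := by
  have : IsCoprime (k * S) n := by
    rw [h]; exact IsCoprime.add_mul_left_left hc q
  exact this.of_mul_left_right

end Pool.Agent.H121Z.Kot
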