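import Pool.Agent.H121Z.KotB

namespace Pool.Agent.H121Z.Kot

def d3 (u : ℕ) : ℕ → ℤ := fun i => if i < u + 2 then 1 * (i : ℤ) + (1 : ℤ) else
    if i < 3 * u + 7 then 1 * (i : ℤ) + ((-4) * (u : ℤ) - 9 : ℤ) else
    if i < 4 * u + 9 then (-1) * (i : ℤ) + ((-2) * (u : ℤ) - 5 : ℤ) else
    if i < 5 * u + 11 then (-1) * (i : ℤ) + ((-1) : ℤ) else
    if i < 6 * u + 12 then (-1) * (i : ℤ) + (2 * (u : ℤ) + 3 : ℤ) else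
    1 * (i : ℤ) + ((-2) * (u : ℤ) - 3 : ℤ)

def s3 (u : ℕ) : ℕ → ℤ := fun i =>
  if i + 1 < 6 * u + 13 then d3 u i + d3 u (i + 1) else d3 u i + d3 u 0

theorem d3_0 (u i : ℕ) (h1 : 0 ≤ i) (h2 : i < u + 2) :
    d3 u i = (1) * (i : ℤ) + (1 : ℤ) := by
  unfold d3
  split_ifs <;> omega

theorem d3_1 (u i : ℕ) (h1 : u + 2 ≤ i) (h2 : i < 3 * u + 7) :
    d3 u i = (1) * (i : ℤ) + ((-4) * (u : ℤ) - 9 : ℤ) := by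
  unfold d3
  split_ifs <;> omega

theorem d3_2 (u i : ℕ) (h1 : 3 * u + 7 ≤ i) (h2 : i < 4 * u + 9) :
    d3 u i = (-1) * (i : ℤ) + ((-2) * (u : ℤ) - 5 : ℤ) := by
  unfold d3
  split_ifs <;> omega

theorem d3_3 (u i : ℕ) (h1 : 4 * u + 9 ≤ i) (h2 : i < 5 * u + 11) :
    d3 u i = (-1) * (i : ℤ) + ((-1) : ℤ) := by
  unfold d3
  split_ifs <;> omega

theorem d3_4 (u i : ℕ) (h1 : 5 * u + 11 ≤ i) (h2 : i < 6 * u + 12) :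
    d3 u i = (-1) * (i : ℤ) + (2 * (u : ℤ) + 3 : ℤ) := by
  unfold d3
  split_ifs <;> omega

theorem d3_5 (u i : ℕ) (h1 : 6 * u + 12 ≤ i) (h2 : i < 6 * u + 13) :
    d3 u i = (1) * (i : ℤ) + ((-2) * (u : ℤ) - 3 : ℤ) := by
  unfold d3
  split_ifs <;> omega

theorem hd3 (u i : ℕ) (h : i < 6 * u + 13) :
    (0 ≤ i ∧ i < u + 2 ∧ d3 u i = (1) * (i : ℤ) + (1 : ℤ)) ∨
    (u + 2 ≤ i ∧ i < 3 * u + 7 ∧ d3 u i = (1) * (i : ℤ) + ((-4) * (u : ℤ) - 9 : ℤ)) ∨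
    (3 * u + 7 ≤ i ∧ i < 4 * u + 9 ∧ d3 u i = (-1) * (i : ℤ) + ((-2) * (u : ℤ) - 5 : ℤ)) ∨
    (4 * u + 9 ≤ i ∧ i < 5 * u + 11 ∧ d3 u i = (-1) * (i : ℤ) + ((-1) : ℤ)) ∨
    (5 * u + 11 ≤ i ∧ i < 6 * u + 12 ∧ d3 u i = (-1) * (i : ℤ) + (2 * (u : ℤ) + 3 : ℤ)) ∨
    (6 * u + 12 ≤ i ∧ i < 6 * u + 13 ∧ d3 u i = (1) * (i : ℤ) + ((-2) * (u : ℤ) - 3 : ℤ)) := by
  have : (0 ≤ i ∧ i < u + 2) ∨ (u + 2 ≤ i ∧ i < 3 * u + 7) ∨ (3 * u + 7 ≤ i ∧ i < 4 * u + 9) ∨ (4 * u + 9 ≤ i ∧ i < 5 * u + 11) ∨ (5 * u + 11 ≤ i ∧ i < 6 * u + 12) ∨ (6 * u + 12 ≤ i ∧ i < 6 * u + 13) := by omega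
  rcases this with h | h | h | h | h | h
  · exact Or.inl ⟨h.1, h.2, d3_0 u i h.1 h.2⟩
  · exact Or.inr (Or.inl ⟨h.1, h.2, d3_1 u i h.1 h.2⟩)
  · exact Or.inr (Or.inr (Or.inl ⟨h.1, h.2, d3_2 u i h.1 h.2⟩))
  · exact Or.inr (Or.inr (Or.inr (Or.inl ⟨h.1, h.2, d3_3 u i h.1 h.2⟩)))
  · exact Or.inr (Or.inr (Or.inr (Or.inr (Or.inl ⟨h.1, h.2, d3_4 u i h.1 h.2⟩))))
  · exact Or.inr (Or.inr (Or.inr (Or.inr (Or.inr (⟨h.1, h.2, d3_5 u i h.1 h.2⟩)))))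

theorem hs3 (u i : ℕ) (h : i < 6 * u + 13) :
    ((0 ≤ i ∧ i + 1 < u + 2) ∧ s3 u i = (1) * (2 * (i : ℤ) + 1) + 2 * (1 : ℤ)) ∨
    ((u + 2 ≤ i ∧ i + 1 < 3 * u + 7) ∧ s3 u i = (1) * (2 * (i : ℤ) + 1) + 2 * ((-4) * (u : ℤ) - 9 : ℤ)) ∨
    ((3 * u + 7 ≤ i ∧ i + 1 < 4 * u + 9) ∧ s3 u i = (-1) * (2 * (i : ℤ) + 1) + 2 * ((-2) * (u : ℤ) - 5 : ℤ)) ∨
    ((4 * u + 9 ≤ i ∧ i + 1 < 5 * u + 11) ∧ s3 u i = (-1) * (2 * (i : ℤ) + 1) + 2 * ((-1) : ℤ)) ∨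
    ((5 * u + 11 ≤ i ∧ i + 1 < 6 * u + 12) ∧ s3 u i = (-1) * (2 * (i : ℤ) + 1) + 2 * (2 * (u : ℤ) + 3 : ℤ)) ∨
    ((6 * u + 12 ≤ i ∧ i + 1 < 6 * u + 13) ∧ s3 u i = (1) * (2 * (i : ℤ) + 1) + 2 * ((-2) * (u : ℤ) - 3 : ℤ)) ∨
    ((i + 1 = u + 2) ∧ s3 u i = ((-2) * (u : ℤ) - 5 : ℤ)) ∨
    ((i + 1 = 3 * u + 7) ∧ s3 u i = ((-6) * (u : ℤ) - 15 : ℤ)) ∨
    ((i + 1 = 4 * u + 9) ∧ s3 u i = ((-10) * (u : ℤ) - 23 : ℤ)) ∨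
    ((i + 1 = 5 * u + 11) ∧ s3 u i = ((-8) * (u : ℤ) - 19 : ℤ)) ∨
    ((i + 1 = 6 * u + 12) ∧ s3 u i = (1 : ℤ)) ∨
    ((i + 1 = 6 * u + 13) ∧ s3 u i = (4 * (u : ℤ) + 10 : ℤ)) := by
  have : (0 ≤ i ∧ i + 1 < u + 2) ∨ (u + 2 ≤ i ∧ i + 1 < 3 * u + 7) ∨ (3 * u + 7 ≤ i ∧ i + 1 < 4 * u + 9) ∨ (4 * u + 9 ≤ i ∧ i + 1 < 5 * u + 11) ∨ (5 * u + 11 ≤ i ∧ i + 1 < 6 * u + 12) ∨ (6 * u + 12 ≤ i ∧ i + 1 < 6 * u + 13) ∨ (i + 1 = u + 2) ∨ (i + 1 = 3 * u + 7) ∨ (i + 1 = 4 * u + 9) ∨ (i + 1 = 5 * u + 11) ∨ (i + 1 = 6 * u + 12) ∨ (i + 1 = 6 * u + 13) := by omega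
  rcases this with h | h | h | h | h | h | h | h | h | h | h | h
  · refine Or.inl ⟨h, ?_⟩
    unfold s3
    rw [if_pos (by omega), d3_0 u i (by omega) (by omega), d3_0 u (i + 1) (by omega) (by omega)]; push_cast; ring
  · refine Or.inr (Or.inl ⟨h, ?_⟩)
    unfold s3
    rw [if_pos (by omega), d3_1 u i (by omega) (by omega), d3_1 u (i + 1) (by omega) (by omega)]; push_cast; ring
  · refine Or.inr (Or.inr (Or.inl ⟨h, ?_⟩))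
    unfold s3
    rw [if_pos (by omega), d3_2 u i (by omega) (by omega), d3_2 u (i + 1) (by omega) (by omega)]; push_cast; ring
  · refine Or.inr (Or.inr (Or.inr (Or.inl ⟨h, ?_⟩)))
    unfold s3
    rw [if_pos (by omega), d3_3 u i (by omega) (by omega), d3_3 u (i + 1) (by omega) (by omega)]; push_cast; ring
  · refine Or.inr (Or.inr (Or.inr (Or.inr (Or.inl ⟨h, ?_⟩))))
    unfold s3
    rw [if_pos (by omega), d3_4 u i (by omega) (by omega), d3_4 u (i + 1) (by omega) (by omega)]; push_cast; ring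
  · refine Or.inr (Or.inr (Or.inr (Or.inr (Or.inr (Or.inl ⟨h, ?_⟩)))))
    unfold s3
    rw [if_pos (by omega), d3_5 u i (by omega) (by omega), d3_5 u (i + 1) (by omega) (by omega)]; push_cast; ring
  · refine Or.inr (Or.inr (Or.inr (Or.inr (Or.inr (Or.inr (Or.inl ⟨h, ?_⟩))))))
    unfold s3
    rw [if_pos (by omega), d3_0 u i (by omega) (by omega), d3_1 u (i + 1) (by omega) (by omega)]; omega
  · refine Or.inr (Or.inr (Or.inr (Or.inr (Or.inr (Or.inr (Or.inr (Or.inl ⟨h, ?_⟩)))))))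
    unfold s3
    rw [if_pos (by omega), d3_1 u i (by omega) (by omega), d3_2 u (i + 1) (by omega) (by omega)]; omega
  · refine Or.inr (Or.inr (Or.inr (Or.inr (Or.inr (Or.inr (Or.inr (Or.inr (Or.inl ⟨h, ?_⟩))))))))
    unfold s3
    rw [if_pos (by omega), d3_2 u i (by omega) (by omega), d3_3 u (i + 1) (by omega) (by omega)]; omega
  · refine Or.inr (Or.inr (Or.inr (Or.inr (Or.inr (Or.inr (Or.inr (Or.inr (Or.inr (Or.inl ⟨h, ?_⟩)))))))))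
    unfold s3
    rw [if_pos (by omega), d3_3 u i (by omega) (by omega), d3_4 u (i + 1) (by omega) (by omega)]; omega
  · refine Or.inr (Or.inr (Or.inr (Or.inr (Or.inr (Or.inr (Or.inr (Or.inr (Or.inr (Or.inr (Or.inl ⟨h, ?_⟩))))))))))
    unfold s3
    rw [if_pos (by omega), d3_4 u i (by omega) (by omega), d3_5 u (i + 1) (by omega) (by omega)]; omega
  · refine Or.inr (Or.inr (Or.inr (Or.inr (Or.inr (Or.inr (Or.inr (Or.inr (Or.inr (Or.inr (Or.inr (⟨h, ?_⟩)))))))))))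
    unfold s3
    rw [if_neg (by omega), d3_5 u i (by omega) (by omega), d3_0 u 0 (by omega) (by omega)]; omega

theorem sinj3 (u : ℕ) : ∀ i < 6 * u + 13, ∀ j < 6 * u + 13,
    (s3 u i - s3 u j = 0 ∨ s3 u i - s3 u j = ((12 * u + 27 : ℕ) : ℤ) ∨ s3 u i - s3 u j = -((12 * u + 27 : ℕ) : ℤ) ∨
      s3 u i + s3 u j = 0 ∨ s3 u i + s3 u j = ((12 * u + 27 : ℕ) : ℤ) ∨ s3 u i + s3 u j = -((12 * u + 27 : ℕ) : ℤ)) → i = j := by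
  intro i hi j hj h
  have a := hs3 u i hi
  have b := hs3 u j hj
  generalize s3 u i = x at *
  generalize s3 u j = y at *
  rcases a with ⟨h1, rfl⟩ | ⟨h1, rfl⟩ | ⟨h1, rfl⟩ | ⟨h1, rfl⟩ | ⟨h1, rfl⟩ | ⟨h1, rfl⟩ | ⟨h1, rfl⟩ | ⟨h1, rfl⟩ | ⟨h1, rfl⟩ | ⟨h1, rfl⟩ | ⟨h1, rfl⟩ | ⟨h1, rfl⟩ <;>
  rcases b with ⟨h2, rfl⟩ | ⟨h2, rfl⟩ | ⟨h2, rfl⟩ | ⟨h2, rfl⟩ | ⟨h2, rfl⟩ | ⟨h2, rfl⟩ | ⟨h2, rfl⟩ | ⟨h2, rfl⟩ | ⟨h2, rfl⟩ | ⟨h2, rfl⟩ | ⟨h2, rfl⟩ | ⟨h2, rfl⟩ <;> omega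

theorem sum3 (u : ℕ) : 2 * ∑ i ∈ Finset.range (6 * u + 13), d3 u i = (-34) * (u : ℤ) ^ 2 + (-136) * u + (-134) := by
  have e0 := sum_lin (d3 u) (0) (u + 2) _ _ (by omega) (d3_0 u)
  have e1 := sum_lin (d3 u) (u + 2) (3 * u + 7) _ _ (by omega) (d3_1 u)
  have e2 := sum_lin (d3 u) (3 * u + 7) (4 * u + 9) _ _ (by omega) (d3_2 u)
  have e3 := sum_lin (d3 u) (4 * u + 9) (5 * u + 11) _ _ (by omega) (d3_3 u)
  have e4 := sum_lin (d3 u) (5 * u + 11) (6 * u + 12) _ _ (by omega) (d3_4 u)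
  have e5 := sum_lin (d3 u) (6 * u + 12) (6 * u + 13) _ _ (by omega) (d3_5 u)
  rw [e5, e4, e3, e2, e1, e0]
  push_cast
  simp only [Finset.range_zero, Finset.sum_empty]
  ring

theorem good3 (u : ℕ) : Good ((12 * u + 27) * (6 * u + 13)) (ZMod (12 * u + 27)) := by
  apply good_of_int (12 * u + 27) (6 * u + 13) (by omega) (by omega) (d3 u) (s3 u)
  · intro i hi
    have := hd3 u i hi
    omega
  · intro i hi j hj h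
    have a := hd3 u i hi
    have b := hd3 u j hj
    generalize d3 u i = x at *
    generalize d3 u j = y at *
    rcases a with ⟨h1, h2, rfl⟩ | ⟨h1, h2, rfl⟩ | ⟨h1, h2, rfl⟩ | ⟨h1, h2, rfl⟩ | ⟨h1, h2, rfl⟩ | ⟨h1, h2, rfl⟩ <;>
    rcases b with ⟨h3, h4, rfl⟩ | ⟨h3, h4, rfl⟩ | ⟨h3, h4, rfl⟩ | ⟨h3, h4, rfl⟩ | ⟨h3, h4, rfl⟩ | ⟨h3, h4, rfl⟩ <;> omega
  · intro i _ h
    unfold s3
    rw [if_pos h]
  · unfold s3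
    rw [if_neg (by omega)]
  · intro i hi
    have := hs3 u i hi
    omega
  · exact sinj3 u
  · have hs := sum3 u
    generalize ∑ i ∈ Finset.range (6 * u + 13), d3 u i = S at hs ⊢
    have h2 : IsCoprime (2 : ℤ) (4 * (u : ℤ) + 9 : ℤ) := ⟨-(2 * (u : ℤ) + 4 : ℤ), 1, by ring⟩
    have ha : IsCoprime S (4 * (u : ℤ) + 9 : ℤ) :=
      coprime_of _ _ (2 * 8) ((-68) * (u : ℤ) - 119 : ℤ) (-(2 ^ 0)) h2.pow_left.neg_left (by linear_combination 8 * hs)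
    have hb : IsCoprime S 3 := by
      obtain ⟨w, hw⟩ : ∃ w : ℤ, (u : ℤ) = 3 * w ∨ (u : ℤ) = 3 * w + 1 ∨ (u : ℤ) = 3 * w + 2 := ⟨u / 3, by omega⟩
      rcases hw with hw | hw | hw <;> rw [hw] at hs
      · exact coprime_of _ _ 2 ((-102) * w ^ 2 + (-136) * w + (-45)) (1) isCoprime_one_left (by linear_combination hs)
      · exact coprime_of _ _ 2 ((-102) * w ^ 2 + (-204) * w + (-101)) (-1) isCoprime_one_left.neg_left (by linear_combination hs)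
      · exact coprime_of _ _ 2 ((-102) * w ^ 2 + (-272) * w + (-181)) (1) isCoprime_one_left (by linear_combination hs)
    have := hb.mul_right ha
    convert this using 1
    push_cast; ring

end Pool.Agent.H121Z.Kot
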