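import Pool.Agent.H121Z.KotB

namespace Pool.Agent.H121Z.Kot

def d7 (u : ℕ) : ℕ → ℤ := fun i => if i < u + 1 then 1 * (i : ℤ) + (1 : ℤ) else
    if i < 2 * u + 3 then (-1) * (i : ℤ) + (4 * (u : ℤ) + 5 : ℤ) else
    if i < 3 * u + 4 then 1 * (i : ℤ) + ((-4) * (u : ℤ) - 5 : ℤ) else
    1 * (i : ℤ) + (1 : ℤ)

def s7 (u : ℕ) : ℕ → ℤ := fun i =>
  if i + 1 < 6 * u + 9 then d7 u i + d7 u (i + 1) else d7 u i + d7 u 0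

theorem d7_0 (u i : ℕ) (h1 : 0 ≤ i) (h2 : i < u + 1) :
    d7 u i = (1) * (i : ℤ) + (1 : ℤ) := by
  unfold d7
  split_ifs <;> omega

theorem d7_1 (u i : ℕ) (h1 : u + 1 ≤ i) (h2 : i < 2 * u + 3) :
    d7 u i = (-1) * (i : ℤ) + (4 * (u : ℤ) + 5 : ℤ) := by
  unfold d7
  split_ifs <;> omega

theorem d7_2 (u i : ℕ) (h1 : 2 * u + 3 ≤ i) (h2 : i < 3 * u + 4) :
    d7 u i = (1) * (i : ℤ) + ((-4) * (u : ℤ) - 5 : ℤ) := by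
  unfold d7
  split_ifs <;> omega

theorem d7_3 (u i : ℕ) (h1 : 3 * u + 4 ≤ i) (h2 : i < 6 * u + 9) :
    d7 u i = (1) * (i : ℤ) + (1 : ℤ) := by
  unfold d7
  split_ifs <;> omega

theorem hd7 (u i : ℕ) (h : i < 6 * u + 9) :
    (0 ≤ i ∧ i < u + 1 ∧ d7 u i = (1) * (i : ℤ) + (1 : ℤ)) ∨
    (u + 1 ≤ i ∧ i < 2 * u + 3 ∧ d7 u i = (-1) * (i : ℤ) + (4 * (u : ℤ) + 5 : ℤ)) ∨
    (2 * u + 3 ≤ i ∧ i < 3 * u + 4 ∧ d7 u i = (1) * (i : ℤ) + ((-4) * (u : ℤ) - 5 : ℤ)) ∨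
    (3 * u + 4 ≤ i ∧ i < 6 * u + 9 ∧ d7 u i = (1) * (i : ℤ) + (1 : ℤ)) := by
  have : (0 ≤ i ∧ i < u + 1) ∨ (u + 1 ≤ i ∧ i < 2 * u + 3) ∨ (2 * u + 3 ≤ i ∧ i < 3 * u + 4) ∨ (3 * u + 4 ≤ i ∧ i < 6 * u + 9) := by omega
  rcases this with h | h | h | h
  · exact Or.inl ⟨h.1, h.2, d7_0 u i h.1 h.2⟩
  · exact Or.inr (Or.inl ⟨h.1, h.2, d7_1 u i h.1 h.2⟩)
  · exact Or.inr (Or.inr (Or.inl ⟨h.1, h.2, d7_2 u i h.1 h.2⟩))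
  · exact Or.inr (Or.inr (Or.inr (⟨h.1, h.2, d7_3 u i h.1 h.2⟩)))

theorem hs7 (u i : ℕ) (h : i < 6 * u + 9) :
    ((0 ≤ i ∧ i + 1 < u + 1) ∧ s7 u i = (1) * (2 * (i : ℤ) + 1) + 2 * (1 : ℤ)) ∨
    ((u + 1 ≤ i ∧ i + 1 < 2 * u + 3) ∧ s7 u i = (-1) * (2 * (i : ℤ) + 1) + 2 * (4 * (u : ℤ) + 5 : ℤ)) ∨
    ((2 * u + 3 ≤ i ∧ i + 1 < 3 * u + 4) ∧ s7 u i = (1) * (2 * (i : ℤ) + 1) + 2 * ((-4) * (u : ℤ) - 5 : ℤ)) ∨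
    ((3 * u + 4 ≤ i ∧ i + 1 < 6 * u + 9) ∧ s7 u i = (1) * (2 * (i : ℤ) + 1) + 2 * (1 : ℤ)) ∨
    ((i + 1 = u + 1) ∧ s7 u i = (4 * (u : ℤ) + 5 : ℤ)) ∨
    ((i + 1 = 2 * u + 3) ∧ s7 u i = (1 : ℤ)) ∨
    ((i + 1 = 3 * u + 4) ∧ s7 u i = (2 * (u : ℤ) + 3 : ℤ)) ∨
    ((i + 1 = 6 * u + 9) ∧ s7 u i = (6 * (u : ℤ) + 10 : ℤ)) := by
  have : (0 ≤ i ∧ i + 1 < u + 1) ∨ (u + 1 ≤ i ∧ i + 1 < 2 * u + 3) ∨ (2 * u + 3 ≤ i ∧ i + 1 < 3 * u + 4) ∨ (3 * u + 4 ≤ i ∧ i + 1 < 6 * u + 9) ∨ (i + 1 = u + 1) ∨ (i + 1 = 2 * u + 3) ∨ (i + 1 = 3 * u + 4) ∨ (i + 1 = 6 * u + 9) := by omega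
  rcases this with h | h | h | h | h | h | h | h
  · refine Or.inl ⟨h, ?_⟩
    unfold s7
    rw [if_pos (by omega), d7_0 u i (by omega) (by omega), d7_0 u (i + 1) (by omega) (by omega)]; push_cast; ring
  · refine Or.inr (Or.inl ⟨h, ?_⟩)
    unfold s7
    rw [if_pos (by omega), d7_1 u i (by omega) (by omega), d7_1 u (i + 1) (by omega) (by omega)]; push_cast; ring
  · refine Or.inr (Or.inr (Or.inl ⟨h, ?_⟩))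
    unfold s7
    rw [if_pos (by omega), d7_2 u i (by omega) (by omega), d7_2 u (i + 1) (by omega) (by omega)]; push_cast; ring
  · refine Or.inr (Or.inr (Or.inr (Or.inl ⟨h, ?_⟩)))
    unfold s7
    rw [if_pos (by omega), d7_3 u i (by omega) (by omega), d7_3 u (i + 1) (by omega) (by omega)]; push_cast; ring
  · refine Or.inr (Or.inr (Or.inr (Or.inr (Or.inl ⟨h, ?_⟩))))
    unfold s7
    rw [if_pos (by omega), d7_0 u i (by omega) (by omega), d7_1 u (i + 1) (by omega) (by omega)]; omega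
  · refine Or.inr (Or.inr (Or.inr (Or.inr (Or.inr (Or.inl ⟨h, ?_⟩)))))
    unfold s7
    rw [if_pos (by omega), d7_1 u i (by omega) (by omega), d7_2 u (i + 1) (by omega) (by omega)]; omega
  · refine Or.inr (Or.inr (Or.inr (Or.inr (Or.inr (Or.inr (Or.inl ⟨h, ?_⟩))))))
    unfold s7
    rw [if_pos (by omega), d7_2 u i (by omega) (by omega), d7_3 u (i + 1) (by omega) (by omega)]; omega
  · refine Or.inr (Or.inr (Or.inr (Or.inr (Or.inr (Or.inr (Or.inr (⟨h, ?_⟩)))))))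
    unfold s7
    rw [if_neg (by omega), d7_3 u i (by omega) (by omega), d7_0 u 0 (by omega) (by omega)]; omega

theorem sinj7 (u : ℕ) : ∀ i < 6 * u + 9, ∀ j < 6 * u + 9,
    (s7 u i - s7 u j = 0 ∨ s7 u i - s7 u j = ((12 * u + 19 : ℕ) : ℤ) ∨ s7 u i - s7 u j = -((12 * u + 19 : ℕ) : ℤ) ∨
      s7 u i + s7 u j = 0 ∨ s7 u i + s7 u j = ((12 * u + 19 : ℕ) : ℤ) ∨ s7 u i + s7 u j = -((12 * u + 19 : ℕ) : ℤ)) → i = j := by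
  intro i hi j hj h
  have a := hs7 u i hi
  have b := hs7 u j hj
  generalize s7 u i = x at *
  generalize s7 u j = y at *
  rcases a with ⟨h1, rfl⟩ | ⟨h1, rfl⟩ | ⟨h1, rfl⟩ | ⟨h1, rfl⟩ | ⟨h1, rfl⟩ | ⟨h1, rfl⟩ | ⟨h1, rfl⟩ | ⟨h1, rfl⟩ <;>
  rcases b with ⟨h2, rfl⟩ | ⟨h2, rfl⟩ | ⟨h2, rfl⟩ | ⟨h2, rfl⟩ | ⟨h2, rfl⟩ | ⟨h2, rfl⟩ | ⟨h2, rfl⟩ | ⟨h2, rfl⟩ <;> omega

theorem sum7 (u : ℕ) : 2 * ∑ i ∈ Finset.range (6 * u + 9), d7 u i = (30) * (u : ℤ) ^ 2 + (100) * u + (82) := by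
  have e0 := sum_lin (d7 u) (0) (u + 1) _ _ (by omega) (d7_0 u)
  have e1 := sum_lin (d7 u) (u + 1) (2 * u + 3) _ _ (by omega) (d7_1 u)
  have e2 := sum_lin (d7 u) (2 * u + 3) (3 * u + 4) _ _ (by omega) (d7_2 u)
  have e3 := sum_lin (d7 u) (3 * u + 4) (6 * u + 9) _ _ (by omega) (d7_3 u)
  rw [e3, e2, e1, e0]
  push_cast
  simp only [Finset.range_zero, Finset.sum_empty]
  ring

theorem good7 (u : ℕ) : Good ((12 * u + 19) * (6 * u + 9)) (ZMod (12 * u + 19)) := by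
  apply good_of_int (12 * u + 19) (6 * u + 9) (by omega) (by omega) (d7 u) (s7 u)
  · intro i hi
    have := hd7 u i hi
    omega
  · intro i hi j hj h
    have a := hd7 u i hi
    have b := hd7 u j hj
    generalize d7 u i = x at *
    generalize d7 u j = y at *
    rcases a with ⟨h1, h2, rfl⟩ | ⟨h1, h2, rfl⟩ | ⟨h1, h2, rfl⟩ | ⟨h1, h2, rfl⟩ <;>
    rcases b with ⟨h3, h4, rfl⟩ | ⟨h3, h4, rfl⟩ | ⟨h3, h4, rfl⟩ | ⟨h3, h4, rfl⟩ <;> omega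
  · intro i _ h
    unfold s7
    rw [if_pos h]
  · unfold s7
    rw [if_neg (by omega)]
  · intro i hi
    have := hs7 u i hi
    omega
  · exact sinj7 u
  · have h2 : IsCoprime (2 : ℤ) ((12 * u + 19 : ℕ) : ℤ) := ⟨-(6 * (u : ℤ) + 9 : ℤ), 1, by push_cast; ring⟩
    have h3 : IsCoprime (3 : ℤ) ((12 * u + 19 : ℕ) : ℤ) := ⟨((-4) * (u : ℤ) - 6 : ℤ), 1, by push_cast; ring⟩
    refine coprime_of _ _ (2 * 8) (20 * (u : ℤ) + 35 : ℤ) (-(2 ^ 0 * 3 ^ 2)) (h2.pow_left.mul_left h3.pow_left).neg_left ?_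
    have := sum7 u
    push_cast at this ⊢
    linear_combination 8 * this

end Pool.Agent.H121Z.Kot
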