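import Pool.Agent.H121Z.KotB

namespace Pool.Agent.H121Z.Kot

def d9 (u : ℕ) : ℕ → ℤ := fun i => if i < 4 * u + 2 then 1 * (i : ℤ) + (1 : ℤ) else
    if i < 5 * u + 3 then 1 * (i : ℤ) + ((-10) * (u : ℤ) - 6 : ℤ) else
    (-1) * (i : ℤ) + (10 * (u : ℤ) + 6 : ℤ)

def s9 (u : ℕ) : ℕ → ℤ := fun i =>
  if i + 1 < 6 * u + 4 then d9 u i + d9 u (i + 1) else d9 u i + d9 u 0

theorem d9_0 (u i : ℕ) (h1 : 0 ≤ i) (h2 : i < 4 * u + 2) :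
    d9 u i = (1) * (i : ℤ) + (1 : ℤ) := by
  unfold d9
  split_ifs <;> omega

theorem d9_1 (u i : ℕ) (h1 : 4 * u + 2 ≤ i) (h2 : i < 5 * u + 3) :
    d9 u i = (1) * (i : ℤ) + ((-10) * (u : ℤ) - 6 : ℤ) := by
  unfold d9
  split_ifs <;> omega

theorem d9_2 (u i : ℕ) (h1 : 5 * u + 3 ≤ i) (h2 : i < 6 * u + 4) :
    d9 u i = (-1) * (i : ℤ) + (10 * (u : ℤ) + 6 : ℤ) := by
  unfold d9
  split_ifs <;> omega

theorem hd9 (u i : ℕ) (h : i < 6 * u + 4) :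
    (0 ≤ i ∧ i < 4 * u + 2 ∧ d9 u i = (1) * (i : ℤ) + (1 : ℤ)) ∨
    (4 * u + 2 ≤ i ∧ i < 5 * u + 3 ∧ d9 u i = (1) * (i : ℤ) + ((-10) * (u : ℤ) - 6 : ℤ)) ∨
    (5 * u + 3 ≤ i ∧ i < 6 * u + 4 ∧ d9 u i = (-1) * (i : ℤ) + (10 * (u : ℤ) + 6 : ℤ)) := by
  have : (0 ≤ i ∧ i < 4 * u + 2) ∨ (4 * u + 2 ≤ i ∧ i < 5 * u + 3) ∨ (5 * u + 3 ≤ i ∧ i < 6 * u + 4) := by omega
  rcases this with h | h | h
  · exact Or.inl ⟨h.1, h.2, d9_0 u i h.1 h.2⟩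
  · exact Or.inr (Or.inl ⟨h.1, h.2, d9_1 u i h.1 h.2⟩)
  · exact Or.inr (Or.inr (⟨h.1, h.2, d9_2 u i h.1 h.2⟩))

theorem hs9 (u i : ℕ) (h : i < 6 * u + 4) :
    ((0 ≤ i ∧ i + 1 < 4 * u + 2) ∧ s9 u i = (1) * (2 * (i : ℤ) + 1) + 2 * (1 : ℤ)) ∨
    ((4 * u + 2 ≤ i ∧ i + 1 < 5 * u + 3) ∧ s9 u i = (1) * (2 * (i : ℤ) + 1) + 2 * ((-10) * (u : ℤ) - 6 : ℤ)) ∨
    ((5 * u + 3 ≤ i ∧ i + 1 < 6 * u + 4) ∧ s9 u i = (-1) * (2 * (i : ℤ) + 1) + 2 * (10 * (u : ℤ) + 6 : ℤ)) ∨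
    ((i + 1 = 4 * u + 2) ∧ s9 u i = ((-2) * (u : ℤ) - 2 : ℤ)) ∨
    ((i + 1 = 5 * u + 3) ∧ s9 u i = ((-1) : ℤ)) ∨
    ((i + 1 = 6 * u + 4) ∧ s9 u i = (4 * (u : ℤ) + 4 : ℤ)) := by
  have : (0 ≤ i ∧ i + 1 < 4 * u + 2) ∨ (4 * u + 2 ≤ i ∧ i + 1 < 5 * u + 3) ∨ (5 * u + 3 ≤ i ∧ i + 1 < 6 * u + 4) ∨ (i + 1 = 4 * u + 2) ∨ (i + 1 = 5 * u + 3) ∨ (i + 1 = 6 * u + 4) := by omega
  rcases this with h | h | h | h | h | h
  · refine Or.inl ⟨h, ?_⟩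
    unfold s9
    rw [if_pos (by omega), d9_0 u i (by omega) (by omega), d9_0 u (i + 1) (by omega) (by omega)]; push_cast; ring
  · refine Or.inr (Or.inl ⟨h, ?_⟩)
    unfold s9
    rw [if_pos (by omega), d9_1 u i (by omega) (by omega), d9_1 u (i + 1) (by omega) (by omega)]; push_cast; ring
  · refine Or.inr (Or.inr (Or.inl ⟨h, ?_⟩))
    unfold s9
    rw [if_pos (by omega), d9_2 u i (by omega) (by omega), d9_2 u (i + 1) (by omega) (by omega)]; push_cast; ring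
  · refine Or.inr (Or.inr (Or.inr (Or.inl ⟨h, ?_⟩)))
    unfold s9
    rw [if_pos (by omega), d9_0 u i (by omega) (by omega), d9_1 u (i + 1) (by omega) (by omega)]; omega
  · refine Or.inr (Or.inr (Or.inr (Or.inr (Or.inl ⟨h, ?_⟩))))
    unfold s9
    rw [if_pos (by omega), d9_1 u i (by omega) (by omega), d9_2 u (i + 1) (by omega) (by omega)]; omega
  · refine Or.inr (Or.inr (Or.inr (Or.inr (Or.inr (⟨h, ?_⟩)))))
    unfold s9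
    rw [if_neg (by omega), d9_2 u i (by omega) (by omega), d9_0 u 0 (by omega) (by omega)]; omega

theorem sinj9 (u : ℕ) : ∀ i < 6 * u + 4, ∀ j < 6 * u + 4,
    (s9 u i - s9 u j = 0 ∨ s9 u i - s9 u j = ((12 * u + 9 : ℕ) : ℤ) ∨ s9 u i - s9 u j = -((12 * u + 9 : ℕ) : ℤ) ∨
      s9 u i + s9 u j = 0 ∨ s9 u i + s9 u j = ((12 * u + 9 : ℕ) : ℤ) ∨ s9 u i + s9 u j = -((12 * u + 9 : ℕ) : ℤ)) → i = j := by
  intro i hi j hj h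
  have a := hs9 u i hi
  have b := hs9 u j hj
  generalize s9 u i = x at *
  generalize s9 u j = y at *
  rcases a with ⟨h1, rfl⟩ | ⟨h1, rfl⟩ | ⟨h1, rfl⟩ | ⟨h1, rfl⟩ | ⟨h1, rfl⟩ | ⟨h1, rfl⟩ <;>
  rcases b with ⟨h2, rfl⟩ | ⟨h2, rfl⟩ | ⟨h2, rfl⟩ | ⟨h2, rfl⟩ | ⟨h2, rfl⟩ | ⟨h2, rfl⟩ <;> omega

theorem sum9 (u : ℕ) : 2 * ∑ i ∈ Finset.range (6 * u + 4), d9 u i = (14) * (u : ℤ) ^ 2 + (16) * u + (4) := by
  have e0 := sum_lin (d9 u) (0) (4 * u + 2) _ _ (by omega) (d9_0 u)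
  have e1 := sum_lin (d9 u) (4 * u + 2) (5 * u + 3) _ _ (by omega) (d9_1 u)
  have e2 := sum_lin (d9 u) (5 * u + 3) (6 * u + 4) _ _ (by omega) (d9_2 u)
  rw [e2, e1, e0]
  push_cast
  simp only [Finset.range_zero, Finset.sum_empty]
  ring

theorem good9 (u : ℕ) : Good ((12 * u + 9) * (6 * u + 4)) (ZMod (12 * u + 9)) := by
  apply good_of_int (12 * u + 9) (6 * u + 4) (by omega) (by omega) (d9 u) (s9 u)
  · intro i hi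
    have := hd9 u i hi
    omega
  · intro i hi j hj h
    have a := hd9 u i hi
    have b := hd9 u j hj
    generalize d9 u i = x at *
    generalize d9 u j = y at *
    rcases a with ⟨h1, h2, rfl⟩ | ⟨h1, h2, rfl⟩ | ⟨h1, h2, rfl⟩ <;>
    rcases b with ⟨h3, h4, rfl⟩ | ⟨h3, h4, rfl⟩ | ⟨h3, h4, rfl⟩ <;> omega
  · intro i _ h
    unfold s9
    rw [if_pos h]
  · unfold s9
    rw [if_neg (by omega)]
  · intro i hi
    have := hs9 u i hi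
    omega
  · exact sinj9 u
  · have hs := sum9 u
    generalize ∑ i ∈ Finset.range (6 * u + 4), d9 u i = S at hs ⊢
    have h2 : IsCoprime (2 : ℤ) (4 * (u : ℤ) + 3 : ℤ) := ⟨-(2 * (u : ℤ) + 1 : ℤ), 1, by ring⟩
    have ha : IsCoprime S (4 * (u : ℤ) + 3 : ℤ) :=
      coprime_of _ _ (2 * 8) (28 * (u : ℤ) + 11 : ℤ) (-(2 ^ 0)) h2.pow_left.neg_left (by linear_combination 8 * hs)
    have hb : IsCoprime S 3 := by
      obtain ⟨w, hw⟩ : ∃ w : ℤ, (u : ℤ) = 3 * w ∨ (u : ℤ) = 3 * w + 1 ∨ (u : ℤ) = 3 * w + 2 := ⟨u / 3, by omega⟩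
      rcases hw with hw | hw | hw <;> rw [hw] at hs
      · exact coprime_of _ _ 2 ((42) * w ^ 2 + (16) * w + (1)) (1) isCoprime_one_left (by linear_combination hs)
      · exact coprime_of _ _ 2 ((42) * w ^ 2 + (44) * w + (11)) (1) isCoprime_one_left (by linear_combination hs)
      · exact coprime_of _ _ 2 ((42) * w ^ 2 + (72) * w + (31)) (-1) isCoprime_one_left.neg_left (by linear_combination hs)
    have := hb.mul_right ha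
    convert this using 1
    push_cast; ring

end Pool.Agent.H121Z.Kot
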