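import Pool.Agent.H121Z.KotF1
import Pool.Agent.H121Z.KotF3
import Pool.Agent.H121Z.KotF5
import Pool.Agent.H121Z.KotF7
import Pool.Agent.H121Z.KotF9
import Pool.Agent.H121Z.KotF11

namespace Pool.Agent.H121Z.Kot

theorem small3 : Good (3 * 1) (ZMod 3) :=
  good_of_int 3 1 rfl (by omega) (fun i => [1].getD i 0) (fun i => [2].getD i 0)
    (by decide) (by decide) (by decide) (by decide) (by decide) (by decide)
    (by rw [Int.isCoprime_iff_gcd_eq_one]; decide)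

theorem small11 : Good (11 * 5) (ZMod 11) :=
  good_of_int 11 5 rfl (by omega) (fun i => [1, 2, 3, -4, -5].getD i 0)
    (fun i => [3, 5, -1, -9, -4].getD i 0)
    (by decide) (by decide) (by decide) (by decide) (by decide) (by decide)
    (by rw [Int.isCoprime_iff_gcd_eq_one]; decide)

theorem small15 : Good (15 * 7) (ZMod 15) :=
  good_of_int 15 7 rfl (by omega) (fun i => [1, 2, 3, 4, -5, -6, -7].getD i 0)
    (fun i => [3, 5, 7, -1, -11, -13, -6].getD i 0)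
    (by decide) (by decide) (by decide) (by decide) (by decide) (by decide)
    (by rw [Int.isCoprime_iff_gcd_eq_one]; decide)

def w7 : ZMod 21 → ZMod 7 := fun i =>
  [0, 1, 2, 0, 3, 4, 1, 5, 6, 0, 5, 3, 1, 6, 2, 4, 5, 2, 3, 6, 4].getD i.val 0

theorem small7 : Good (7 * 3) (ZMod 7) := by
  have h1 : ∀ a b : ZMod 7, a ≠ b → ∃ i, (w7 i = a ∧ w7 (i + 1) = b) ∨ (w7 i = b ∧ w7 (i + 1) = a) := by
    decide +kernel
  have h2 : ∀ i j, (w7 i = w7 j ∧ w7 (i + 1) = w7 (j + 1)) ∨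
      (w7 i = w7 (j + 1) ∧ w7 (i + 1) = w7 j) → i = j := by decide +kernel
  have h3 : ∀ i j, (w7 i = w7 j ∧ w7 (i + 2) = w7 (j + 2)) ∨
      (w7 i = w7 (j + 2) ∧ w7 (i + 2) = w7 j) → i = j := by decide +kernel
  apply good_of_walk 21 (ZMod 7) w7
  · intro a b hab
    obtain ⟨i, hi⟩ := h1 a b hab
    rw [← Sym2.eq_iff] at hi
    refine ⟨i, hi, fun j hj => h2 j i ?_⟩
    rw [← Sym2.eq_iff, hi, hj]
  · decide +kernel
  · decide +kernel
  · intro i j h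
    exact h3 i j (Sym2.eq_iff.1 h)

theorem good_odd (m : ℕ) (h1 : 1 ≤ m) (h2 : m ≠ 2) : Good ((2 * m + 1) * m) (ZMod (2 * m + 1)) := by
  have : m = 1 ∨ m = 3 ∨ m = 5 ∨ m = 7 ∨ (∃ u, m = 6 * u + 6) ∨ (∃ u, m = 6 * u + 13) ∨
      (∃ u, m = 6 * u + 8) ∨ (∃ u, m = 6 * u + 9) ∨ (∃ u, m = 6 * u + 4) ∨
      (∃ u, m = 6 * u + 11) := by
    have : m = 1 ∨ m = 3 ∨ m = 5 ∨ m = 7 ∨ (m = 6 * ((m - 6) / 6) + 6) ∨
      (m = 6 * ((m - 13) / 6) + 13) ∨ (m = 6 * ((m - 8) / 6) + 8) ∨ (m = 6 * ((m - 9) / 6) + 9) ∨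
      (m = 6 * ((m - 4) / 6) + 4) ∨ (m = 6 * ((m - 11) / 6) + 11) := by omega
    rcases this with h | h | h | h | h | h | h | h | h | h
    · exact Or.inl h
    · exact Or.inr (Or.inl h)
    · exact Or.inr (Or.inr (Or.inl h))
    · exact Or.inr (Or.inr (Or.inr (Or.inl h)))
    · exact Or.inr (Or.inr (Or.inr (Or.inr (Or.inl ⟨_, h⟩))))
    · exact Or.inr (Or.inr (Or.inr (Or.inr (Or.inr (Or.inl ⟨_, h⟩)))))
    · exact Or.inr (Or.inr (Or.inr (Or.inr (Or.inr (Or.inr (Or.inl ⟨_, h⟩))))))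
    · exact Or.inr (Or.inr (Or.inr (Or.inr (Or.inr (Or.inr (Or.inr (Or.inl ⟨_, h⟩)))))))
    · exact Or.inr (Or.inr (Or.inr (Or.inr (Or.inr (Or.inr (Or.inr (Or.inr (Or.inl ⟨_, h⟩))))))))
    · exact Or.inr (Or.inr (Or.inr (Or.inr (Or.inr (Or.inr (Or.inr (Or.inr (Or.inr ⟨_, h⟩))))))))
  rcases this with rfl | rfl | rfl | rfl | ⟨u, rfl⟩ | ⟨u, rfl⟩ | ⟨u, rfl⟩ | ⟨u, rfl⟩ | ⟨u, rfl⟩ |
    ⟨u, rfl⟩
  · exact small3
  · exact small7
  · exact small11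
  · exact small15
  · rw [show 2 * (6 * u + 6) + 1 = 12 * u + 13 by ring]; exact good1 u
  · rw [show 2 * (6 * u + 13) + 1 = 12 * u + 27 by ring]; exact good3 u
  · rw [show 2 * (6 * u + 8) + 1 = 12 * u + 17 by ring]; exact good5 u
  · rw [show 2 * (6 * u + 9) + 1 = 12 * u + 19 by ring]; exact good7 u
  · rw [show 2 * (6 * u + 4) + 1 = 12 * u + 9 by ring]; exact good9 u
  · rw [show 2 * (6 * u + 11) + 1 = 12 * u + 23 by ring]; exact good11 u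

theorem odd_of_good (M n : ℕ) (hn : 1 ≤ n) (h : Good M (Fin n)) : Odd n := by
  obtain ⟨op, hid, hne, hsym, -⟩ := h
  let b : Fin n := ⟨0, hn⟩
  have hinv : Function.Involutive (fun x => op x b) := fun x => (hsym x b _).1 rfl
  haveI : Fact (Nat.Prime 2) := ⟨Nat.prime_two⟩
  have h2 := Equiv.Perm.card_fixedPoints_modEq (f := fun x => op x b) (p := 2) (n := 1)
    (funext fun x => hinv x)
  have hfix : Function.fixedPoints (fun x => op x b) = {b} := by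
    ext x
    simp only [Function.mem_fixedPoints, Function.IsFixedPt, Set.mem_singleton_iff]
    constructor
    · intro hx
      by_contra hxb
      exact (hne x b hxb).1 hx
    · rintro rfl; exact hid _
  rw [Fintype.card_fin, Fintype.card_congr (Equiv.setCongr hfix)] at h2
  simp only [Fintype.card_unique] at h2
  exact Nat.odd_iff.2 h2

def nn (a b c d : Fin 5) : Bool := !((a == c && b == d) || (a == d && b == c))

set_option synthInstance.maxSize 4000 in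
theorem five : ∀ a0 : Fin 5,
    ∀ a1 : Fin 5, ((a0 != a1)) = true →
    ∀ a2 : Fin 5, ((a1 != a2) && ((a0 != a2) && ((nn a0 a1 a1 a2)))) = true →
    ∀ a3 : Fin 5, ((a2 != a3) && ((a1 != a3) && ((nn a0 a1 a2 a3) && ((nn a1 a2 a2 a3) && ((nn a0 a2 a1 a3)))))) = true →
    ∀ a4 : Fin 5, ((a3 != a4) && ((a2 != a4) && ((nn a0 a1 a3 a4) && ((nn a1 a2 a3 a4) && ((nn a2 a3 a3 a4) && ((nn a0 a2 a2 a4) && ((nn a1 a3 a2 a4)))))))) = true →
    ∀ a5 : Fin 5, ((a4 != a5) && ((a3 != a5) && ((nn a0 a1 a4 a5) && ((nn a1 a2 a4 a5) && ((nn a2 a3 a4 a5) && ((nn a3 a4 a4 a5) && ((nn a0 a2 a3 a5) && ((nn a1 a3 a3 a5) && ((nn a2 a4 a3 a5)))))))))) = true →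
    ∀ a6 : Fin 5, ((a5 != a6) && ((a4 != a6) && ((nn a0 a1 a5 a6) && ((nn a1 a2 a5 a6) && ((nn a2 a3 a5 a6) && ((nn a3 a4 a5 a6) && ((nn a4 a5 a5 a6) && ((nn a0 a2 a4 a6) && ((nn a1 a3 a4 a6) && ((nn a2 a4 a4 a6) && ((nn a3 a5 a4 a6)))))))))))) = true →
    ∀ a7 : Fin 5, ((a6 != a7) && ((a5 != a7) && ((nn a0 a1 a6 a7) && ((nn a1 a2 a6 a7) && ((nn a2 a3 a6 a7) && ((nn a3 a4 a6 a7) && ((nn a4 a5 a6 a7) && ((nn a5 a6 a6 a7) && ((nn a0 a2 a5 a7) && ((nn a1 a3 a5 a7) && ((nn a2 a4 a5 a7) && ((nn a3 a5 a5 a7) && ((nn a4 a6 a5 a7)))))))))))))) = true →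
    ∀ a8 : Fin 5, ((a7 != a8) && ((a6 != a8) && ((nn a0 a1 a7 a8) && ((nn a1 a2 a7 a8) && ((nn a2 a3 a7 a8) && ((nn a3 a4 a7 a8) && ((nn a4 a5 a7 a8) && ((nn a5 a6 a7 a8) && ((nn a6 a7 a7 a8) && ((nn a0 a2 a6 a8) && ((nn a1 a3 a6 a8) && ((nn a2 a4 a6 a8) && ((nn a3 a5 a6 a8) && ((nn a4 a6 a6 a8) && ((nn a5 a7 a6 a8)))))))))))))))) = true →
    ∀ a9 : Fin 5, ((a8 != a9) && ((a7 != a9) && ((nn a0 a1 a8 a9) && ((nn a1 a2 a8 a9) && ((nn a2 a3 a8 a9) && ((nn a3 a4 a8 a9) && ((nn a4 a5 a8 a9) && ((nn a5 a6 a8 a9) && ((nn a6 a7 a8 a9) && ((nn a7 a8 a8 a9) && ((nn a0 a2 a7 a9) && ((nn a1 a3 a7 a9) && ((nn a2 a4 a7 a9) && ((nn a3 a5 a7 a9) && ((nn a4 a6 a7 a9) && ((nn a5 a7 a7 a9) && ((nn a6 a8 a7 a9) && ((a9 != a0) && ((a8 != a0) && ((a9 != a1) && ((nn a0 a1 a9 a0) && ((nn a1 a2 a9 a0) && ((nn a2 a3 a9 a0) && ((nn a3 a4 a9 a0) && ((nn a4 a5 a9 a0) && ((nn a5 a6 a9 a0) && ((nn a6 a7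 a9 a0) && ((nn a7 a8 a9 a0) && ((nn a8 a9 a9 a0) && ((nn a0 a2 a8 a0) && ((nn a1 a3 a8 a0) && ((nn a2 a4 a8 a0) && ((nn a3 a5 a8 a0) && ((nn a4 a6 a8 a0) && ((nn a5 a7 a8 a0) && ((nn a6 a8 a8 a0) && ((nn a7 a9 a8 a0) && ((nn a0 a2 a9 a1) && ((nn a1 a3 a9 a1) && ((nn a2 a4 a9 a1) && ((nn a3 a5 a9 a1) && ((nn a4 a6 a9 a1) && ((nn a5 a7 a9 a1) && ((nn a6 a8 a9 a1) && ((nn a7 a9 a9 a1) && ((nn a8 a0 a9 a1))))))))))))))))))))))))))))))))))))))))))))))) = true → False := by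
  decide +kernel

theorem not_good5 : ¬ Good 10 (Fin 5) := by
  rintro ⟨op, hid, hne, hsym, hl, -, v, hv, hE⟩
  have hN : ∀ i, v i ≠ v (i + 1) := by
    intro i hi
    have all : ∀ k : ℕ, v (i + k) = v i ∧ v (i + k + 1) = v i := by
      intro k
      induction k with
      | zero => simpa using hi.symm
      | succ k ih =>
        have := hv (i + k)
        rw [ih.1, ih.2, hid] at this
        push_cast
        refine ⟨by rw [← add_assoc]; exact ih.2, ?_⟩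
        rw [this]; congr 1; ring
    obtain ⟨j, hj, -⟩ := hE 0 1 (by decide)
    have := all (j - i).val
    rw [ZMod.natCast_zmod_val, add_sub_cancel] at this
    rw [this.1, this.2, Sym2.eq_iff] at hj
    have h01 : (0 : Fin 5) = 1 := by
      rcases hj with ⟨a, b⟩ | ⟨a, b⟩
      · rw [← a, ← b]
      · rw [← a, ← b]
    exact absurd h01 (by decide)
  have hN2 : ∀ i, v i ≠ v (i + 2) := fun i => by
    rw [← hv]; exact ((hne _ _ (hN i)).1).symm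
  have hE1 : ∀ i j, s(v i, v (i + 1)) = s(v j, v (j + 1)) → i = j := fun i j h =>
    (hE _ _ (hN j)).unique h rfl
  have hE2 : ∀ i j, s(v i, v (i + 2)) = s(v j, v (j + 2)) → i = j := by
    intro i j h
    rw [Sym2.eq_iff] at h
    rcases h with ⟨a, b⟩ | ⟨a, b⟩
    · have : v (i + 1) = v (j + 1) := (hl (v i) (v (i + 2))).unique (hv i) (by rw [b, a]; exact hv j)
      exact hE1 i j (by rw [a, this])
    · have : v (i + 1) = v (j + 1) := (hl (v i) (v (i + 2))).unique (hv i)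
        (by rw [b, a]; exact (hsym _ _ _).1 (hv j))
      have e : i + 1 = j := hE1 _ _ (by
        rw [show i + 1 + 1 = i + 2 by ring, this, b, Sym2.eq_swap])
      exfalso
      apply hN (i + 1)
      rw [show i + 1 + 1 = i + 2 by ring, b, e]
  have an : ∀ {a b : Bool}, a = true → b = true → (a && b) = true := by
    intro a b ha hb; rw [ha, hb]; rfl
  have n1 : ∀ i j, i + 1 = j → (v i != v j) = true := by
    rintro i j rfl; simpa using hN i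
  have n2 : ∀ i j, i + 2 = j → (v i != v j) = true := by
    rintro i j rfl; simpa using hN2 i
  have nnq : ∀ a b c d : Fin 5, s(a, b) ≠ s(c, d) → nn a b c d = true := by
    intro a b c d h
    rw [Ne, Sym2.eq_iff] at h
    revert a b c d
    decide +kernel
  have e1 : ∀ i i' j j', i + 1 = i' → j + 1 = j' → i ≠ j → nn (v i) (v i') (v j) (v j') = true := by
    rintro i i' j j' rfl rfl h
    exact nnq _ _ _ _ fun e => h (hE1 i j e)
  have e2 : ∀ i i' j j', i + 2 = i' → j + 2 = j' → i ≠ j → nn (v i) (v i') (v j) (v j') = true := by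
    rintro i i' j j' rfl rfl h
    exact nnq _ _ _ _ fun e => h (hE2 i j e)
  exact five (v 0)
    (v 1) (n1 0 1 rfl)
    (v 2) (an (n1 1 2 rfl) (an (n2 0 2 rfl) (e1 0 1 1 2 rfl rfl (by decide))))
    (v 3) (an (n1 2 3 rfl) (an (n2 1 3 rfl) (an (e1 0 1 2 3 rfl rfl (by decide)) (an (e1 1 2 2 3 rfl rfl (by decide)) (e2 0 2 1 3 rfl rfl (by decide))))))
    (v 4) (an (n1 3 4 rfl) (an (n2 2 4 rfl) (an (e1 0 1 3 4 rfl rfl (by decide)) (an (e1 1 2 3 4 rfl rfl (by decide)) (an (e1 2 3 3 4 rfl rfl (by decide)) (an (e2 0 2 2 4 rfl rfl (by decide)) (e2 1 3 2 4 rfl rfl (by decide))))))))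
    (v 5) (an (n1 4 5 rfl) (an (n2 3 5 rfl) (an (e1 0 1 4 5 rfl rfl (by decide)) (an (e1 1 2 4 5 rfl rfl (by decide)) (an (e1 2 3 4 5 rfl rfl (by decide)) (an (e1 3 4 4 5 rfl rfl (by decide)) (an (e2 0 2 3 5 rfl rfl (by decide)) (an (e2 1 3 3 5 rfl rfl (by decide)) (e2 2 4 3 5 rfl rfl (by decide))))))))))
    (v 6) (an (n1 5 6 rfl) (an (n2 4 6 rfl) (an (e1 0 1 5 6 rfl rfl (by decide)) (an (e1 1 2 5 6 rfl rfl (by decide)) (an (e1 2 3 5 6 rfl rfl (by decide)) (an (e1 3 4 5 6 rfl rfl (by decide)) (an (e1 4 5 5 6 rfl rfl (by decide)) (an (e2 0 2 4 6 rfl rfl (by decide)) (an (e2 1 3 4 6 rfl rfl (by decide)) (an (e2 2 4 4 6 rfl rfl (by decide)) (e2 3 5 4 6 rfl rfl (by decide))))))))))))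
    (v 7) (an (n1 6 7 rfl) (an (n2 5 7 rfl) (an (e1 0 1 6 7 rfl rfl (by decide)) (an (e1 1 2 6 7 rfl rfl (by decide)) (an (e1 2 3 6 7 rfl rfl (by decide)) (an (e1 3 4 6 7 rfl rfl (by decide)) (an (e1 4 5 6 7 rfl rfl (by decide)) (an (e1 5 6 6 7 rfl rfl (by decide)) (an (e2 0 2 5 7 rfl rfl (by decide)) (an (e2 1 3 5 7 rfl rfl (by decide)) (an (e2 2 4 5 7 rfl rfl (by decide)) (an (e2 3 5 5 7 rfl rfl (by decide)) (e2 4 6 5 7 rfl rfl (by decide))))))))))))))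
    (v 8) (an (n1 7 8 rfl) (an (n2 6 8 rfl) (an (e1 0 1 7 8 rfl rfl (by decide)) (an (e1 1 2 7 8 rfl rfl (by decide)) (an (e1 2 3 7 8 rfl rfl (by decide)) (an (e1 3 4 7 8 rfl rfl (by decide)) (an (e1 4 5 7 8 rfl rfl (by decide)) (an (e1 5 6 7 8 rfl rfl (by decide)) (an (e1 6 7 7 8 rfl rfl (by decide)) (an (e2 0 2 6 8 rfl rfl (by decide)) (an (e2 1 3 6 8 rfl rfl (by decide)) (an (e2 2 4 6 8 rfl rfl (by decide)) (an (e2 3 5 6 8 rfl rfl (by decide)) (an (e2 4 6 6 8 rfl rfl (by decide)) (e2 5 7 6 8 rfl rfl (by decide))))))))))))))))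
    (v 9) (an (n1 8 9 rfl) (an (n2 7 9 rfl) (an (e1 0 1 8 9 rfl rfl (by decide)) (an (e1 1 2 8 9 rfl rfl (by decide)) (an (e1 2 3 8 9 rfl rfl (by decide)) (an (e1 3 4 8 9 rfl rfl (by decide)) (an (e1 4 5 8 9 rfl rfl (by decide)) (an (e1 5 6 8 9 rfl rfl (by decide)) (an (e1 6 7 8 9 rfl rfl (by decide)) (an (e1 7 8 8 9 rfl rfl (by decide)) (an (e2 0 2 7 9 rfl rfl (by decide)) (an (e2 1 3 7 9 rfl rfl (by decide)) (an (e2 2 4 7 9 rfl rfl (by decide)) (an (e2 3 5 7 9 rfl rfl (by decide)) (an (e2 4 6 7 9 rfl rfl (by decide)) (an (e2 5 7 7 9 rfl rfl (by decide)) (an (e2 6 8 7 9 rfl rfl (by decide)) (an (n1 9 0 rfl) (an (n2 8 0 rfl) (an (n2 9 1 rfl) (an (e1 0 1 9 0 rfl rfl (by decide)) (an (e1 1 2 9 0 rfl rfl (by decide)) (an (e1 2 3 9 0 rfl rfl (by decide)) (an (e1 3 4 9 0 rfl rfl (by decide)) (an (e1 4 5 9 0 rfl rfl (by decide)) (an (e1 5 6 9 0 rfl rfl (by decide)) (an (e1 6 7 9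 0 rfl rfl (by decide)) (an (e1 7 8 9 0 rfl rfl (by decide)) (an (e1 8 9 9 0 rfl rfl (by decide)) (an (e2 0 2 8 0 rfl rfl (by decide)) (an (e2 1 3 8 0 rfl rfl (by decide)) (an (e2 2 4 8 0 rfl rfl (by decide)) (an (e2 3 5 8 0 rfl rfl (by decide)) (an (e2 4 6 8 0 rfl rfl (by decide)) (an (e2 5 7 8 0 rfl rfl (by decide)) (an (e2 6 8 8 0 rfl rfl (by decide)) (an (e2 7 9 8 0 rfl rfl (by decide)) (an (e2 0 2 9 1 rfl rfl (by decide)) (an (e2 1 3 9 1 rfl rfl (by decide)) (an (e2 2 4 9 1 rfl rfl (by decide)) (an (e2 3 5 9 1 rfl rfl (by decide)) (an (e2 4 6 9 1 rfl rfl (by decide)) (an (e2 5 7 9 1 rfl rfl (by decide)) (an (e2 6 8 9 1 rfl rfl (by decide)) (an (e2 7 9 9 1 rfl rfl (by decide)) (e2 8 0 9 1 rfl rfl (by decide)))))))))))))))))))))))))))))))))))))))))))))))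

theorem main (n : ℕ) (hn : 2 ≤ n) : Good (n * (n - 1) / 2) (Fin n) ↔ Odd n ∧ n ≠ 5 := by
  constructor
  · intro h
    refine ⟨odd_of_good _ n (by omega) h, ?_⟩
    rintro rfl
    exact not_good5 h
  · rintro ⟨⟨m, rfl⟩, h5⟩
    have e : (2 * m + 1) * (2 * m + 1 - 1) / 2 = (2 * m + 1) * m := by
      rw [Nat.add_sub_cancel, show (2 * m + 1) * (2 * m) = 2 * ((2 * m + 1) * m) by ring]
      omega
    rw [e]
    exact good_odd m (by omega) (by omega)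

end Pool.Agent.H121Z.Kot
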