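import Pool.Agent.H121Z.KotB

namespace Pool.Agent.H121Z.Kot

def d1 (u : ℕ) : ℕ → ℤ := fun i => if i < 2 * u + 2 then 1 * (i : ℤ) + (1 : ℤ) else
    if i < 3 * u + 3 then (-1) * (i : ℤ) + (8 * (u : ℤ) + 8 : ℤ) else
    1 * (i : ℤ) + ((-8) * (u : ℤ) - 8 : ℤ)

def s1 (u : ℕ) : ℕ → ℤ := fun i =>
  if i + 1 < 6 * u + 6 then d1 u i + d1 u (i + 1) else d1 u i + d1 u 0

theorem d1_0 (u i : ℕ) (h1 : 0 ≤ i) (h2 : i < 2 * u + 2) :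
    d1 u i = (1) * (i : ℤ) + (1 : ℤ) := by
  unfold d1
  split_ifs <;> omega

theorem d1_1 (u i : ℕ) (h1 : 2 * u + 2 ≤ i) (h2 : i < 3 * u + 3) :
    d1 u i = (-1) * (i : ℤ) + (8 * (u : ℤ) + 8 : ℤ) := by
  unfold d1
  split_ifs <;> omega

theorem d1_2 (u i : ℕ) (h1 : 3 * u + 3 ≤ i) (h2 : i < 6 * u + 6) :
    d1 u i = (1) * (i : ℤ) + ((-8) * (u : ℤ) - 8 : ℤ) := by
  unfold d1
  split_ifs <;> omega

theorem hd1 (u i : ℕ) (h : i < 6 * u + 6) :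
    (0 ≤ i ∧ i < 2 * u + 2 ∧ d1 u i = (1) * (i : ℤ) + (1 : ℤ)) ∨
    (2 * u + 2 ≤ i ∧ i < 3 * u + 3 ∧ d1 u i = (-1) * (i : ℤ) + (8 * (u : ℤ) + 8 : ℤ)) ∨
    (3 * u + 3 ≤ i ∧ i < 6 * u + 6 ∧ d1 u i = (1) * (i : ℤ) + ((-8) * (u : ℤ) - 8 : ℤ)) := by
  have : (0 ≤ i ∧ i < 2 * u + 2) ∨ (2 * u + 2 ≤ i ∧ i < 3 * u + 3) ∨ (3 * u + 3 ≤ i ∧ i < 6 * u + 6) := by omega
  rcases this with h | h | h
  · exact Or.inl ⟨h.1, h.2, d1_0 u i h.1 h.2⟩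
  · exact Or.inr (Or.inl ⟨h.1, h.2, d1_1 u i h.1 h.2⟩)
  · exact Or.inr (Or.inr (⟨h.1, h.2, d1_2 u i h.1 h.2⟩))

theorem hs1 (u i : ℕ) (h : i < 6 * u + 6) :
    ((0 ≤ i ∧ i + 1 < 2 * u + 2) ∧ s1 u i = (1) * (2 * (i : ℤ) + 1) + 2 * (1 : ℤ)) ∨
    ((2 * u + 2 ≤ i ∧ i + 1 < 3 * u + 3) ∧ s1 u i = (-1) * (2 * (i : ℤ) + 1) + 2 * (8 * (u : ℤ) + 8 : ℤ)) ∨
    ((3 * u + 3 ≤ i ∧ i + 1 < 6 * u + 6) ∧ s1 u i = (1) * (2 * (i : ℤ) + 1) + 2 * ((-8) * (u : ℤ) - 8 : ℤ)) ∨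
    ((i + 1 = 2 * u + 2) ∧ s1 u i = (8 * (u : ℤ) + 8 : ℤ)) ∨
    ((i + 1 = 3 * u + 3) ∧ s1 u i = (1 : ℤ)) ∨
    ((i + 1 = 6 * u + 6) ∧ s1 u i = ((-2) * (u : ℤ) - 2 : ℤ)) := by
  have : (0 ≤ i ∧ i + 1 < 2 * u + 2) ∨ (2 * u + 2 ≤ i ∧ i + 1 < 3 * u + 3) ∨ (3 * u + 3 ≤ i ∧ i + 1 < 6 * u + 6) ∨ (i + 1 = 2 * u + 2) ∨ (i + 1 = 3 * u + 3) ∨ (i + 1 = 6 * u + 6) := by omega
  rcases this with h | h | h | h | h | h
  · refine Or.inl ⟨h, ?_⟩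
    unfold s1
    rw [if_pos (by omega), d1_0 u i (by omega) (by omega), d1_0 u (i + 1) (by omega) (by omega)]; push_cast; ring
  · refine Or.inr (Or.inl ⟨h, ?_⟩)
    unfold s1
    rw [if_pos (by omega), d1_1 u i (by omega) (by omega), d1_1 u (i + 1) (by omega) (by omega)]; push_cast; ring
  · refine Or.inr (Or.inr (Or.inl ⟨h, ?_⟩))
    unfold s1
    rw [if_pos (by omega), d1_2 u i (by omega) (by omega), d1_2 u (i + 1) (by omega) (by omega)]; push_cast; ring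
  · refine Or.inr (Or.inr (Or.inr (Or.inl ⟨h, ?_⟩)))
    unfold s1
    rw [if_pos (by omega), d1_0 u i (by omega) (by omega), d1_1 u (i + 1) (by omega) (by omega)]; omega
  · refine Or.inr (Or.inr (Or.inr (Or.inr (Or.inl ⟨h, ?_⟩))))
    unfold s1
    rw [if_pos (by omega), d1_1 u i (by omega) (by omega), d1_2 u (i + 1) (by omega) (by omega)]; omega
  · refine Or.inr (Or.inr (Or.inr (Or.inr (Or.inr (⟨h, ?_⟩)))))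
    unfold s1
    rw [if_neg (by omega), d1_2 u i (by omega) (by omega), d1_0 u 0 (by omega) (by omega)]; omega

theorem sinj1 (u : ℕ) : ∀ i < 6 * u + 6, ∀ j < 6 * u + 6,
    (s1 u i - s1 u j = 0 ∨ s1 u i - s1 u j = ((12 * u + 13 : ℕ) : ℤ) ∨ s1 u i - s1 u j = -((12 * u + 13 : ℕ) : ℤ) ∨
      s1 u i + s1 u j = 0 ∨ s1 u i + s1 u j = ((12 * u + 13 : ℕ) : ℤ) ∨ s1 u i + s1 u j = -((12 * u + 13 : ℕ) : ℤ)) → i = j := by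
  intro i hi j hj h
  have a := hs1 u i hi
  have b := hs1 u j hj
  generalize s1 u i = x at *
  generalize s1 u j = y at *
  rcases a with ⟨h1, rfl⟩ | ⟨h1, rfl⟩ | ⟨h1, rfl⟩ | ⟨h1, rfl⟩ | ⟨h1, rfl⟩ | ⟨h1, rfl⟩ <;>
  rcases b with ⟨h2, rfl⟩ | ⟨h2, rfl⟩ | ⟨h2, rfl⟩ | ⟨h2, rfl⟩ | ⟨h2, rfl⟩ | ⟨h2, rfl⟩ <;> omega

theorem sum1 (u : ℕ) : 2 * ∑ i ∈ Finset.range (6 * u + 6), d1 u i = (-6) * (u : ℤ) ^ 2 + (-12) * u + (-6) := by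
  have e0 := sum_lin (d1 u) (0) (2 * u + 2) _ _ (by omega) (d1_0 u)
  have e1 := sum_lin (d1 u) (2 * u + 2) (3 * u + 3) _ _ (by omega) (d1_1 u)
  have e2 := sum_lin (d1 u) (3 * u + 3) (6 * u + 6) _ _ (by omega) (d1_2 u)
  rw [e2, e1, e0]
  push_cast
  simp only [Finset.range_zero, Finset.sum_empty]
  ring

theorem good1 (u : ℕ) : Good ((12 * u + 13) * (6 * u + 6)) (ZMod (12 * u + 13)) := by
  apply good_of_int (12 * u + 13) (6 * u + 6) (by omega) (by omega) (d1 u) (s1 u)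
  · intro i hi
    have := hd1 u i hi
    omega
  · intro i hi j hj h
    have a := hd1 u i hi
    have b := hd1 u j hj
    generalize d1 u i = x at *
    generalize d1 u j = y at *
    rcases a with ⟨h1, h2, rfl⟩ | ⟨h1, h2, rfl⟩ | ⟨h1, h2, rfl⟩ <;>
    rcases b with ⟨h3, h4, rfl⟩ | ⟨h3, h4, rfl⟩ | ⟨h3, h4, rfl⟩ <;> omega
  · intro i _ h
    unfold s1
    rw [if_pos h]
  · unfold s1
    rw [if_neg (by omega)]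
  · intro i hi
    have := hs1 u i hi
    omega
  · exact sinj1 u
  · have h2 : IsCoprime (2 : ℤ) ((12 * u + 13 : ℕ) : ℤ) := ⟨-(6 * (u : ℤ) + 6 : ℤ), 1, by push_cast; ring⟩
    refine coprime_of _ _ (2 * 24) ((-12) * (u : ℤ) - 11 : ℤ) (-(2 ^ 0)) h2.pow_left.neg_left ?_
    have := sum1 u
    push_cast at this ⊢
    linear_combination 24 * this

end Pool.Agent.H121Z.Kot
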