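import Pool.Agent.Helper1.Horton3

namespace Pool.Agent.H121Z.Room

/-- An `n × n` array indexed by `ZMod n`; a cell is empty (`none`) or holds an unordered pair of
symbols from `ZMod n ∪ {∞}`, where the symbol `∞` is `none : Option (ZMod n)`. -/
abbrev Arr (n : ℕ) : Type := ZMod n → ZMod n → Option (Sym2 (Option (ZMod n)))

/-- Room square of side `n`. -/
def IsRoom {n : ℕ} (R : Arr n) : Prop :=
  (∀ r s p, R r s = some p → ¬ p.IsDiag) ∧
  (∀ r x, ∃! s, ∃ p, R r s = some p ∧ x ∈ p) ∧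
  (∀ s x, ∃! r, ∃ p, R r s = some p ∧ x ∈ p) ∧
  (∀ p : Sym2 (Option (ZMod n)), ¬ p.IsDiag → ∃! c : ZMod n × ZMod n, R c.1 c.2 = some p)

/-- Cyclic: if cell `(r, s)` holds `{x, y}` then cell `(r + 1, s + 1)` holds `{x + 1, y + 1}`,
with `∞ + 1 = ∞`. -/
def IsCyclic {n : ℕ} (R : Arr n) : Prop :=
  ∀ r s x y, R r s = some s(x, y) →
    R (r + 1) (s + 1) = some s(x.map (· + 1), y.map (· + 1))

/-- Patterned Room square of side `n = 2 m + 1`: a cyclic Room square whose row `0` contains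
exactly the pairs `{∞, 0}` and `{k, -k}` for `1 ≤ k ≤ m`. -/
def IsPatterned {n : ℕ} (R : Arr n) : Prop :=
  IsRoom R ∧ IsCyclic R ∧
    ∀ p, (∃ s, R 0 s = some p) ↔ (p = s(none, some 0) ∨
      ∃ k : ℕ, 1 ≤ k ∧ k ≤ (n - 1) / 2 ∧ p = s(some (k : ZMod n), some (-(k : ZMod n))))

theorem pair_iff (m : ℕ) (p : Sym2 (Option (ZMod (2 * m + 1)))) :
    (∃ k : ℕ, 1 ≤ k ∧ k ≤ (2 * m + 1 - 1) / 2 ∧
      p = s(some (k : ZMod (2 * m + 1)), some (-(k : ZMod (2 * m + 1))))) ↔
    ∃ z : ZMod (2 * m + 1), z ≠ 0 ∧ p = s(some z, some (-z)) := by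
  constructor
  · rintro ⟨k, h1, h2, rfl⟩
    refine ⟨k, ?_, rfl⟩
    rw [Ne, ZMod.natCast_eq_zero_iff]
    intro h
    have := Nat.le_of_dvd (by omega) h
    omega
  · rintro ⟨z, hz, rfl⟩
    have hv : z.val ≠ 0 := by rwa [Ne, ZMod.val_eq_zero]
    have hv2 := ZMod.val_lt z
    by_cases hc : z.val ≤ m
    · exact ⟨z.val, by omega, by omega, by simp⟩
    · refine ⟨2 * m + 1 - z.val, by omega, by omega, ?_⟩
      have : ((2 * m + 1 - z.val : ℕ) : ZMod (2 * m + 1)) = -z := by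
        rw [Nat.cast_sub hv2.le]; simp
      rw [this, neg_neg, Sym2.eq_swap]

theorem extract (m : ℕ) (R : Arr (2 * m + 1)) (h : IsPatterned R) :
    ∃ c : ZMod (2 * m + 1) → ZMod (2 * m + 1), (∀ k, c (-k) = c k) ∧
      (∀ k l, c k = c l → k = l ∨ k = -l) ∧ ∀ k l, k - c k = l - c l → k = l := by
  classical
  obtain ⟨⟨-, hrow, hcol, -⟩, hcyc, hpat⟩ := h
  let P : ZMod (2 * m + 1) → Option (ZMod (2 * m + 1)) := fun k => if k = 0 then none else some (-k)
  have hP : ∀ k, ∃ s, R 0 s = some s(some k, P k) := by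
    intro k
    rw [hpat, pair_iff]
    by_cases hk : k = 0
    · left; simp only [P, hk, if_true]; exact Sym2.eq_swap
    · right; exact ⟨k, hk, by simp only [P, hk, if_false]⟩
  choose c hc using hP
  have hsh : ∀ (t : ℕ) r s x y, R r s = some s(x, y) →
      R (r + t) (s + t) = some s(x.map (· + (t : ZMod (2 * m + 1))),
        y.map (· + (t : ZMod (2 * m + 1)))) := by
    intro t
    induction t with
    | zero => intro r s x y h; simpa using h
    | succ t ih =>
      intro r s x y h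
      have := hcyc _ _ _ _ (ih r s x y h)
      push_cast
      rw [← add_assoc, ← add_assoc, this]
      cases x <;> cases y <;> simp [add_assoc]
  refine ⟨c, ?_, ?_, ?_⟩
  · intro k
    by_cases hk : k = 0
    · simp [hk]
    · refine (hrow 0 (some k)).unique ⟨_, hc (-k), ?_⟩ ⟨_, hc k, by simp⟩
      simp [P, hk]
  · intro k l h
    have e := hc k
    rw [h, hc l, Option.some.injEq, Sym2.eq_iff] at e
    rcases e with ⟨e, -⟩ | ⟨-, e⟩
    · left; exact (Option.some.inj e).symm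
    · by_cases hl : l = 0
      · simp [P, hl] at e
      · simp only [P, hl, if_false, Option.some.injEq] at e
        right; exact e.symm
  · intro k l h
    have a := hsh (-c k).val _ _ _ _ (hc k)
    have b := hsh (-c l).val _ _ _ _ (hc l)
    simp only [ZMod.natCast_val, ZMod.cast_id', id_eq, zero_add, add_neg_cancel] at a b
    have := (hcol 0 (some (k - c k))).unique ⟨_, a, by simp [sub_eq_add_neg]⟩
      ⟨_, b, by rw [h]; simp [sub_eq_add_neg]⟩
    linear_combination h - this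

theorem no3 (R : Arr (2 * 1 + 1)) : ¬ IsPatterned R := by
  intro h
  obtain ⟨c, h1, h2, h3⟩ := extract 1 R h
  revert c
  decide +kernel

theorem no5 (R : Arr (2 * 2 + 1)) : ¬ IsPatterned R := by
  intro h
  obtain ⟨c, h1, h2, h3⟩ := extract 2 R h
  revert c
  decide +kernel

theorem fin9 : ∀ c0 c1 : ZMod 9, c0 ≠ c1 → ∀ c2 : ZMod 9, [c0, c1, c2].Nodup →
    [0 - c0, 1 - c1, -1 - c1, 2 - c2, -2 - c2].Nodup → ∀ c3 c4 : ZMod 9,
    [c0, c1, c2, c3, c4].Nodup →
    ¬ [0 - c0, 1 - c1, -1 - c1, 2 - c2, -2 - c2, 3 - c3, -3 - c3, 4 - c4, -4 - c4].Nodup := by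
  decide +kernel

theorem no9 (R : Arr (2 * 4 + 1)) : ¬ IsPatterned R := by
  intro h
  obtain ⟨c, h1, h2, h3⟩ := extract 4 R h
  have hc : ∀ l : List (ZMod 9), l.Pairwise (fun a b => ¬ (a = b ∨ a = -b)) → (l.map c).Nodup := by
    intro l hl
    rw [List.Nodup, List.pairwise_map]
    exact hl.imp fun hab e => hab (h2 _ _ e)
  have hd : ∀ l : List (ZMod 9), l.Nodup → (l.map fun k => k - c k).Nodup := fun l hl =>
    hl.map fun a b e => h3 a b e
  have a1 := hc [0, 1, 2] (by decide)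
  have a2 := hc [0, 1, 2, 3, 4] (by decide)
  have b1 := hd [0, 1, -1, 2, -2] (by decide)
  have b2 := hd [0, 1, -1, 2, -2, 3, -3, 4, -4] (by decide)
  simp only [List.map, h1] at a1 a2 b1 b2
  refine fin9 (c 0) (c 1) (fun e => ?_) (c 2) a1 b1 (c 3) (c 4) a2 b2
  exact absurd (h2 _ _ e) (by decide)

end Pool.Agent.H121Z.Room
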