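import Pool.Agent.H121Z.RoomA

namespace Pool.Agent.H121Z.Room

theorem inj_of_cover {κ G : Type} [Finite κ] [AddCommGroup G] [Finite G] (e : κ → G)
    (hc : Nat.card κ + 1 = Nat.card G) (h : ∀ g : G, g ≠ 0 → ∃ i, e i = g) :
    Function.Injective e ∧ ∀ i, e i ≠ 0 := by
  have hs : Function.Surjective (fun o : Option κ => o.elim 0 e) := by
    intro g
    by_cases hg : g = 0
    · exact ⟨none, hg.symm⟩
    · obtain ⟨i, hi⟩ := h g hg
      exact ⟨some i, hi⟩
  have hb := (Nat.bijective_iff_surjective_and_card _).2 ⟨hs, by rw [Finite.card_option, hc]⟩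
  exact ⟨fun i j hij => Option.some.inj (hb.1 (a₁ := some i) (a₂ := some j) hij),
    fun i hi => absurd (hb.1 (a₁ := some i) (a₂ := none) hi) (by simp)⟩

theorem build (m : ℕ) {ι : Type} (a k : ι → ZMod (2 * m + 1))
    (ainj : Function.Injective a) (a0 : ∀ i, a i ≠ 0)
    (k0 : ∀ i, k i ≠ 0) (kinj : ∀ i j, k i = k j ∨ k i = - k j → i = j)
    (kcov : ∀ z, z ≠ 0 → ∃ i, k i = z ∨ k i = -z)
    (x0 : ∀ i, a i + k i ≠ 0 ∧ a i - k i ≠ 0)
    (xinj : ∀ i j, (a i + k i = a j + k j ∨ a i + k i = a j - k j ∨ a i - k i = a j + k j ∨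
      a i - k i = a j - k j) → i = j)
    (xcov : ∀ z, z ≠ 0 → ∃ i, a i + k i = z ∨ a i - k i = z) :
    ∃ R : Arr (2 * m + 1), IsPatterned R := by
  classical
  have h2 : (2 : ZMod (2 * m + 1)) * ((m : ZMod (2 * m + 1)) + 1) = 1 := by
    have : ((2 * m + 1 : ℕ) : ZMod (2 * m + 1)) = 0 := ZMod.natCast_self _
    push_cast at this
    linear_combination this
  let R : Arr (2 * m + 1) := fun r s =>
    if r = s then some s(none, some r) else
      if h : ∃ i, a i = r - s then some s(some (r + k h.choose), some (r - k h.choose)) else none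
  have hR : ∀ r s p, R r s = some p ↔ (r = s ∧ p = s(none, some r)) ∨
      ∃ i, a i = r - s ∧ p = s(some (r + k i), some (r - k i)) := by
    intro r s p
    by_cases h : r = s
    · simp only [R, if_pos h, Option.some.injEq]
      constructor
      · rintro rfl; exact Or.inl ⟨h, rfl⟩
      · rintro (⟨-, rfl⟩ | ⟨i, hi, -⟩)
        · rfl
        · exact absurd (by rw [hi, h, sub_self]) (a0 i)
    · simp only [R, if_neg h]
      by_cases h' : ∃ i, a i = r - s
      · simp only [dif_pos h', Option.some.injEq]
        constructor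
        · rintro rfl; exact Or.inr ⟨_, h'.choose_spec, rfl⟩
        · rintro (⟨e, -⟩ | ⟨i, hi, rfl⟩)
          · exact absurd e h
          · rw [ainj (h'.choose_spec.trans hi.symm)]
      · simp only [dif_neg h']
        constructor
        · intro e; exact absurd e (by simp)
        · rintro (⟨e, -⟩ | ⟨i, hi, -⟩)
          · exact absurd e h
          · exact absurd ⟨i, hi⟩ h'
  have hnone : ∀ r s, (∃ p, R r s = some p ∧ none ∈ p) ↔ r = s := by
    intro r s
    constructor
    · rintro ⟨p, hp, hm⟩
      rcases (hR _ _ _).1 hp with ⟨e, -⟩ | ⟨i, -, rfl⟩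
      · exact e
      · simp at hm
    · intro e; exact ⟨_, (hR _ _ _).2 (Or.inl ⟨e, rfl⟩), by simp⟩
  have hsome : ∀ r s z, (∃ p, R r s = some p ∧ some z ∈ p) ↔
      (r = s ∧ z = r) ∨ ∃ i, a i = r - s ∧ (z = r + k i ∨ z = r - k i) := by
    intro r s z
    constructor
    · rintro ⟨p, hp, hm⟩
      rcases (hR _ _ _).1 hp with ⟨e, rfl⟩ | ⟨i, hi, rfl⟩
      · left; simpa [e] using hm
      · right; exact ⟨i, hi, by simpa using hm⟩
    · rintro (⟨e, rfl⟩ | ⟨i, hi, h⟩)
      · exact ⟨_, (hR _ _ _).2 (Or.inl ⟨e, rfl⟩), by simp⟩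
      · exact ⟨_, (hR _ _ _).2 (Or.inr ⟨i, hi, rfl⟩), by simpa using h⟩
  refine ⟨R, ⟨?_, ?_, ?_, ?_⟩, ?_, ?_⟩
  · intro r s p hp
    rcases (hR _ _ _).1 hp with ⟨-, rfl⟩ | ⟨i, -, rfl⟩
    · simp
    · rw [Sym2.mk_isDiag_iff, Option.some.injEq]
      intro e
      apply k0 i
      linear_combination ((m : ZMod (2 * m + 1)) + 1) * e - k i * h2
  · intro r x
    cases x with
    | none => simp only [hnone]; exact ⟨r, rfl, fun s hs => hs.symm⟩
    | some z =>
      simp only [hsome]
      by_cases hz : z = r
      · refine ⟨r, Or.inl ⟨rfl, hz⟩, ?_⟩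
        rintro s (⟨e, -⟩ | ⟨i, -, e | e⟩)
        · exact e.symm
        · exact absurd (by linear_combination hz - e) (k0 i)
        · exact absurd (by linear_combination e - hz) (k0 i)
      · obtain ⟨i, hi⟩ := kcov (z - r) (sub_ne_zero.2 hz)
        refine ⟨r - a i, Or.inr ⟨i, by ring, ?_⟩, ?_⟩
        · rcases hi with hi | hi
          · left; linear_combination -hi
          · right; linear_combination hi
        · rintro s (⟨-, e⟩ | ⟨j, hj, e⟩)
          · exact absurd e hz
          · have : i = j := by
              apply kinj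
              rcases hi with hi | hi <;> rcases e with e | e
              · left; linear_combination hi + e
              · right; linear_combination hi + e
              · right; linear_combination hi - e
              · left; linear_combination hi - e
            rw [this, hj]; ring
  · intro s x
    cases x with
    | none => simp only [hnone]; exact ⟨s, rfl, fun r hr => hr⟩
    | some z =>
      simp only [hsome]
      by_cases hz : z = s
      · refine ⟨s, Or.inl ⟨rfl, hz⟩, ?_⟩
        rintro r (⟨e, -⟩ | ⟨i, hi, e | e⟩)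
        · exact e
        · exact absurd (by linear_combination hz - e + hi) (x0 i).1
        · exact absurd (by linear_combination hz - e + hi) (x0 i).2
      · obtain ⟨i, hi⟩ := xcov (z - s) (sub_ne_zero.2 hz)
        refine ⟨s + a i, Or.inr ⟨i, by ring, ?_⟩, ?_⟩
        · rcases hi with hi | hi
          · left; linear_combination -hi
          · right; linear_combination -hi
        · rintro r (⟨e1, e⟩ | ⟨j, hj, e⟩)
          · exact absurd (e.trans e1) hz
          · have : i = j := by
              apply xinj
              rcases hi with hi | hi <;> rcases e with e | e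
              · left; linear_combination hi + e - hj
              · right; left; linear_combination hi + e - hj
              · right; right; left; linear_combination hi + e - hj
              · right; right; right; linear_combination hi + e - hj
            rw [this, hj]; ring
  · have key : ∀ z, ∃! c : ZMod (2 * m + 1) × ZMod (2 * m + 1),
        R c.1 c.2 = some s(none, some z) := by
      intro z
      refine ⟨(z, z), (hR _ _ _).2 (Or.inl ⟨rfl, rfl⟩), ?_⟩
      rintro ⟨r, s⟩ h
      rcases (hR _ _ _).1 h with ⟨e, e2⟩ | ⟨i, -, e2⟩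
      · simp only at e e2
        have : z = r := by simpa using e2
        rw [← e, this]
      · simp at e2
    intro p
    induction p using Sym2.ind with
    | _ u v =>
    intro hp
    rw [Sym2.mk_isDiag_iff] at hp
    cases u with
    | none =>
      cases v with
      | none => exact absurd rfl hp
      | some z => exact key z
    | some u =>
      cases v with
      | none => rw [Sym2.eq_swap]; exact key u
      | some v =>
        have huv : u - v ≠ 0 := fun e => hp (by rw [sub_eq_zero.1 e])
        obtain ⟨i, hi⟩ := kcov (((m : ZMod (2 * m + 1)) + 1) * (u - v))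
          (fun e => huv (by linear_combination 2 * e - (u - v) * h2))
        refine ⟨(((m : ZMod (2 * m + 1)) + 1) * (u + v),
          ((m : ZMod (2 * m + 1)) + 1) * (u + v) - a i), (hR _ _ _).2 (Or.inr ⟨i, by ring, ?_⟩), ?_⟩
        · simp only [Sym2.eq_iff, Option.some.injEq]
          rcases hi with hi | hi
          · left; constructor
            · linear_combination -hi - u * h2
            · linear_combination hi - v * h2
          · right; constructor
            · linear_combination hi - u * h2
            · linear_combination -hi - v * h2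
        · rintro ⟨r, s⟩ h
          rcases (hR _ _ _).1 h with ⟨-, e2⟩ | ⟨j, hj, e2⟩
          · simp at e2
          · simp only [Sym2.eq_iff, Option.some.injEq] at e2 hj
            have hr : r = ((m : ZMod (2 * m + 1)) + 1) * (u + v) := by
              rcases e2 with ⟨e, f⟩ | ⟨e, f⟩
              · linear_combination -((m : ZMod (2 * m + 1)) + 1) * (e + f) - r * h2
              · linear_combination -((m : ZMod (2 * m + 1)) + 1) * (e + f) - r * h2
            have : i = j := by
              apply kinj
              rcases hi with hi | hi <;> rcases e2 with ⟨e, f⟩ | ⟨e, f⟩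
              · left; linear_combination hi + ((m : ZMod (2 * m + 1)) + 1) * (e - f) + k j * h2
              · right; linear_combination hi + ((m : ZMod (2 * m + 1)) + 1) * (e - f) - k j * h2
              · right; linear_combination hi - ((m : ZMod (2 * m + 1)) + 1) * (e - f) - k j * h2
              · left; linear_combination hi - ((m : ZMod (2 * m + 1)) + 1) * (e - f) + k j * h2
            rw [Prod.mk.injEq, ← hr, this, hj]
            exact ⟨rfl, by ring⟩
  · intro r s x y h
    rw [hR] at h ⊢
    rcases h with ⟨e, h⟩ | ⟨i, hi, h⟩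
    · left
      refine ⟨by rw [e], ?_⟩
      rw [Sym2.eq_iff] at h ⊢
      rcases h with ⟨rfl, rfl⟩ | ⟨rfl, rfl⟩ <;> simp
    · right
      refine ⟨i, by rw [hi]; ring, ?_⟩
      rw [Sym2.eq_iff] at h ⊢
      rcases h with ⟨rfl, rfl⟩ | ⟨rfl, rfl⟩
      · left; simp only [Option.map_some, Option.some.injEq]; constructor <;> ring
      · right; simp only [Option.map_some, Option.some.injEq]; constructor <;> ring
  · intro p
    rw [pair_iff]
    simp only [hR]
    constructor
    · rintro ⟨s, ⟨-, h⟩ | ⟨i, -, h⟩⟩
      · exact Or.inl h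
      · exact Or.inr ⟨k i, k0 i, by simpa using h⟩
    · rintro (h | ⟨z, hz, rfl⟩)
      · exact ⟨0, Or.inl ⟨rfl, h⟩⟩
      · obtain ⟨i, hi | hi⟩ := kcov z hz
        · exact ⟨-a i, Or.inr ⟨i, by ring, by simp [hi]⟩⟩
        · exact ⟨-a i, Or.inr ⟨i, by ring, by simp [hi]⟩⟩

theorem exists_patterned (m : ℕ) (h3 : m ≠ 1) (h5 : m ≠ 2) (h9 : m ≠ 4) :
    ∃ R : Arr (2 * m + 1), IsPatterned R := by
  obtain ⟨ι, hι, x, y, c1, c2, s1, s2, hc⟩ := Helper1.Horton.hasSS_zmod (N := 2 * m + 1)
    ⟨m, rfl⟩ (by omega) (by omega) (by omega)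
  have h2 : (2 : ZMod (2 * m + 1)) * ((m : ZMod (2 * m + 1)) + 1) = 1 := by
    have : ((2 * m + 1 : ℕ) : ZMod (2 * m + 1)) = 0 := ZMod.natCast_self _
    push_cast at this
    linear_combination this
  have hc' : Nat.card (ι ⊕ ι) + 1 = Nat.card (ZMod (2 * m + 1)) := by
    rw [Nat.card_sum, ← hc]; ring
  obtain ⟨p1, p2⟩ := inj_of_cover (Sum.elim x y) hc' (by
    intro g hg
    obtain ⟨i, hi | hi⟩ := c1 g hg
    · exact ⟨Sum.inl i, hi⟩
    · exact ⟨Sum.inr i, hi⟩)
  obtain ⟨q1, q2⟩ := inj_of_cover (Sum.elim (fun i => x i - y i) (fun i => y i - x i)) hc' (by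
    intro g hg
    obtain ⟨i, hi | hi⟩ := c2 g hg
    · exact ⟨Sum.inl i, hi⟩
    · exact ⟨Sum.inr i, hi⟩)
  set h := (m : ZMod (2 * m + 1)) + 1
  have ex : ∀ i, h * (x i + y i) + h * (x i - y i) = x i := fun i => by
    linear_combination x i * h2
  have ey : ∀ i, h * (x i + y i) - h * (x i - y i) = y i := fun i => by
    linear_combination y i * h2
  apply build m (fun i => h * (x i + y i)) (fun i => h * (x i - y i))
  · intro i j e
    apply s1
    simp only at e ⊢
    linear_combination 2 * e - (x i + y i - (x j + y j)) * h2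
  · intro i e
    apply s2 i
    linear_combination 2 * e - (x i + y i) * h2
  · intro i e
    apply q2 (Sum.inl i)
    simp only [Sum.elim_inl]
    linear_combination 2 * e - (x i - y i) * h2
  · rintro i j (e | e)
    · have := q1 (a₁ := Sum.inl i) (a₂ := Sum.inl j) (by
        simp only [Sum.elim_inl]
        linear_combination 2 * e - (x i - y i - (x j - y j)) * h2)
      exact Sum.inl.inj this
    · have := q1 (a₁ := Sum.inl i) (a₂ := Sum.inr j) (by
        simp only [Sum.elim_inl, Sum.elim_inr]
        linear_combination 2 * e - (x i - y i + (x j - y j)) * h2)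
      simp at this
  · intro z hz
    obtain ⟨i, hi | hi⟩ := c2 (2 * z) (fun e => hz (by linear_combination h * e - z * h2))
    · exact ⟨i, Or.inl (by linear_combination h * hi + z * h2)⟩
    · exact ⟨i, Or.inr (by linear_combination -h * hi - z * h2)⟩
  · intro i
    rw [ex, ey]
    exact ⟨p2 (Sum.inl i), p2 (Sum.inr i)⟩
  · intro i j e
    simp only [ex, ey] at e
    rcases e with e | e | e | e
    · exact Sum.inl.inj (p1 (a₁ := Sum.inl i) (a₂ := Sum.inl j) e)
    · exact absurd (p1 (a₁ := Sum.inl i) (a₂ := Sum.inr j) e) (by simp)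
    · exact absurd (p1 (a₁ := Sum.inr i) (a₂ := Sum.inl j) e) (by simp)
    · exact Sum.inr.inj (p1 (a₁ := Sum.inr i) (a₂ := Sum.inr j) e)
  · intro z hz
    simp only [ex, ey]
    exact c1 z hz

end Pool.Agent.H121Z.Room
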