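import Mathlib

set_option autoImplicit false

namespace Pool.Agent.H121Z.Sel

open Complex

/-- modulus of Gamma on vertical lines -/
noncomputable def gm (σ t : ℝ) : ℝ := ‖Gamma (σ + t * I)‖

lemma gm_nonneg (σ t : ℝ) : 0 ≤ gm σ t := norm_nonneg _

lemma ne_of_im {σ t : ℝ} (ht : t ≠ 0) : (σ + t * I : ℂ) ≠ 0 := by
  intro h
  have := congrArg Complex.im h
  simp at this
  exact ht this

lemma gm_pos (σ : ℝ) {t : ℝ} (ht : t ≠ 0) : 0 < gm σ t := by
  apply norm_pos_iff.mpr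
  apply Gamma_ne_zero
  intro m h
  have := congrArg Complex.im h
  simp at this
  exact ht this

lemma gm_step (σ : ℝ) {t : ℝ} (ht : t ≠ 0) : gm (σ + 1) t = ‖(σ + t * I : ℂ)‖ * gm σ t := by
  unfold gm
  rw [← norm_mul, ← Gamma_add_one _ (ne_of_im ht)]
  congr 2
  push_cast
  ring

lemma nrm_ge (σ t : ℝ) : |t| ≤ ‖(σ + t * I : ℂ)‖ := by
  have := abs_im_le_norm (σ + t * I : ℂ)
  simpa using this

lemma nrm_le (σ t : ℝ) : ‖(σ + t * I : ℂ)‖ ≤ |σ| + |t| := by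
  have := norm_le_abs_re_add_abs_im (σ + t * I : ℂ)
  simpa using this

lemma gm_mono_pos {σ f : ℝ} (hσ : 0 < σ) (hf : 0 < f) :
    ∃ C : ℝ, 0 < C ∧ ∀ t, gm σ t ≤ C * gm (σ + f) t := by
  set B : ℝ := ∫ x in (0 : ℝ)..1, ‖(x : ℂ) ^ ((σ : ℂ) - 1) * (1 - (x : ℂ)) ^ ((f : ℂ) - 1)‖ with hB
  have hG : 0 < ‖Gamma (f : ℂ)‖ := by
    apply norm_pos_iff.mpr
    exact Gamma_ne_zero_of_re_pos (by simpa using hf)
  refine ⟨(|B| + 1) / ‖Gamma (f : ℂ)‖, by positivity, fun t => ?_⟩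
  have h := Gamma_mul_Gamma_eq_betaIntegral (s := σ + t * I) (t := f) (by simpa using hσ)
    (by simpa using hf)
  have hb : ‖betaIntegral (σ + t * I) f‖ ≤ B := by
    unfold betaIntegral
    refine (intervalIntegral.norm_integral_le_integral_norm zero_le_one).trans (le_of_eq ?_)
    apply intervalIntegral.integral_congr_ae
    refine Filter.Eventually.of_forall fun x hx => ?_
    rw [Set.uIoc_of_le zero_le_one] at hx
    rw [norm_mul, norm_mul, norm_cpow_eq_rpow_re_of_pos hx.1, norm_cpow_eq_rpow_re_of_pos hx.1]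
    simp
  have h2 := congrArg norm h
  rw [norm_mul, norm_mul] at h2
  have e : (σ + t * I + f : ℂ) = ((σ + f : ℝ) : ℂ) + t * I := by push_cast; ring
  rw [e] at h2
  rw [div_mul_eq_mul_div, le_div_iff₀ hG]
  unfold gm
  rw [h2, mul_comm]
  apply mul_le_mul_of_nonneg_right _ (norm_nonneg _)
  linarith [le_abs_self B]

lemma gm_mono_aux {f : ℝ} (hf : 0 < f) (M : ℕ) : ∀ σ : ℝ, 0 < σ + M →
    ∃ C : ℝ, 0 < C ∧ ∀ t, 1 ≤ |t| → gm σ t ≤ C * gm (σ + f) t := by
  induction M with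
  | zero =>
    intro σ hσ
    obtain ⟨C, hC, h⟩ := gm_mono_pos (by simpa using hσ) hf
    exact ⟨C, hC, fun t _ => h t⟩
  | succ M ih =>
    intro σ hσ
    obtain ⟨C, hC, h⟩ := ih (σ + 1) (by push_cast at hσ; linarith)
    refine ⟨C * (1 + f), by positivity, fun t ht => ?_⟩
    have ht0 : t ≠ 0 := by intro h0; rw [h0] at ht; norm_num at ht
    have h1 := h t ht
    rw [show σ + 1 + f = σ + f + 1 by ring, gm_step σ ht0, gm_step (σ + f) ht0] at h1
    have hn : 1 ≤ ‖(σ + t * I : ℂ)‖ := ht.trans (nrm_ge σ t)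
    have hn2 : ‖(((σ + f : ℝ) : ℂ) + t * I : ℂ)‖ ≤ (1 + f) * ‖(σ + t * I : ℂ)‖ := by
      have e : (((σ + f : ℝ) : ℂ) + t * I : ℂ) = (σ + t * I) + (f : ℂ) := by push_cast; ring
      rw [e]
      refine (norm_add_le _ _).trans ?_
      rw [norm_real, Real.norm_eq_abs, abs_of_pos hf]
      nlinarith
    have hg := gm_nonneg (σ + f) t
    have : ‖(σ + t * I : ℂ)‖ * gm σ t ≤ ‖(σ + t * I : ℂ)‖ * (C * (1 + f) * gm (σ + f) t) := by
      refine h1.trans ?_
      calc C * (‖(((σ + f : ℝ) : ℂ) + t * I : ℂ)‖ * gm (σ + f) t)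
          ≤ C * (((1 + f) * ‖(σ + t * I : ℂ)‖) * gm (σ + f) t) := by gcongr
        _ = _ := by ring
    exact le_of_mul_le_mul_left this (by linarith)

lemma gm_mono (σ : ℝ) {f : ℝ} (hf : 0 ≤ f) :
    ∃ C : ℝ, 0 < C ∧ ∀ t, 1 ≤ |t| → gm σ t ≤ C * gm (σ + f) t := by
  rcases hf.eq_or_lt with h | h
  · exact ⟨1, one_pos, fun t _ => by rw [← h]; simp⟩
  · obtain ⟨M, hM⟩ := exists_nat_gt (-σ)
    exact gm_mono_aux h M σ (by linarith)

lemma gm_nat (σ : ℝ) (n : ℕ) : ∃ C : ℝ, 0 < C ∧ ∀ t, 1 ≤ |t| →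
    |t| ^ n * gm σ t ≤ gm (σ + n) t ∧ gm (σ + n) t ≤ C * (|t| ^ n * gm σ t) := by
  induction n with
  | zero => exact ⟨1, one_pos, fun t _ => by simp⟩
  | succ n ih =>
    obtain ⟨C, hC, h⟩ := ih
    refine ⟨C * (1 + |σ + n|), by positivity, fun t ht => ?_⟩
    have ht0 : t ≠ 0 := by intro h0; rw [h0] at ht; norm_num at ht
    obtain ⟨h1, h2⟩ := h t ht
    rw [show σ + ((n + 1 : ℕ) : ℝ) = σ + n + 1 by push_cast; ring, gm_step _ ht0]
    have a1 := nrm_ge (σ + n) t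
    have a2 := nrm_le (σ + n) t
    have a3 : ‖(((σ + n : ℝ) : ℂ) + t * I : ℂ)‖ ≤ (1 + |σ + n|) * |t| := by
      nlinarith [abs_nonneg (σ + n)]
    have g0 := gm_nonneg σ t
    have g1 := gm_nonneg (σ + n) t
    constructor
    · calc |t| ^ (n + 1) * gm σ t = |t| * (|t| ^ n * gm σ t) := by ring
        _ ≤ _ := by gcongr
    · calc _ ≤ ((1 + |σ + n|) * |t|) * (C * (|t| ^ n * gm σ t)) := by gcongr
        _ = _ := by ring

/-- two-sided polynomial size along the real line -/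
def TS (f : ℝ → ℝ) (e κ : ℝ) : Prop :=
  ∃ C T : ℝ, 0 < C ∧ 1 ≤ T ∧ ∀ t, T ≤ |t| → |t| ^ (e - κ) ≤ C * f t ∧ f t ≤ C * |t| ^ (e + κ)

lemma gm_ratio (σ : ℝ) {h : ℝ} (hh : 0 ≤ h) :
    TS (fun t => gm (σ + h) t * (gm σ t)⁻¹) h 1 := by
  set n := ⌊h⌋₊ with hn
  have h1 : (n : ℝ) ≤ h := Nat.floor_le hh
  have h2 : h < n + 1 := Nat.lt_floor_add_one h
  obtain ⟨C1, hC1, a1⟩ := gm_nat σ n
  obtain ⟨C2, hC2, a2⟩ := gm_nat σ (n + 1)
  obtain ⟨C3, hC3, a3⟩ := gm_mono (σ + n) (f := h - n) (by linarith)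
  obtain ⟨C4, hC4, a4⟩ := gm_mono (σ + h) (f := n + 1 - h) (by linarith)
  refine ⟨C3 + C4 * C2, 1, by positivity, le_rfl, fun t ht => ?_⟩
  have ht0 : t ≠ 0 := by intro h0; rw [h0] at ht; norm_num at ht
  have g0 := gm_pos σ ht0
  have g1 := gm_pos (σ + h) ht0
  have b1 := (a1 t ht).1
  have b2 := (a2 t ht).2
  have b3 := a3 t ht
  have b4 := a4 t ht
  rw [show σ + n + (h - n) = σ + h by ring] at b3
  rw [show σ + h + (n + 1 - h) = σ + ((n + 1 : ℕ) : ℝ) by push_cast; ring] at b4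
  have p1 : |t| ^ (h - 1) ≤ |t| ^ n := by
    rw [← Real.rpow_natCast]
    exact Real.rpow_le_rpow_of_exponent_le ht (by linarith)
  have p2 : |t| ^ (n + 1) ≤ |t| ^ (h + 1) := by
    rw [← Real.rpow_natCast]
    exact Real.rpow_le_rpow_of_exponent_le ht (by push_cast; linarith)
  have p3 : 0 ≤ |t| ^ (h + 1) := by positivity
  constructor
  · rw [← mul_assoc, ← div_eq_mul_inv, le_div_iff₀ g0]
    calc |t| ^ (h - 1) * gm σ t ≤ |t| ^ n * gm σ t := by gcongr
      _ ≤ C3 * gm (σ + h) t := b1.trans b3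
      _ ≤ _ := by gcongr; nlinarith
  · beta_reduce
    rw [← div_eq_mul_inv, div_le_iff₀ g0]
    calc gm (σ + h) t ≤ C4 * (C2 * (|t| ^ (n + 1) * gm σ t)) := b4.trans (by gcongr)
      _ ≤ C4 * (C2 * (|t| ^ (h + 1) * gm σ t)) := by gcongr
      _ = (C4 * C2) * |t| ^ (h + 1) * gm σ t := by ring
      _ ≤ _ := by gcongr; linarith

lemma rpow_cmp {c1 c2 : ℝ} (h1 : 0 < c1) (e : ℝ) : ∃ K : ℝ, 0 < K ∧ ∀ x y : ℝ, 0 < x →
    c1 * x ≤ y → y ≤ c2 * x → y ^ e ≤ K * x ^ e := by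
  rcases le_total 0 e with he | he
  · refine ⟨(|c2| + 1) ^ e, by positivity, fun x y hx a b => ?_⟩
    rw [← Real.mul_rpow (by positivity) hx.le]
    apply Real.rpow_le_rpow (by nlinarith) _ he
    nlinarith [le_abs_self c2]
  · refine ⟨c1 ^ e, by positivity, fun x y hx a b => ?_⟩
    rw [← Real.mul_rpow h1.le hx.le]
    exact Real.rpow_le_rpow_of_nonpos (by positivity) a he

lemma TS.comp_affine {f : ℝ → ℝ} {e κ : ℝ} (h : TS f e κ) {l : ℝ} (hl : 0 < l) (b : ℝ) :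
    TS (fun t => f (l * t + b)) e κ := by
  obtain ⟨C, T, hC, hT, h⟩ := h
  obtain ⟨K1, hK1, k1⟩ := rpow_cmp (c1 := 1 / (2 * l)) (c2 := 2 / l) (by positivity) (e - κ)
  obtain ⟨K2, hK2, k2⟩ := rpow_cmp (c1 := l / 2) (c2 := 2 * l) (by positivity) (e + κ)
  refine ⟨C * (K1 + K2), max 1 (2 * (T + |b|) / l), by positivity, le_max_left _ _,
    fun t ht => ?_⟩
  have t1 : 1 ≤ |t| := (le_max_left _ _).trans ht
  have t2 : 2 * (T + |b|) ≤ |t| * l := (div_le_iff₀ hl).mp ((le_max_right _ _).trans ht)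
  have u1 : |l * t + b| ≤ l * |t| + |b| := by
    have := abs_add_le (l * t) b
    rwa [abs_mul, abs_of_pos hl] at this
  have u2 : l * |t| - |b| ≤ |l * t + b| := by
    have := abs_sub (l * t + b) b
    rw [add_sub_cancel_right, abs_mul, abs_of_pos hl] at this
    linarith
  have b0 := abs_nonneg b
  have v1 : l / 2 * |t| ≤ |l * t + b| := by nlinarith
  have v2 : |l * t + b| ≤ 2 * l * |t| := by nlinarith
  have v3 : T ≤ |l * t + b| := by nlinarith
  obtain ⟨w1, w2⟩ := h _ v3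
  have x1 := k1 |l * t + b| |t| (by linarith)
    (by rw [div_mul_eq_mul_div, div_le_iff₀ (by positivity)]; linarith)
    (by rw [div_mul_eq_mul_div, le_div_iff₀ hl]; linarith)
  have x2 := k2 |t| |l * t + b| (by linarith) v1 v2
  have f0 : 0 ≤ C * f (l * t + b) := le_trans (by positivity) w1
  have p0 : 0 ≤ |t| ^ (e + κ) := by positivity
  constructor
  · calc _ ≤ K1 * (C * f (l * t + b)) := x1.trans (by gcongr)
      _ ≤ (K1 + K2) * (C * f (l * t + b)) := by gcongr; linarith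
      _ = _ := by ring
  · calc _ ≤ C * (K2 * |t| ^ (e + κ)) := w2.trans (by gcongr)
      _ ≤ C * ((K1 + K2) * |t| ^ (e + κ)) := by gcongr; linarith
      _ = _ := by ring

lemma TS.mul {f g : ℝ → ℝ} {e κ e' κ' : ℝ} (h : TS f e κ) (h' : TS g e' κ') :
    TS (fun t => f t * g t) (e + e') (κ + κ') := by
  obtain ⟨C, T, hC, hT, h⟩ := h
  obtain ⟨C', T', hC', hT', h'⟩ := h'
  refine ⟨C * C', max T T', by positivity, hT.trans (le_max_left _ _), fun t ht => ?_⟩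
  obtain ⟨a1, a2⟩ := h t ((le_max_left _ _).trans ht)
  obtain ⟨b1, b2⟩ := h' t ((le_max_right _ _).trans ht)
  have t0 : 0 < |t| := by linarith [(le_max_left _ _).trans ht]
  have f0 : 0 ≤ C * f t := le_trans (by positivity) a1
  have g0 : 0 ≤ g t := by
    have : 0 ≤ C' * g t := le_trans (by positivity) b1
    exact (mul_nonneg_iff_of_pos_left hC').mp this
  constructor
  · rw [show e + e' - (κ + κ') = (e - κ) + (e' - κ') by ring, Real.rpow_add t0]
    calc _ ≤ (C * f t) * (C' * g t) := by gcongr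
      _ = _ := by ring
  · rw [show e + e' + (κ + κ') = (e + κ) + (e' + κ') by ring, Real.rpow_add t0]
    calc f t * g t ≤ (C * |t| ^ (e + κ)) * (C' * |t| ^ (e' + κ')) := by gcongr
      _ = _ := by ring

lemma TS.of_bdd {f : ℝ → ℝ} {c C : ℝ} (hc : 0 < c) (h : ∀ t, c ≤ f t ∧ f t ≤ C) : TS f 0 0 := by
  have hC : 0 < C := hc.trans_le ((h 0).1.trans (h 0).2)
  refine ⟨C + 1 / c, 1, by positivity, le_rfl, fun t _ => ?_⟩
  obtain ⟨a, b⟩ := h t
  simp only [sub_zero, add_zero, Real.rpow_zero, mul_one]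
  constructor
  · have : 1 ≤ 1 / c * f t := by rw [div_mul_eq_mul_div, le_div_iff₀ hc]; linarith
    nlinarith
  · have : 0 < 1 / c := by positivity
    linarith

lemma TS.prod {ι : Type} (s : Finset ι) (f : ι → ℝ → ℝ) (e : ι → ℝ)
    (h : ∀ i, TS (f i) (e i) 1) : TS (fun t => ∏ i ∈ s, f i t) (∑ i ∈ s, e i) s.card := by
  classical
  induction s using Finset.induction_on with
  | empty => simpa using TS.of_bdd (f := fun _ => 1) (C := 1) one_pos (fun _ => ⟨le_rfl, le_rfl⟩)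
  | insert a s ha ih =>
    have := (h a).mul ih
    simp only [Finset.prod_insert ha, Finset.sum_insert ha, Finset.card_insert_of_notMem ha]
    convert this using 1
    push_cast
    ring

/-- comparison of exponents -/
lemma exp_le_of_rpow {a b C T : ℝ} (h : ∀ t, T ≤ t → t ^ a ≤ C * t ^ b) : a ≤ b := by
  by_contra hlt
  have hab : 0 < a - b := by linarith
  have ht := (tendsto_rpow_atTop hab).eventually_gt_atTop C
  obtain ⟨t, h1, h2, h3⟩ := (ht.and ((Filter.eventually_ge_atTop T).and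
    (Filter.eventually_gt_atTop 0))).exists
  have := h t h2
  rw [Real.rpow_sub h3, lt_div_iff₀ (by positivity)] at h1
  linarith

lemma TS.le_of_eq {f : ℝ → ℝ} {e κ e' κ' : ℝ} (h : TS f e κ) (h' : TS f e' κ') :
    e - κ ≤ e' + κ' := by
  obtain ⟨C, T, hC, hT, h⟩ := h
  obtain ⟨C', T', hC', hT', h'⟩ := h'
  apply exp_le_of_rpow (C := C * C') (T := max T T')
  intro t ht
  have t0 : 0 < t := by linarith [(le_max_left _ _).trans ht]
  have a := (h t (by rw [abs_of_pos t0]; exact (le_max_left _ _).trans ht)).1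
  have b := (h' t (by rw [abs_of_pos t0]; exact (le_max_right _ _).trans ht)).2
  rw [abs_of_pos t0] at a b
  calc _ ≤ C * (C' * t ^ (e' + κ')) := a.trans (by gcongr)
    _ = _ := by ring

lemma TS.le_of_bdd {f : ℝ → ℝ} {e κ B : ℝ} (h : TS f e κ) (hB : ∀ t, f t ≤ B) : e - κ ≤ 0 := by
  obtain ⟨C, T, hC, hT, h⟩ := h
  apply exp_le_of_rpow (C := C * B) (T := T)
  intro t ht
  have t0 : 0 < t := by linarith
  have a := (h t (by rw [abs_of_pos t0]; exact ht)).1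
  rw [abs_of_pos t0] at a
  rw [Real.rpow_zero, mul_one]
  exact a.trans (by gcongr; exact hB t)

end Pool.Agent.H121Z.Sel
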