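import Mathlib

set_option autoImplicit false

namespace Pool.Agent.H121Z.Sel

open MeasureTheory Filter Topology Set

lemma integrable_decay : Integrable (fun y : ℝ => (1 + |y|) ^ (-(3 / 2 : ℝ))) := by
  have := integrable_one_add_norm (E := ℝ) (μ := volume) (r := 3 / 2) (by simp; norm_num)
  simpa using this

lemma vertical_integrable {H : ℂ → ℂ} {a B : ℝ}
    (hd : ∀ s : ℂ, s.re = a → ContinuousAt H s)
    (hB : ∀ s : ℂ, s.re = a → ‖H s‖ ≤ B * (1 + |s.im|) ^ (-(3 / 2 : ℝ))) :
    Integrable (fun y : ℝ => H (a + y * Complex.I)) := by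
  have hc : Continuous (fun y : ℝ => H (a + y * Complex.I)) := by
    rw [continuous_iff_continuousAt]
    intro y
    have h1 : ContinuousAt H ((a : ℂ) + y * Complex.I) := hd _ (by simp)
    exact ContinuousAt.comp (f := fun y : ℝ => (a : ℂ) + y * Complex.I) h1 (by fun_prop)
  refine (integrable_decay.const_mul B).mono' hc.aestronglyMeasurable
    (Eventually.of_forall fun y => ?_)
  have := hB (a + y * Complex.I) (by simp)
  simpa using this

lemma contour_shift {H : ℂ → ℂ} {a b B : ℝ} (hab : a ≤ b)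
    (hd : ∀ s : ℂ, a ≤ s.re → s.re ≤ b → DifferentiableAt ℂ H s)
    (hB : ∀ s : ℂ, a ≤ s.re → s.re ≤ b → ‖H s‖ ≤ B * (1 + |s.im|) ^ (-(3 / 2 : ℝ))) :
    ∫ y : ℝ, H (a + y * Complex.I) = ∫ y : ℝ, H (b + y * Complex.I) := by
  have ia : Integrable (fun y : ℝ => H (a + y * Complex.I)) :=
    vertical_integrable (fun s hs => (hd s hs.ge (hs.le.trans hab)).continuousAt)
      (fun s hs => hB s hs.ge (hs.le.trans hab))
  have ib : Integrable (fun y : ℝ => H (b + y * Complex.I)) :=
    vertical_integrable (fun s hs => (hd s (hab.trans hs.ge) hs.le).continuousAt)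
      (fun s hs => hB s (hab.trans hs.ge) hs.le)
  have hrect : ∀ T : ℝ, 0 < T →
      (∫ x in a..b, H (x + (-T : ℝ) * Complex.I)) - (∫ x in a..b, H (x + (T : ℝ) * Complex.I)) +
        Complex.I • (∫ y in (-T)..T, H (b + y * Complex.I)) -
        Complex.I • (∫ y in (-T)..T, H (a + y * Complex.I)) = 0 := by
    intro T hT
    have := Complex.integral_boundary_rect_eq_zero_of_differentiableOn H ⟨a, -T⟩ ⟨b, T⟩ ?_
    · simpa using this
    · intro s hs
      rw [Complex.mem_reProdIm] at hs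
      simp only at hs
      rw [uIcc_of_le hab] at hs
      exact (hd s hs.1.1 hs.1.2).differentiableWithinAt
  have hhor : ∀ T : ℝ, ‖∫ x in a..b, H (x + (T : ℝ) * Complex.I)‖ ≤
      B * (1 + |T|) ^ (-(3 / 2 : ℝ)) * |b - a| := by
    intro T
    refine intervalIntegral.norm_integral_le_of_norm_le_const fun x hx => ?_
    rw [uIoc_of_le hab] at hx
    have := hB (x + (T : ℝ) * Complex.I) (by simpa using hx.1.le) (by simpa using hx.2)
    simpa using this
  have hlim0 : Tendsto (fun T : ℝ => B * (1 + |T|) ^ (-(3 / 2 : ℝ)) * |b - a|) atTop (𝓝 0) := by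
    have h1 : Tendsto (fun T : ℝ => (1 + |T|)) atTop atTop :=
      tendsto_atTop_add_const_left _ _ tendsto_abs_atTop_atTop
    have h2 := (tendsto_rpow_neg_atTop (y := 3 / 2) (by norm_num)).comp h1
    have h3 := (h2.const_mul B).mul_const |b - a|
    simpa using h3
  have hl1 : Tendsto (fun T : ℝ => ∫ x in a..b, H (x + (T : ℝ) * Complex.I)) atTop (𝓝 0) :=
    squeeze_zero_norm hhor hlim0
  have hl2 : Tendsto (fun T : ℝ => ∫ x in a..b, H (x + (-T : ℝ) * Complex.I)) atTop (𝓝 0) := by
    refine squeeze_zero_norm (a := fun T : ℝ => B * (1 + |T|) ^ (-(3 / 2 : ℝ)) * |b - a|) ?_ hlim0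
    intro T
    have := hhor (-T)
    rw [abs_neg] at this
    exact this
  have hl3 := intervalIntegral_tendsto_integral ib tendsto_neg_atTop_atBot tendsto_id
  have hl4 := intervalIntegral_tendsto_integral ia tendsto_neg_atTop_atBot tendsto_id
  have hfin := ((hl2.sub hl1).add (hl3.const_smul Complex.I)).sub (hl4.const_smul Complex.I)
  have hzero : Tendsto (fun _ : ℝ => (0:ℂ)) atTop (𝓝 0) := tendsto_const_nhds
  have huniq := tendsto_nhds_unique (hfin.congr' ?_) hzero
  · rw [sub_zero, zero_add, ← smul_sub, smul_eq_mul] at huniq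
    have := (mul_eq_zero.mp huniq).resolve_left Complex.I_ne_zero
    exact (sub_eq_zero.mp this).symm
  · filter_upwards [eventually_gt_atTop 0] with T hT
    simpa using hrect T hT

lemma pow_le_exp (u : ℝ) (M : ℕ) : (1 + |u|) ^ M ≤ Real.exp (M * |u|) := by
  rw [Real.exp_nat_mul]
  apply pow_le_pow_left₀ (by positivity)
  linarith [Real.add_one_le_exp |u|]

lemma exp_le_decay (u : ℝ) : Real.exp (-(2 * |u|)) ≤ (1 + |u|) ^ (-(3 / 2 : ℝ)) := by
  rw [Real.rpow_def_of_pos (by positivity)]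
  apply Real.exp_le_exp.mpr
  have h1 : Real.log (1 + |u|) ≤ |u| := by
    have := Real.log_le_sub_one_of_pos (x := 1 + |u|) (by positivity)
    linarith
  nlinarith [abs_nonneg u]

lemma log_gap {n k : ℕ} (hn : n ≠ 0) (hk : k ≠ 0) (h : k ≠ n) :
    1 / (4 * (n : ℝ) ^ 2) ≤ (Real.log n - Real.log k) ^ 2 := by
  have n1 : (1 : ℝ) ≤ n := by exact_mod_cast Nat.pos_of_ne_zero hn
  have k1 : (1 : ℝ) ≤ k := by exact_mod_cast Nat.pos_of_ne_zero hk
  have key : 1 / (2 * (n : ℝ)) ≤ |Real.log n - Real.log k| := by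
    rcases lt_or_gt_of_ne h with h | h
    · have hk' : (k : ℝ) + 1 ≤ n := by exact_mod_cast h
      have := Real.one_sub_inv_le_log_of_pos (x := (n : ℝ) / k) (by positivity)
      rw [Real.log_div (by positivity) (by positivity), inv_div] at this
      refine le_trans ?_ (this.trans (le_abs_self _))
      rw [le_sub_iff_add_le, div_add_div _ _ (by positivity) (by positivity),
        div_le_one (by positivity)]
      nlinarith
    · have hk' : (n : ℝ) + 1 ≤ k := by exact_mod_cast h
      have := Real.one_sub_inv_le_log_of_pos (x := (k : ℝ) / n) (by positivity)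
      rw [Real.log_div (by positivity) (by positivity), inv_div] at this
      rw [abs_sub_comm]
      refine le_trans ?_ (this.trans (le_abs_self _))
      rw [le_sub_iff_add_le, div_add_div _ _ (by positivity) (by positivity),
        div_le_one (by positivity)]
      nlinarith
  rw [← sq_abs (Real.log n - Real.log k)]
  calc 1 / (4 * (n : ℝ) ^ 2) = (1 / (2 * (n : ℝ))) ^ 2 := by field_simp; norm_num
    _ ≤ _ := by gcongr

lemma term_line (c : ℕ → ℂ) (t : ℝ) (k : ℕ) :
    LSeries.term c (((2 : ℝ) : ℂ) + t * Complex.I) k =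
      LSeries.term c 2 k * Complex.exp (-(Complex.I * (Real.log k : ℝ) * t)) := by
  rcases eq_or_ne k 0 with rfl | hk
  · simp
  · have hk' : (k : ℂ) ≠ 0 := by exact_mod_cast hk
    rw [LSeries.term_of_ne_zero hk, LSeries.term_of_ne_zero hk, Complex.cpow_add _ _ hk',
      Complex.cpow_def_of_ne_zero hk' (t * Complex.I), Complex.exp_neg, Complex.natCast_log]
    push_cast
    rw [show Complex.log k * (t * Complex.I) = Complex.I * Complex.log k * t by ring]
    field_simp

lemma right_line (c : ℕ → ℂ) (hc : LSeriesSummable c 2) {b : ℝ} (hb : 0 < b) (x : ℝ) :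
    ∫ t : ℝ, LSeries c (((2 : ℝ) : ℂ) + t * Complex.I) *
        (Complex.exp (Complex.I * x * t) * Complex.exp (-b * t ^ 2)) =
      ((Real.pi : ℂ) / b) ^ (1 / 2 : ℂ) *
        ∑' k, LSeries.term c 2 k * Complex.exp (-((x - Real.log k : ℝ) : ℂ) ^ 2 / (4 * b)) := by
  set F : ℕ → ℝ → ℂ := fun k t => LSeries.term c 2 k *
    (Complex.exp (Complex.I * ((x - Real.log k : ℝ) : ℂ) * t) * Complex.exp (-b * t ^ 2)) with hF
  have hb' : 0 < (b : ℂ).re := by simpa using hb
  have hint : ∀ k, Integrable (F k) := by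
    intro k
    apply Integrable.const_mul
    have := integrable_cexp_quadratic hb' (Complex.I * ((x - Real.log k : ℝ) : ℂ)) 0
    refine this.congr (Eventually.of_forall fun t => ?_)
    simp only
    rw [← Complex.exp_add]
    congr 1
    ring
  have hnorm : ∀ k t, ‖F k t‖ = ‖LSeries.term c 2 k‖ * Real.exp (-b * t ^ 2) := by
    intro k t
    rw [hF]
    simp only [norm_mul, Complex.norm_exp]
    have e1 : (Complex.I * ((x - Real.log k : ℝ) : ℂ) * t).re = 0 := by
      generalize x - Real.log k = y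
      simp
    have e2 : (-(b : ℂ) * (t : ℂ) ^ 2).re = -b * t ^ 2 := by
      rw [show (-(b : ℂ) * (t : ℂ) ^ 2) = ((-b * t ^ 2 : ℝ) : ℂ) by push_cast; ring,
        Complex.ofReal_re]
    rw [e1, e2]
    simp
  have hsum : Summable fun k => ∫ t, ‖F k t‖ := by
    simp only [hnorm, integral_const_mul]
    exact (summable_norm_iff.mpr hc).mul_right _
  have h1 := integral_tsum_of_summable_integral_norm hint hsum
  have h2 : ∀ t : ℝ, LSeries c (((2 : ℝ) : ℂ) + t * Complex.I) *
      (Complex.exp (Complex.I * x * t) * Complex.exp (-b * t ^ 2)) = ∑' k, F k t := by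
    intro t
    rw [LSeries, ← tsum_mul_right]
    congr 1
    funext k
    rw [term_line, hF]
    simp only
    rw [mul_assoc, ← mul_assoc (Complex.exp _), ← Complex.exp_add]
    congr 3
    push_cast
    ring
  simp only [h2]
  rw [← h1, ← tsum_mul_left]
  congr 1
  funext k
  rw [hF]
  simp only
  rw [integral_const_mul, fourierIntegral_gaussian hb']
  ring

lemma diag_le (c : ℕ → ℂ) (hc : LSeriesSummable c 2) {b : ℝ} (hb : 0 < b) {n : ℕ} (hn : n ≠ 0) :
    ‖c n‖ / (n : ℝ) ^ 2 ≤ (∑' k, ‖LSeries.term c 2 k‖) * Real.exp (-(1 / (16 * (n : ℝ) ^ 2 * b))) +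
      ‖∑' k, LSeries.term c 2 k *
        Complex.exp (-((Real.log n - Real.log k : ℝ) : ℂ) ^ 2 / (4 * b))‖ := by
  set f : ℕ → ℂ := fun k => LSeries.term c 2 k *
    Complex.exp (-((Real.log n - Real.log k : ℝ) : ℂ) ^ 2 / (4 * b)) with hf
  have hs := summable_norm_iff.mpr hc
  have hnorm : ∀ k, ‖f k‖ = ‖LSeries.term c 2 k‖ *
      Real.exp (-(Real.log n - Real.log k) ^ 2 / (4 * b)) := by
    intro k
    rw [hf]
    simp only [norm_mul, Complex.norm_exp]
    rw [show (-((Real.log n - Real.log k : ℝ) : ℂ) ^ 2 / (4 * b)) =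
      ((-(Real.log n - Real.log k) ^ 2 / (4 * b) : ℝ) : ℂ) by push_cast; ring, Complex.ofReal_re]
  have hfs : Summable f := by
    apply Summable.of_norm_bounded hs
    intro k
    rw [hnorm]
    apply mul_le_of_le_one_right (norm_nonneg _)
    apply Real.exp_le_one_iff.mpr
    apply div_nonpos_of_nonpos_of_nonneg _ (by positivity)
    linarith [sq_nonneg (Real.log n - Real.log k)]
  have h1 := hfs.tsum_eq_add_tsum_ite n
  have h2 : ‖f n‖ = ‖c n‖ / (n : ℝ) ^ 2 := by
    rw [hnorm, LSeries.norm_term_eq]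
    simp [hn]
  have h3 : ‖∑' k, if k = n then 0 else f k‖ ≤
      (∑' k, ‖LSeries.term c 2 k‖) * Real.exp (-(1 / (16 * (n : ℝ) ^ 2 * b))) := by
    rw [← tsum_mul_right]
    apply tsum_of_norm_bounded (hs.mul_right _).hasSum
    intro k
    split_ifs with hk
    · rw [norm_zero]; positivity
    · rcases eq_or_ne k 0 with rfl | hk0
      · simp [hf]
      · rw [hnorm]
        apply mul_le_mul_of_nonneg_left _ (norm_nonneg _)
        apply Real.exp_le_exp.mpr
        have := log_gap hn hk0 hk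
        have n0 : (0 : ℝ) < n := by exact_mod_cast Nat.pos_of_ne_zero hn
        rw [neg_div, neg_le_neg_iff, le_div_iff₀ (by positivity)]
        refine le_trans (le_of_eq ?_) this
        field_simp
        norm_num
  rw [← h2]
  have : f n = ∑' k, f k - ∑' k, if k = n then 0 else f k := by rw [h1]; ring
  rw [this]
  refine (norm_sub_le _ _).trans ?_
  linarith

/-- The coefficient inequality. -/
theorem coef_bound (H : ℂ → ℂ) (hH : Differentiable ℂ H) (c : ℕ → ℂ) (hc : LSeriesSummable c 2)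
    (hL : ∀ s : ℂ, s.re = 2 → H s = LSeries c s) (a : ℝ) (ha : a ≤ 2)
    (hpoly : ∃ (K : ℝ) (M : ℕ), ∀ s : ℂ, a ≤ s.re → s.re ≤ 2 → ‖H s‖ ≤ K * (1 + |s.im|) ^ M)
    (K : ℝ) (E : ℕ) (hK : ∀ t : ℝ, ‖H (a + t * Complex.I)‖ ≤ K * (1 + |t|) ^ E)
    (T : ℝ) (hT : 1 ≤ T) (n : ℕ) (hn : n ≠ 0) :
    ‖c n‖ / (n : ℝ) ^ 2 ≤ (∑' k, ‖LSeries.term c 2 k‖) * Real.exp (-(T ^ 2 / (16 * (n : ℝ) ^ 2))) +
      (n : ℝ) ^ (a - 2) * Real.exp ((a - 2) ^ 2 / T ^ 2) *
        (K * Real.exp ((E : ℝ) ^ 2 / 2) * 2 * T ^ E) := by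
  obtain ⟨K0, M, hK0⟩ := hpoly
  set b : ℝ := 1 / T ^ 2 with hbdef
  have hb : 0 < b := by positivity
  have n1 : (1 : ℝ) ≤ n := by exact_mod_cast Nat.pos_of_ne_zero hn
  set x : ℝ := Real.log n with hx
  have hx0 : 0 ≤ x := Real.log_nonneg n1
  set Φ : ℂ → ℂ := fun s => H s * Complex.exp ((s - 2) * x + b * (s - 2) ^ 2) with hΦ
  have hnorm : ∀ s : ℂ, ‖Φ s‖ =
      ‖H s‖ * Real.exp ((s.re - 2) * x + b * ((s.re - 2) ^ 2 - s.im ^ 2)) := by
    intro s
    rw [hΦ]
    simp only [norm_mul, Complex.norm_exp]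
    congr 2
    simp [sq]
  have K00 : 0 ≤ K0 := by
    have := (norm_nonneg _).trans (hK0 2 (by simpa using ha) (by simp))
    simpa using this
  have Kn : 0 ≤ K := by
    have := (norm_nonneg _).trans (hK 0)
    simpa using this
  have hshift := contour_shift (H := Φ) (a := a) (b := 2)
    (B := K0 * Real.exp (b * (a - 2) ^ 2 + ((M : ℝ) + 2) ^ 2 / (4 * b))) ha
    (fun s _ _ => (hH s).mul (by fun_prop)) (by
      intro s h1 h2
      rw [hnorm]
      have e1 := pow_le_exp s.im M
      have e2 := exp_le_decay s.im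
      calc _ ≤ (K0 * Real.exp (M * |s.im|)) *
            Real.exp ((s.re - 2) * x + b * ((s.re - 2) ^ 2 - s.im ^ 2)) := by
            gcongr
            exact (hK0 s h1 h2).trans (by gcongr)
        _ ≤ K0 * Real.exp (b * (a - 2) ^ 2 + ((M : ℝ) + 2) ^ 2 / (4 * b)) *
            Real.exp (-(2 * |s.im|)) := by
            rw [mul_assoc, mul_assoc, ← Real.exp_add, ← Real.exp_add]
            apply mul_le_mul_of_nonneg_left (Real.exp_le_exp.mpr _) K00
            have q1 : (s.re - 2) * x ≤ 0 := mul_nonpos_of_nonpos_of_nonneg (by linarith) hx0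
            have q2 : (s.re - 2) ^ 2 ≤ (a - 2) ^ 2 := by nlinarith
            have q3 : ((M : ℝ) + 2) * |s.im| - b * |s.im| ^ 2 ≤ ((M : ℝ) + 2) ^ 2 / (4 * b) := by
              rw [le_div_iff₀ (by positivity)]
              nlinarith [sq_nonneg (2 * b * |s.im| - (M + 2))]
            rw [sq_abs] at q3
            nlinarith
        _ ≤ _ := by gcongr)
  have hright : ∫ y : ℝ, Φ (((2 : ℝ) : ℂ) + y * Complex.I) =
      ((Real.pi : ℂ) / b) ^ (1 / 2 : ℂ) *
        ∑' k, LSeries.term c 2 k * Complex.exp (-((x - Real.log k : ℝ) : ℂ) ^ 2 / (4 * b)) := by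
    rw [← right_line c hc hb x]
    congr 1
    funext t
    rw [hΦ]
    simp only
    rw [hL _ (by simp), ← Complex.exp_add]
    congr 2
    push_cast
    linear_combination (b * t ^ 2 : ℂ) * Complex.I_sq
  have hw : ‖((Real.pi : ℂ) / b) ^ (1 / 2 : ℂ)‖ = √(Real.pi / b) := by
    rw [show ((Real.pi : ℂ) / b) = ((Real.pi / b : ℝ) : ℂ) by push_cast; rfl,
      Complex.norm_cpow_eq_rpow_re_of_pos (by positivity), Real.sqrt_eq_rpow]
    simp
  have hw0 : 0 < √(Real.pi / b) := by positivity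
  set A : ℝ := (n : ℝ) ^ (a - 2) * Real.exp ((a - 2) ^ 2 / T ^ 2) *
    (K * Real.exp ((E : ℝ) ^ 2 / 2) * T ^ E) with hA
  have A0 : 0 ≤ A := by positivity
  have hleft : ‖∫ y : ℝ, Φ (a + y * Complex.I)‖ ≤ A * √(Real.pi / (b / 2)) := by
    rw [← integral_gaussian, ← integral_const_mul]
    apply norm_integral_le_of_norm_le ((integrable_exp_neg_mul_sq (by positivity)).const_mul _)
    refine Eventually.of_forall fun t => ?_
    rw [hnorm]
    have e1 : (1 + |t|) ^ E ≤ T ^ E * Real.exp (E * |t / T|) := by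
      refine le_trans ?_ (mul_le_mul_of_nonneg_left (pow_le_exp (t / T) E) (by positivity))
      rw [← mul_pow]
      apply pow_le_pow_left₀ (by positivity)
      rw [abs_div, abs_of_pos (by linarith : 0 < T), mul_add, mul_div_cancel₀ _ (by linarith)]
      linarith
    have e2 : (n : ℝ) ^ (a - 2) = Real.exp ((a - 2) * x) := by
      rw [Real.rpow_def_of_pos (by linarith), mul_comm]
    simp only [Complex.add_re, Complex.ofReal_re, Complex.mul_re, Complex.I_re, mul_zero,
      Complex.ofReal_im, Complex.I_im, mul_one, sub_self, add_zero, Complex.add_im,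
      Complex.mul_im, zero_add]
    calc _ ≤ (K * (T ^ E * Real.exp (E * |t / T|))) *
          Real.exp ((a - 2) * x + b * ((a - 2) ^ 2 - t ^ 2)) := by
          gcongr
          exact (hK t).trans (by gcongr)
      _ = K * T ^ E * Real.exp (E * |t / T| + ((a - 2) * x + b * ((a - 2) ^ 2 - t ^ 2))) := by
          rw [Real.exp_add (E * |t / T|)]; ring
      _ ≤ K * T ^ E * Real.exp ((a - 2) * x + (a - 2) ^ 2 / T ^ 2 + (E : ℝ) ^ 2 / 2 +
            -(b / 2) * t ^ 2) := by
          apply mul_le_mul_of_nonneg_left (Real.exp_le_exp.mpr _) (by positivity)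
          have q1 : b * t ^ 2 = |t / T| ^ 2 := by rw [sq_abs, hbdef]; field_simp
          have q2 : b * (a - 2) ^ 2 = (a - 2) ^ 2 / T ^ 2 := by rw [hbdef]; ring
          nlinarith [sq_nonneg (|t / T| - E)]
      _ = _ := by
          rw [hA, e2, Real.exp_add, Real.exp_add, Real.exp_add]; ring
  have hsq : √(Real.pi / (b / 2)) ≤ 2 * √(Real.pi / b) := by
    rw [Real.sqrt_le_left (by positivity), mul_pow, Real.sq_sqrt (by positivity),
      div_div_eq_mul_div, mul_div_right_comm]
    have : 0 < Real.pi / b := by positivity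
    linarith
  have hd := diag_le c hc hb hn
  rw [hshift, hright, norm_mul, hw] at hleft
  have h5 : ‖∑' k, LSeries.term c 2 k *
      Complex.exp (-((x - Real.log k : ℝ) : ℂ) ^ 2 / (4 * b))‖ ≤ 2 * A := by
    apply le_of_mul_le_mul_left _ hw0
    calc _ ≤ A * (2 * √(Real.pi / b)) := hleft.trans (by gcongr)
      _ = _ := by ring
  have e3 : 1 / (16 * (n : ℝ) ^ 2 * b) = T ^ 2 / (16 * (n : ℝ) ^ 2) := by
    rw [hbdef]; field_simp
  rw [e3] at hd
  calc _ ≤ _ := hd
    _ ≤ _ := by
      gcongr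
      refine h5.trans (le_of_eq ?_)
      rw [hA]; ring

end Pool.Agent.H121Z.Sel
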