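import Pool.Agent.H520Z.Sel.PL
import Pool.Agent.H121Z.SelA
import Pool.Agent.H121Z.SelB

set_option autoImplicit false

namespace Pool.Agent.H121Z.Sel

open Complex Filter Topology Set Pool.Agent.H520Z.Sel

/-- data of an element of the Selberg class -/
structure Dat (a : ℕ → ℂ) where
  m : ℕ
  G : ℂ → ℂ
  Q : ℝ
  k : ℕ
  lam : Fin k → ℝ
  mu : Fin k → ℂ
  om : ℂ
  b : ℕ → ℂ
  th : ℝ
  asum : ∀ s : ℂ, 1 < s.re → LSeriesSummable a s
  Gd : Differentiable ℂ G
  Gord : ∃ ρ C : ℝ, ∀ z : ℂ, ‖G z‖ ≤ C * Real.exp (‖z‖ ^ ρ)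
  Geq : ∀ s : ℂ, 1 < s.re → G s = (s - 1) ^ m * LSeries a s
  Qpos : 0 < Q
  lpos : ∀ j, 0 < lam j
  mre : ∀ j, 0 ≤ (mu j).re
  om1 : ‖om‖ = 1
  fe : ∀ s : ℂ, 0 < s.re → s.re < 1 →
    (Q : ℂ) ^ s * (∏ j, Gamma ((lam j : ℂ) * s + mu j)) * (G s / (s - 1) ^ m) =
      om * starRingEnd ℂ ((Q : ℂ) ^ (1 - starRingEnd ℂ s)
        * (∏ j, Gamma ((lam j : ℂ) * (1 - starRingEnd ℂ s) + mu j))
        * (G (1 - starRingEnd ℂ s) / ((1 - starRingEnd ℂ s) - 1) ^ m))
  bpp : ∀ n : ℕ, ¬ IsPrimePow n → b n = 0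
  thlt : th < 1 / 2
  bbd : ∃ C : ℝ, ∀ n : ℕ, 1 ≤ n → ‖b n‖ ≤ C * (n : ℝ) ^ th
  Lexp : ∀ s : ℂ, 1 < s.re → LSeries a s = Complex.exp (LSeries b s)

lemma sel_summable {a : ℕ → ℂ} (ha : IsSel a) (s : ℂ) (hs : 1 < s.re) : LSeriesSummable a s := by
  obtain ⟨C, hC⟩ := ha.2.1 ((s.re - 1) / 2) (by linarith)
  apply LSeriesSummable_of_le_const_mul_rpow (x := (s.re + 1) / 2) (by linarith)
  refine ⟨C, fun n hn => ?_⟩
  rw [show (s.re + 1) / 2 - 1 = (s.re - 1) / 2 by ring]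
  exact hC n (Nat.pos_of_ne_zero hn)

lemma exists_dat {a : ℕ → ℂ} (ha : IsSel a) : Nonempty (Dat a) := by
  have hs := sel_summable ha
  obtain ⟨-, -, ⟨m, G, h1, h2, h3, Q, h4, k, lam, mu, om, h5, h6, h7, h8⟩,
    b, h9, th, h10, C, h11, h12⟩ := ha
  exact ⟨⟨m, G, Q, k, lam, mu, om, b, th, hs, h1, h2, h3, h4, h5, h6, h7, h8, h9, h10,
    ⟨C, h11⟩, h12⟩⟩

lemma norm_LSeries_le {f : ℕ → ℂ} {x : ℝ} (h : LSeriesSummable f x) {s : ℂ} (hs : x ≤ s.re) :
    ‖LSeries f s‖ ≤ ∑' n, ‖LSeries.term f x n‖ :=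
  tsum_of_norm_bounded (summable_norm_iff.mpr h).hasSum
    (LSeries.norm_term_le_of_re_le_re f (by simpa using hs))

lemma refl_diffAt {Φ : ℂ → ℂ} {s : ℂ} (h : DifferentiableAt ℂ Φ (1 - starRingEnd ℂ s)) :
    DifferentiableAt ℂ (fun z => starRingEnd ℂ (Φ (1 - starRingEnd ℂ z))) s := by
  have h1 : DifferentiableAt ℂ (fun w => Φ (1 - w)) (starRingEnd ℂ s) :=
    h.comp (starRingEnd ℂ s) (by fun_prop)
  have h2 := h1.conj_conj
  rw [Complex.conj_conj] at h2
  exact h2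

lemma entire_eq {f g : ℂ → ℂ} (hf : Differentiable ℂ f) (hg : Differentiable ℂ g) {U : Set ℂ}
    (hU : IsOpen U) {z : ℂ} (hz : z ∈ U) (h : ∀ s ∈ U, f s = g s) : f = g :=
  AnalyticOnNhd.eq_of_eventuallyEq (fun w _ => hf.analyticAt w) (fun w _ => hg.analyticAt w)
    (z₀ := z) (Filter.eventually_of_mem (hU.mem_nhds hz) h)

namespace Dat

variable {a : ℕ → ℂ} (D : Dat a)

lemma b_abs : LSeries.abscissaOfAbsConv D.b < (3 / 2 : ℝ) := by
  obtain ⟨C, hC⟩ := D.bbd
  have := LSeries.abscissaOfAbsConv_le_of_le_const_mul_rpow (f := D.b) (x := D.th)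
    ⟨C, fun n hn => hC n (Nat.pos_of_ne_zero hn)⟩
  refine this.trans_lt ?_
  have h := D.thlt
  have : ((D.th + 1 : ℝ) : EReal) < ((3 / 2 : ℝ) : EReal) := by
    exact_mod_cast (by linarith : D.th + 1 < 3 / 2)
  simpa using this

include D in
lemma L_bounds : ∃ β : ℝ, ∀ s : ℂ, 2 ≤ s.re →
    Real.exp (-β) ≤ ‖LSeries a s‖ ∧ ‖LSeries a s‖ ≤ Real.exp β := by
  have hb : LSeriesSummable D.b (2 : ℝ) := by
    apply LSeriesSummable_of_abscissaOfAbsConv_lt_re
    refine D.b_abs.trans ?_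
    rw [ofReal_re]
    exact_mod_cast (by norm_num : (3 / 2 : ℝ) < 2)
  refine ⟨∑' n, ‖LSeries.term D.b (2 : ℝ) n‖, fun s hs => ?_⟩
  have h1 := (abs_re_le_norm _).trans (norm_LSeries_le hb hs)
  rw [D.Lexp s (by linarith), norm_exp]
  rw [abs_le] at h1
  exact ⟨Real.exp_le_exp.mpr h1.1, Real.exp_le_exp.mpr h1.2⟩

lemma fe_norm (s : ℂ) (hs : s.re < 0) :
    ‖D.G s‖ / ‖s - 1‖ ^ D.m = D.Q ^ (1 - 2 * s.re) * ‖LSeries a (1 - starRingEnd ℂ s)‖ *
      ∏ j, (‖Gamma ((D.lam j : ℂ) * (1 - starRingEnd ℂ s) + D.mu j)‖ *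
        ‖Gamma ((D.lam j : ℂ) * s + D.mu j)‖⁻¹) := by
  set U : ℂ → ℂ := fun s => (D.Q : ℂ) ^ s * D.G s with hU
  set V : ℂ → ℂ := fun s => (∏ j, (Gamma ((D.lam j : ℂ) * s + D.mu j))⁻¹) * (s - 1) ^ D.m with hV
  have hQ : (D.Q : ℂ) ≠ 0 := by exact_mod_cast D.Qpos.ne'
  have hUd : Differentiable ℂ U := by
    intro z
    exact (differentiableAt_id.const_cpow (Or.inl hQ)).mul (D.Gd z)
  have hVd : Differentiable ℂ V := by
    apply Differentiable.mul _ (by fun_prop)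
    apply Differentiable.fun_finsetProd
    intro j _
    exact differentiable_one_div_Gamma.comp (f := fun s => (D.lam j : ℂ) * s + D.mu j)
      (by fun_prop)
  have hG : ∀ (z : ℂ) j, 0 < z.re → Gamma ((D.lam j : ℂ) * z + D.mu j) ≠ 0 := by
    intro z j hz
    apply Gamma_ne_zero_of_re_pos
    have := D.lpos j
    have := D.mre j
    simp only [add_re, re_ofReal_mul]
    positivity
  have hUV : ∀ z : ℂ, (D.Q : ℂ) ^ z * (∏ j, Gamma ((D.lam j : ℂ) * z + D.mu j)) *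
      (D.G z / (z - 1) ^ D.m) = U z / V z := by
    intro z
    rw [hU, hV]
    simp only [Finset.prod_inv_distrib, div_eq_mul_inv, mul_inv, inv_inv]
    ring
  have hV0 : ∀ z : ℂ, 0 < z.re → z.re < 1 → V z ≠ 0 := by
    intro z h1 h2
    apply mul_ne_zero
    · exact Finset.prod_ne_zero_iff.mpr fun j _ => inv_ne_zero (hG z j h1)
    · apply pow_ne_zero
      intro h
      have := congrArg Complex.re h
      simp at this
      linarith
  have key : (fun z => U z * starRingEnd ℂ (V (1 - starRingEnd ℂ z))) =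
      fun z => D.om * starRingEnd ℂ (U (1 - starRingEnd ℂ z)) * V z := by
    apply entire_eq (U := {z : ℂ | 0 < z.re ∧ z.re < 1}) (z := (1 / 2 : ℝ))
    · exact fun z => (hUd z).mul (refl_diffAt (hVd _))
    · exact fun z => ((refl_diffAt (hUd _)).const_mul _).mul (hVd z)
    · exact (isOpen_lt continuous_const continuous_re).inter
        (isOpen_lt continuous_re continuous_const)
    · simp only [mem_setOf_eq, ofReal_re]; norm_num
    · rintro z ⟨h1, h2⟩
      have h := D.fe z h1 h2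
      rw [hUV, hUV, map_div₀] at h
      have v1 := hV0 z h1 h2
      have v2 : starRingEnd ℂ (V (1 - starRingEnd ℂ z)) ≠ 0 := by
        rw [map_ne_zero]
        apply hV0 <;> simp <;> linarith
      field_simp at h
      linear_combination h
  have h := congrArg norm (congrFun key s)
  have hs' : 1 < (1 - starRingEnd ℂ s).re := by simp; linarith
  simp only [norm_mul, norm_conj, D.om1, one_mul, hU, hV, D.Geq _ hs', norm_pow, norm_prod,
    norm_inv, norm_cpow_eq_rpow_re_of_pos D.Qpos] at h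
  have n1 : 0 < ‖1 - starRingEnd ℂ s - 1‖ ^ D.m := by
    apply pow_pos
    apply norm_pos_iff.mpr
    intro h
    have := congrArg Complex.re h
    simp at this
    linarith
  have n2 : 0 < ‖s - 1‖ ^ D.m := by
    apply pow_pos
    apply norm_pos_iff.mpr
    intro h
    have := congrArg Complex.re h
    simp at this
    linarith
  have n3 : 0 < ∏ j, ‖Gamma ((D.lam j : ℂ) * (1 - starRingEnd ℂ s) + D.mu j)‖ :=
    Finset.prod_pos fun j _ => norm_pos_iff.mpr (hG _ j (by linarith))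
  have n4 : 0 < D.Q ^ s.re := Real.rpow_pos_of_pos D.Qpos _
  have e : D.Q ^ (1 - starRingEnd ℂ s).re = D.Q ^ (1 - 2 * s.re) * D.Q ^ s.re := by
    rw [← Real.rpow_add D.Qpos]
    congr 1
    simp
    ring
  rw [e, Finset.prod_inv_distrib] at h
  rw [Finset.prod_mul_distrib, div_eq_iff n2.ne']
  field_simp at h
  rw [h]
  simp only [one_div]
  ring

lemma growth (N : ℕ) (hN : 1 ≤ N) :
    TS (fun t => ‖D.G (((-N : ℝ) : ℂ) + t * I)‖ / ‖((-N : ℝ) : ℂ) + t * I - 1‖ ^ D.m)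
      ((2 * N + 1) * ∑ j, D.lam j) D.k := by
  have hN' : (1 : ℝ) ≤ N := by exact_mod_cast hN
  obtain ⟨β, hβ⟩ := D.L_bounds
  have q0 : 0 < D.Q ^ (1 + 2 * (N : ℝ)) := Real.rpow_pos_of_pos D.Qpos _
  have t1 : TS (fun t : ℝ => D.Q ^ (1 + 2 * (N : ℝ)) *
      ‖LSeries a (1 - starRingEnd ℂ (((-N : ℝ) : ℂ) + t * I))‖) 0 0 := by
    apply TS.of_bdd (c := D.Q ^ (1 + 2 * (N : ℝ)) * Real.exp (-β))
      (C := D.Q ^ (1 + 2 * (N : ℝ)) * Real.exp β) (by positivity)
    intro t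
    obtain ⟨h1, h2⟩ := hβ (1 - starRingEnd ℂ (((-N : ℝ) : ℂ) + t * I)) (by simp; linarith)
    constructor <;> gcongr
  have t2 := TS.prod Finset.univ
    (fun j t => gm (-(D.lam j * N) + (D.mu j).re + D.lam j * (2 * N + 1)) (D.lam j * t + (D.mu j).im) *
      (gm (-(D.lam j * N) + (D.mu j).re) (D.lam j * t + (D.mu j).im))⁻¹)
    (fun j => D.lam j * (2 * N + 1)) (fun j =>
      (gm_ratio (-(D.lam j * N) + (D.mu j).re) (h := D.lam j * (2 * N + 1))
        (by have := D.lpos j; positivity)).comp_affine (D.lpos j) _)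
  have t3 := t1.mul t2
  convert t3 using 1
  · funext t
    rw [D.fe_norm _ (by simp; linarith)]
    congr 1
    · congr 2
      simp
    · apply Finset.prod_congr rfl
      intro j _
      unfold gm
      congr 1
      · congr 2
        apply Complex.ext <;> simp
        ring
      · congr 3
        apply Complex.ext <;> simp
  · rw [zero_add, ← Finset.sum_mul, mul_comm]
  · simp

end Dat

lemma poly_of_TS {g : ℝ → ℝ} (hg : Continuous g) {f : ℝ → ℝ} {e κ : ℝ} (h : TS f e κ) (E m : ℕ)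
    (hE : e + κ ≤ E) {A : ℝ} (hA : 0 ≤ A) (hgf : ∀ t, g t ≤ A * (1 + |t|) ^ m * f t) :
    ∃ K : ℝ, 0 ≤ K ∧ ∀ t, g t ≤ K * (1 + |t|) ^ (E + m) := by
  obtain ⟨C, T, hC, hT, h⟩ := h
  obtain ⟨B, hB⟩ := (isCompact_Icc (a := -T) (b := T)).exists_bound_of_continuousOn
    hg.continuousOn
  refine ⟨|B| + A * C, by positivity, fun t => ?_⟩
  have p1 : 1 ≤ (1 + |t|) ^ (E + m) := one_le_pow₀ (by linarith [abs_nonneg t])
  rcases le_total T |t| with ht | ht
  · have h2 := (h t ht).2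
    have h3 : |t| ^ (e + κ) ≤ (1 + |t|) ^ E := by
      calc |t| ^ (e + κ) ≤ |t| ^ (E : ℝ) := Real.rpow_le_rpow_of_exponent_le (by linarith) hE
        _ = |t| ^ E := Real.rpow_natCast _ _
        _ ≤ _ := by gcongr; linarith
    calc g t ≤ A * (1 + |t|) ^ m * (C * (1 + |t|) ^ E) :=
          (hgf t).trans (by gcongr; exact h2.trans (by gcongr))
      _ = A * C * (1 + |t|) ^ (E + m) := by ring
      _ ≤ _ := by gcongr; linarith [abs_nonneg B]
  · have h2 := (le_abs_self _).trans (hB t (abs_le.mp ht))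
    calc g t ≤ |B| * 1 := by linarith [le_abs_self B]
      _ ≤ (|B| + A * C) * (1 + |t|) ^ (E + m) := by
        gcongr
        have : 0 ≤ A * C := by positivity
        linarith

lemma norm_line_le (x t : ℝ) : ‖(x : ℂ) + t * I - 1‖ ≤ (|x| + 1) * (1 + |t|) := by
  have h := norm_le_abs_re_add_abs_im ((x : ℂ) + t * I - 1)
  have h2 : |x - 1| ≤ |x| + 1 := by simpa using abs_sub x 1
  simp only [sub_re, add_re, ofReal_re, mul_re, I_re, mul_zero, ofReal_im, I_im, mul_one,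
    sub_self, add_zero, one_re, sub_im, add_im, mul_im, zero_add, one_im, sub_zero] at h
  nlinarith [abs_nonneg x, abs_nonneg t]

namespace Dat

variable {a : ℕ → ℂ} (D : Dat a)

lemma strip_poly (N : ℕ) (hN : 1 ≤ N) : ∃ (K : ℝ) (M : ℕ), 0 ≤ K ∧ ∀ s : ℂ, -N ≤ s.re → s.re ≤ 2 →
    ‖D.G s‖ ≤ K * (1 + |s.im|) ^ M := by
  have hN' : (1 : ℝ) ≤ N := by exact_mod_cast hN
  obtain ⟨β, hβ⟩ := D.L_bounds
  obtain ⟨E, hE⟩ := exists_nat_ge ((2 * N + 1) * ∑ j, D.lam j + D.k)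
  obtain ⟨K1, hK1, h1⟩ := poly_of_TS (g := fun t : ℝ => ‖D.G (((-N : ℝ) : ℂ) + t * I)‖)
    (by have := D.Gd.continuous; fun_prop) (D.growth N hN) E D.m hE
    (A := (|(-N : ℝ)| + 1) ^ D.m) (by positivity) (by
      intro t
      have n2 : 0 < ‖((-N : ℝ) : ℂ) + t * I - 1‖ ^ D.m := by
        apply pow_pos
        apply norm_pos_iff.mpr
        intro h
        have := congrArg Complex.re h
        simp at this
        linarith
      rw [← mul_pow, mul_div_assoc', le_div_iff₀ n2, mul_comm]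
      gcongr
      exact norm_line_le _ _)
  obtain ⟨C, hC, hPL⟩ := gauss_PL (-N) 2 ((E + D.m : ℕ) : ℝ) (by linarith)
  set K2 : ℝ := K1 + 3 ^ D.m * Real.exp β with hK2
  refine ⟨C * K2, E + D.m, by positivity, fun s h1' h2' => ?_⟩
  rw [mul_assoc]
  refine hPL D.G (fun u => K2 * (1 + |u|) ^ (E + D.m)) D.Gd ?_ ?_ ?_ s h1' h2'
  · obtain ⟨ρ, C0, hρ⟩ := D.Gord
    obtain ⟨B, hB⟩ := (isCompact_closedBall (0 : ℂ) 1).exists_bound_of_continuousOn
      D.Gd.continuous.continuousOn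
    refine ⟨|B| + |C0| + ((N : ℝ) + 2) ^ |ρ|, |ρ|, fun w hw1 hw2 => ?_⟩
    have p0 : 0 < ((N : ℝ) + 2) ^ |ρ| := by positivity
    rcases le_total ‖w‖ 1 with hw | hw
    · have := hB w (by simpa using hw)
      calc ‖D.G w‖ ≤ (|B| + |C0| + ((N : ℝ) + 2) ^ |ρ|) * 1 := by
            linarith [le_abs_self B, abs_nonneg C0]
        _ ≤ _ := by
            gcongr
            exact Real.one_le_exp (by positivity)
    · have e1 : ‖w‖ ≤ ((N : ℝ) + 2) * (1 + |w.im|) := by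
        have := norm_le_abs_re_add_abs_im w
        have h3 : |w.re| ≤ N + 2 := abs_le.mpr ⟨by linarith, by linarith⟩
        nlinarith [abs_nonneg w.im]
      have e2 : ‖w‖ ^ ρ ≤ ((N : ℝ) + 2) ^ |ρ| * (1 + |w.im|) ^ |ρ| := by
        rw [← Real.mul_rpow (by positivity) (by positivity)]
        calc ‖w‖ ^ ρ ≤ ‖w‖ ^ |ρ| := Real.rpow_le_rpow_of_exponent_le hw (le_abs_self ρ)
          _ ≤ _ := by gcongr
      calc ‖D.G w‖ ≤ |C0| * Real.exp (‖w‖ ^ ρ) := (hρ w).trans (by gcongr; exact le_abs_self _)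
        _ ≤ _ := by
          gcongr
          · linarith [abs_nonneg B]
          · refine e2.trans ?_
            gcongr
            linarith [abs_nonneg B, abs_nonneg C0]
  · intro u v
    rw [mul_assoc]
    gcongr
    refine le_trans ?_ (mul_le_mul_of_nonneg_left (pow_le_exp (u - v) (E + D.m)) (by positivity))
    rw [← mul_pow]
    gcongr
    have := abs_add_le v (u - v)
    rw [add_sub_cancel] at this
    nlinarith [abs_nonneg v, abs_nonneg (u - v)]
  · intro w hw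
    have hw0 : w = (w.re : ℂ) + w.im * I := (re_add_im w).symm
    rcases hw with hw | hw
    · have := h1 w.im
      rw [← hw, ← hw0] at this
      refine this.trans ?_
      gcongr
      have : 0 ≤ 3 ^ D.m * Real.exp β := by positivity
      linarith
    · rw [D.Geq w (by linarith), norm_mul, norm_pow]
      have e1 := norm_line_le w.re w.im
      rw [← hw0, hw] at e1
      have e2 : (1 + |w.im|) ^ D.m ≤ (1 + |w.im|) ^ (E + D.m) :=
        pow_le_pow_right₀ (by linarith [abs_nonneg w.im]) (by omega)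
      calc _ ≤ (3 * (1 + |w.im|)) ^ D.m * Real.exp β := by
            gcongr
            · norm_num at e1; exact e1
            · exact (hβ w hw.ge).2
        _ = 3 ^ D.m * Real.exp β * (1 + |w.im|) ^ D.m := by rw [mul_pow]; ring
        _ ≤ _ := by gcongr; linarith

end Dat

end Pool.Agent.H121Z.Sel
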