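import Pool.Agent.H121Z.SelC

set_option autoImplicit false

namespace Pool.Agent.H121Z.Sel

open Complex Filter Topology Set Pool.Agent.H520Z.Sel

/-- coefficients of `1 - 2 ^ (1 - s)` -/
noncomputable def e2 : ℕ → ℂ := fun n => if n = 1 then 1 else if n = 2 then -2 else 0

lemma e2_hasSum (s : ℂ) : LSeriesHasSum e2 s (1 - 2 ^ (1 - s)) := by
  have h : HasSum (LSeries.term e2 s) (∑ n ∈ ({1, 2} : Finset ℕ), LSeries.term e2 s n) := by
    apply hasSum_sum_of_ne_finset_zero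
    intro n hn
    simp only [Finset.mem_insert, Finset.mem_singleton, not_or] at hn
    rcases eq_or_ne n 0 with rfl | h0
    · simp
    · simp [LSeries.term_of_ne_zero h0, e2, hn.1, hn.2]
  have e : (∑ n ∈ ({1, 2} : Finset ℕ), LSeries.term e2 s n) = 1 - 2 ^ (1 - s) := by
    rw [Finset.sum_pair (by norm_num), LSeries.term_of_ne_zero (by norm_num),
      LSeries.term_of_ne_zero (by norm_num), cpow_sub _ _ (by norm_num)]
    simp [e2]
    ring
  rw [e] at h
  exact h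

lemma exists_c {a : ℕ → ℂ} (hs : ∀ s : ℂ, 1 < s.re → LSeriesSummable a s) (m : ℕ) :
    ∃ c : ℕ → ℂ, (∀ s : ℂ, 1 < s.re → LSeriesSummable c s ∧
      LSeries c s = (1 - 2 ^ (1 - s)) ^ m * LSeries a s) ∧ ∀ n, Odd n → c n = a n := by
  induction m with
  | zero => exact ⟨a, fun s h => ⟨hs s h, by simp⟩, fun _ _ => rfl⟩
  | succ m ih =>
    obtain ⟨c, h1, h2⟩ := ih
    refine ⟨LSeries.convolution e2 c, fun s h => ⟨?_, ?_⟩, fun n hn => ?_⟩
    · exact (e2_hasSum s).LSeriesSummable.convolution (h1 s h).1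
    · rw [LSeries_convolution' (e2_hasSum s).LSeriesSummable (h1 s h).1,
        (e2_hasSum s).LSeries_eq, (h1 s h).2]
      ring
    · rw [← h2 n hn, LSeries.convolution_def]
      have hn0 : n ≠ 0 := by rintro rfl; simp at hn
      simp only
      rw [Finset.sum_eq_single (1, n)]
      · simp [e2]
      · rintro ⟨x, y⟩ hp hne
        have hxy : x * y = n := (Nat.mem_divisorsAntidiagonal.mp hp).1
        have hx1 : x ≠ 1 := by
          rintro rfl
          apply hne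
          simp [← hxy]
        have hx2 : x ≠ 2 := by
          rintro rfl
          rw [← hxy] at hn
          exact (Nat.not_even_iff_odd.mpr hn) (even_two_mul y)
        simp [e2, hx1, hx2]
      · intro h
        exact absurd (Nat.mem_divisorsAntidiagonal.mpr ⟨by simp, hn0⟩) h

lemma norm_two_cpow (s : ℂ) : ‖(2 : ℂ) ^ (1 - s)‖ = 2 ^ (1 - s.re) := by
  have := norm_cpow_eq_rpow_re_of_pos (x := 2) (by norm_num) (1 - s)
  simpa using this

lemma eta_bounds (N : ℕ) (t : ℝ) : 1 ≤ ‖1 - (2 : ℂ) ^ (1 - (((-N : ℝ) : ℂ) + t * I))‖ ∧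
    ‖1 - (2 : ℂ) ^ (1 - (((-N : ℝ) : ℂ) + t * I))‖ ≤ 4 * 2 ^ N := by
  have h := norm_two_cpow (((-N : ℝ) : ℂ) + t * I)
  have e : (2 : ℝ) ^ (1 - (((-N : ℝ) : ℂ) + t * I).re) = 2 * 2 ^ N := by
    rw [← Real.rpow_natCast, ← Real.rpow_one_add' (by norm_num) (by positivity)]
    congr 1
    simp
  rw [e] at h
  have p : (1 : ℝ) ≤ 2 ^ N := one_le_pow₀ (by norm_num)
  have a1 := norm_sub_le (1 : ℂ) ((2 : ℂ) ^ (1 - (((-N : ℝ) : ℂ) + t * I)))
  have a2 := norm_sub_norm_le ((2 : ℂ) ^ (1 - (((-N : ℝ) : ℂ) + t * I))) 1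
  rw [norm_sub_rev ((2 : ℂ) ^ _)] at a2
  rw [h, norm_one] at a1 a2
  constructor <;> linarith

lemma line_ne (N : ℕ) (t : ℝ) : ((-N : ℝ) : ℂ) + t * I ≠ 1 := by
  intro h
  have := congrArg Complex.re h
  simp at this
  have : (0 : ℝ) ≤ N := by positivity
  linarith

namespace Dat

variable {a : ℕ → ℂ} (D : Dat a)

lemma exists_H : ∃ (H : ℂ → ℂ) (c : ℕ → ℂ), Differentiable ℂ H ∧
    (∀ s : ℂ, 1 < s.re → LSeriesSummable c s ∧ H s = LSeries c s) ∧
    (∀ n, Odd n → c n = a n) ∧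
    (∀ s : ℂ, s ≠ 1 → ‖H s‖ = ‖1 - (2 : ℂ) ^ (1 - s)‖ ^ D.m * (‖D.G s‖ / ‖s - 1‖ ^ D.m)) ∧
    (∀ N : ℕ, 1 ≤ N → ∃ (K : ℝ) (M : ℕ), ∀ s : ℂ, (-N : ℝ) ≤ s.re → s.re ≤ 2 →
      ‖H s‖ ≤ K * (1 + |s.im|) ^ M) := by
  obtain ⟨c, h1, h2⟩ := exists_c D.asum D.m
  set f : ℂ → ℂ := fun s => 1 - 2 ^ (1 - s) with hf
  have hfd : Differentiable ℂ f := by
    intro z
    exact (DifferentiableAt.const_cpow (by fun_prop) (Or.inl (by norm_num))).const_sub 1
  have hdd : Differentiable ℂ (dslope f 1) := by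
    rw [← differentiableOn_univ, differentiableOn_dslope Filter.univ_mem]
    exact hfd.differentiableOn
  have hde : ∀ s, s ≠ 1 → dslope f 1 s = (1 - 2 ^ (1 - s)) / (s - 1) := by
    intro s hs
    rw [dslope_of_ne _ hs, slope_def_field]
    simp [hf]
  refine ⟨fun s => D.G s * dslope f 1 s ^ D.m, c, D.Gd.mul (hdd.pow _), fun s hs => ?_, h2,
    fun s hs => ?_, fun N hN => ?_⟩
  · have hs1 : s ≠ 1 := by rintro rfl; simp at hs
    refine ⟨(h1 s hs).1, ?_⟩
    have := sub_ne_zero.mpr hs1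
    simp only
    rw [(h1 s hs).2, D.Geq s hs, hde s hs1, div_pow]
    field_simp
  · simp only
    rw [hde s hs, norm_mul, norm_pow, norm_div, div_pow]
    ring
  · obtain ⟨K, M, hK, hG⟩ := D.strip_poly N hN
    obtain ⟨B, hB⟩ := (isCompact_closedBall (1 : ℂ) 1).exists_bound_of_continuousOn
      hdd.continuous.continuousOn
    refine ⟨K * (|B| + 1 + 2 ^ (1 + (N : ℝ))) ^ D.m, M, fun s hs1 hs2 => ?_⟩
    have hb : ‖dslope f 1 s‖ ≤ |B| + 1 + 2 ^ (1 + (N : ℝ)) := by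
      have p0 : (0 : ℝ) < 2 ^ (1 + (N : ℝ)) := by positivity
      rcases le_total ‖s - 1‖ 1 with h | h
      · have := hB s (by simpa [dist_eq_norm] using h)
        linarith [le_abs_self B]
      · have hs : s ≠ 1 := by rintro rfl; norm_num at h
        rw [hde s hs, norm_div]
        refine (div_le_self (norm_nonneg _) h).trans ((norm_sub_le _ _).trans ?_)
        rw [norm_one, norm_two_cpow]
        have : (2 : ℝ) ^ (1 - s.re) ≤ 2 ^ (1 + (N : ℝ)) :=
          Real.rpow_le_rpow_of_exponent_le (by norm_num) (by linarith)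
        linarith [abs_nonneg B]
    simp only
    rw [norm_mul, norm_pow, mul_right_comm]
    gcongr
    exact hG s hs1 hs2

/-- small degree forces degree zero -/
lemma k_zero (hL : ∑ j, D.lam j < 1 / 8) : D.k = 0 := by
  obtain ⟨H, c, hH, hc, -, hn, hp⟩ := D.exists_H
  have hc2 : LSeriesSummable c 2 := (hc 2 (by simp)).1
  have hL0 : 0 ≤ ∑ j, D.lam j := Finset.sum_nonneg fun j _ => (D.lpos j).le
  have hdec : ∀ M : ℕ, 1 ≤ M → ∃ C : ℝ, ∀ n : ℕ, n ≠ 0 →
      ‖c n‖ ≤ C * (n : ℝ) ^ ((2 + 2 * D.k - 2 * M : ℝ)) := by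
    intro M hM
    obtain ⟨K, hK0, hK⟩ := poly_of_TS (g := fun t : ℝ => ‖H (((-(4 * M : ℕ) : ℝ) : ℂ) + t * I)‖)
      (by have := hH.continuous; fun_prop) (D.growth (4 * M) (by omega)) (M + 1 + D.k) 0
      (by push_cast; nlinarith) (A := (4 * 2 ^ (4 * M)) ^ D.m) (by positivity) (by
        intro t
        rw [hn _ (line_ne _ t), pow_zero, mul_one]
        gcongr
        exact (eta_bounds _ t).2)
    set S := ∑' k, ‖LSeries.term c 2 k‖ with hS
    have S0 : 0 ≤ S := tsum_nonneg fun _ => norm_nonneg _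
    set A : ℝ := Real.exp ((-((4 * M : ℕ) : ℝ) - 2) ^ 2) *
      (K * Real.exp (((M + 1 + D.k + 0 : ℕ) : ℝ) ^ 2 / 2) * 2) with hA
    refine ⟨S * (M.factorial * 16 ^ M) + A, fun n hn0 => ?_⟩
    have n1 : (1 : ℝ) ≤ n := by exact_mod_cast Nat.pos_of_ne_zero hn0
    have n0 : (0 : ℝ) < n := by linarith
    have hb := coef_bound H hH c hc2 (fun s hs => (hc s (by rw [hs]; norm_num)).2)
      (-((4 * M : ℕ) : ℝ)) (by have : (0 : ℝ) ≤ ((4 * M : ℕ) : ℝ) := by positivity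
                               linarith)
      (hp (4 * M) (by omega)) K _ hK ((n : ℝ) ^ 2) (one_le_pow₀ n1) n hn0
    rw [div_le_iff₀ (by positivity), ← hS] at hb
    refine hb.trans ?_
    rw [add_mul, add_mul]
    apply add_le_add
    · have e1 : Real.exp (-(((n : ℝ) ^ 2) ^ 2 / (16 * (n : ℝ) ^ 2))) ≤
          (M.factorial * 16 ^ M) * ((n : ℝ) ^ (2 * M))⁻¹ := by
        have h1 := Real.pow_div_factorial_le_exp ((n : ℝ) ^ 2 / 16) (by positivity) M
        rw [show ((n : ℝ) ^ 2) ^ 2 / (16 * (n : ℝ) ^ 2) = (n : ℝ) ^ 2 / 16 by field_simp,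
          Real.exp_neg]
        refine (inv_anti₀ (by positivity) h1).trans (le_of_eq ?_)
        rw [div_pow, ← pow_mul]
        field_simp
      have e2 : ((n : ℝ) ^ (2 * M))⁻¹ * (n : ℝ) ^ 2 ≤ (n : ℝ) ^ ((2 + 2 * D.k - 2 * M : ℝ)) := by
        rw [← Real.rpow_natCast, ← Real.rpow_natCast (n : ℝ) 2, ← Real.rpow_neg n0.le,
          ← Real.rpow_add n0]
        apply Real.rpow_le_rpow_of_exponent_le n1
        push_cast
        have : (0 : ℝ) ≤ D.k := by positivity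
        linarith
      calc _ ≤ S * ((M.factorial * 16 ^ M) * ((n : ℝ) ^ (2 * M))⁻¹) * (n : ℝ) ^ 2 := by gcongr
        _ = S * (M.factorial * 16 ^ M) * (((n : ℝ) ^ (2 * M))⁻¹ * (n : ℝ) ^ 2) := by ring
        _ ≤ _ := by gcongr
    · have e1 : Real.exp ((-((4 * M : ℕ) : ℝ) - 2) ^ 2 / ((n : ℝ) ^ 2) ^ 2) ≤
          Real.exp ((-((4 * M : ℕ) : ℝ) - 2) ^ 2) := by
        apply Real.exp_le_exp.mpr
        exact div_le_self (by positivity) (one_le_pow₀ (one_le_pow₀ n1))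
      have e2 : (n : ℝ) ^ (-((4 * M : ℕ) : ℝ) - 2) * ((n : ℝ) ^ 2) ^ (M + 1 + D.k + 0) *
          (n : ℝ) ^ 2 = (n : ℝ) ^ ((2 + 2 * D.k - 2 * M : ℝ)) := by
        rw [← pow_mul, ← Real.rpow_natCast, ← Real.rpow_natCast (n : ℝ) 2, ← Real.rpow_add n0,
          ← Real.rpow_add n0]
        congr 1
        push_cast
        ring
      rw [← e2, hA]
      calc _ ≤ (n : ℝ) ^ (-((4 * M : ℕ) : ℝ) - 2) * Real.exp ((-((4 * M : ℕ) : ℝ) - 2) ^ 2) *
            (K * Real.exp (((M + 1 + D.k + 0 : ℕ) : ℝ) ^ 2 / 2) * 2 *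
              ((n : ℝ) ^ 2) ^ (M + 1 + D.k + 0)) * (n : ℝ) ^ 2 := by gcongr
        _ = _ := by ring
  have hall : ∀ s : ℂ, LSeriesSummable c s := by
    intro s
    obtain ⟨M, hM⟩ := exists_nat_gt (|s.re| + 3 + D.k)
    have hM1 : 1 ≤ M := by
      have : (1 : ℝ) ≤ M := by
        have : (0 : ℝ) ≤ D.k := by positivity
        linarith [abs_nonneg s.re]
      exact_mod_cast this
    obtain ⟨C, hC⟩ := hdec M hM1
    apply LSeriesSummable_of_le_const_mul_rpow (x := 3 + 2 * D.k - 2 * M)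
      (by linarith [neg_abs_le s.re, abs_nonneg s.re])
    refine ⟨C, fun n hn => ?_⟩
    rw [show (3 + 2 * D.k - 2 * M - 1 : ℝ) = 2 + 2 * D.k - 2 * M by ring]
    exact hC n hn
  have hLd : Differentiable ℂ (LSeries c) := by
    intro s
    refine (LSeries_hasDerivAt ?_).differentiableAt
    refine (hall (s - 1)).abscissaOfAbsConv_le.trans_lt ?_
    exact_mod_cast (by simp : (s - 1).re < s.re)
  have hHL : H = LSeries c :=
    entire_eq hH hLd (U := {s : ℂ | 1 < s.re}) (isOpen_lt continuous_const continuous_re)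
      (z := 2) (by simp) fun s hs => (hc s hs).2
  have hle : ∀ N : ℕ, 1 ≤ N → (2 * N + 1) * ∑ j, D.lam j - D.k ≤ 0 := by
    intro N hN
    apply (D.growth N hN).le_of_bdd (B := ∑' n, ‖LSeries.term c (-N : ℝ) n‖)
    intro t
    have h1 := norm_LSeries_le (hall (-N : ℝ)) (s := ((-N : ℝ) : ℂ) + t * I) (by simp)
    rw [← hHL, hn _ (line_ne _ t)] at h1
    refine le_trans ?_ h1
    apply le_mul_of_one_le_left (by positivity)
    exact one_le_pow₀ (eta_bounds _ t).1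
  by_contra hk
  have hpos : 0 < ∑ j, D.lam j :=
    Finset.sum_pos (fun j _ => D.lpos j) ⟨⟨0, Nat.pos_of_ne_zero hk⟩, Finset.mem_univ _⟩
  obtain ⟨N, hN⟩ := exists_nat_gt (D.k / ∑ j, D.lam j)
  rw [div_lt_iff₀ hpos] at hN
  have := hle (N + 1) (by omega)
  push_cast at this
  have : (0 : ℝ) ≤ N := by positivity
  nlinarith

/-- degree zero: odd coefficients vanish eventually -/
lemma odd_zero (hk : D.k = 0) : ∃ X : ℝ, ∀ n : ℕ, Odd n → X < n → a n = 0 := by
  obtain ⟨H, c, hH, hc, hodd, hn, hp⟩ := D.exists_H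
  have hc2 : LSeriesSummable c 2 := (hc 2 (by simp)).1
  obtain ⟨β, hβ⟩ := D.L_bounds
  haveI : IsEmpty (Fin D.k) := by rw [hk]; infer_instance
  have Q0 := D.Qpos
  refine ⟨2 ^ D.m * D.Q ^ 2, fun n ho hX => ?_⟩
  rw [← hodd n ho]
  have hn0 : n ≠ 0 := by rintro rfl; simp at ho
  have n1 : (1 : ℝ) ≤ n := by exact_mod_cast Nat.pos_of_ne_zero hn0
  have n0 : (0 : ℝ) < n := by linarith
  set S := ∑' k, ‖LSeries.term c 2 k‖ with hS
  have hN : ∀ N : ℕ, 1 ≤ N → ‖c n‖ / (n : ℝ) ^ 2 ≤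
      (4 ^ D.m * D.Q * Real.exp β * 2) * (2 ^ D.m * D.Q ^ 2 / n) ^ N := by
    intro N hN
    have hN' : (1 : ℝ) ≤ N := by exact_mod_cast hN
    set K : ℝ := (4 * 2 ^ N) ^ D.m * (D.Q ^ (2 * N + 1) * Real.exp β) with hK
    have hKb : ∀ t : ℝ, ‖H (((-N : ℝ) : ℂ) + t * I)‖ ≤ K * (1 + |t|) ^ 0 := by
      intro t
      rw [hn _ (line_ne _ t), D.fe_norm _ (by simp; linarith), pow_zero, mul_one, hK]
      simp only [Finset.univ_eq_empty, Finset.prod_empty, mul_one]
      gcongr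
      · exact (eta_bounds _ t).2
      · rw [← Real.rpow_natCast]
        apply le_of_eq
        congr 1
        simp
        ring
      · exact (hβ _ (by simp; linarith)).2
    have hb := fun (T : ℝ) (hT : 1 ≤ T) => coef_bound H hH c hc2
      (fun s hs => (hc s (by rw [hs]; norm_num)).2) (-N : ℝ) (by linarith) (hp N hN) K 0 hKb T hT
      n hn0
    have t1 : Tendsto (fun T : ℝ => S * Real.exp (-(T ^ 2 / (16 * (n : ℝ) ^ 2)))) atTop
        (𝓝 (S * 0)) := by
      apply Tendsto.const_mul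
      apply Real.tendsto_exp_atBot.comp
      apply tendsto_neg_atTop_atBot.comp
      exact (tendsto_pow_atTop (by norm_num)).atTop_div_const (by positivity)
    have t2 : Tendsto (fun T : ℝ => (n : ℝ) ^ ((-N : ℝ) - 2) *
        Real.exp (((-N : ℝ) - 2) ^ 2 / T ^ 2) * (K * 2)) atTop
        (𝓝 ((n : ℝ) ^ ((-N : ℝ) - 2) * Real.exp 0 * (K * 2))) := by
      apply Tendsto.mul_const
      apply Tendsto.const_mul
      apply (Real.continuous_exp.tendsto 0).comp
      exact tendsto_const_nhds.div_atTop (tendsto_pow_atTop (by norm_num))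
    have h3 := ge_of_tendsto (t1.add t2) (b := ‖c n‖ / (n : ℝ) ^ 2) (by
      filter_upwards [eventually_ge_atTop 1] with T hT
      simpa using hb T hT)
    refine h3.trans ?_
    have e1 : (n : ℝ) ^ ((-N : ℝ) - 2) ≤ ((n : ℝ) ^ N)⁻¹ := by
      rw [← Real.rpow_natCast, ← Real.rpow_neg n0.le]
      exact Real.rpow_le_rpow_of_exponent_le n1 (by linarith)
    rw [mul_zero, zero_add, Real.exp_zero, mul_one]
    calc _ ≤ ((n : ℝ) ^ N)⁻¹ * (K * 2) := by gcongr
      _ = _ := by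
        rw [hK, div_pow, mul_pow, mul_pow, ← pow_mul, ← pow_mul, ← pow_mul, mul_comm D.m N]
        field_simp
        ring
  have t3 := (tendsto_pow_atTop_nhds_zero_of_lt_one (r := 2 ^ D.m * D.Q ^ 2 / n) (by positivity)
    ((div_lt_one n0).mpr hX)).const_mul (4 ^ D.m * D.Q * Real.exp β * 2)
  have h4 := ge_of_tendsto t3 (b := ‖c n‖ / (n : ℝ) ^ 2) (by
    filter_upwards [eventually_ge_atTop 1] with N h using hN N h)
  rw [mul_zero, div_le_iff₀ (by positivity), zero_mul] at h4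
  exact norm_le_zero_iff.mp h4

end Dat

end Pool.Agent.H121Z.Sel
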