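import Pool.Agent.H121Z.SelD

set_option autoImplicit false

namespace Pool.Agent.H121Z.Sel

open Complex Filter Topology Set Pool.Agent.H520Z.Sel

lemma refl_hasDerivAt {Φ : ℂ → ℂ} {s d : ℂ} (h : HasDerivAt Φ d (1 - starRingEnd ℂ s)) :
    HasDerivAt (fun z => starRingEnd ℂ (Φ (1 - starRingEnd ℂ z))) (-starRingEnd ℂ d) s := by
  have h1 : HasDerivAt (fun w => Φ (1 - w)) (-d) (starRingEnd ℂ s) :=
    h.comp_const_sub 1 (starRingEnd ℂ s)
  have h2 := h1.conj_conj
  rw [Complex.conj_conj, map_neg] at h2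
  exact h2

lemma abs_lt_of_le {f : ℕ → ℂ} {x y : ℝ} (h : LSeries.abscissaOfAbsConv f ≤ x) (hxy : x < y) :
    LSeries.abscissaOfAbsConv f < y := h.trans_lt (by exact_mod_cast hxy)

lemma abs_le_one {a : ℕ → ℂ} (hs : ∀ s : ℂ, 1 < s.re → LSeriesSummable a s) :
    LSeries.abscissaOfAbsConv a ≤ (1 : ℝ) :=
  LSeries.abscissaOfAbsConv_le_of_forall_lt_LSeriesSummable fun y hy => hs y (by simpa using hy)

namespace Dat

variable {a : ℕ → ℂ} (D : Dat a)

lemma log_rec {n : ℕ} (hn : n ≠ 0) :
    LSeries.logMul a n = LSeries.convolution (LSeries.logMul D.b) a n := by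
  have ha := abs_le_one D.asum
  have hb := D.b_abs
  apply LSeries.eq_of_LSeries_eventually_eq _ _ _ hn
  · rw [LSeries.abscissaOfAbsConv_logMul]
    exact ha.trans_lt (EReal.coe_lt_top _)
  · refine (LSeries.abscissaOfAbsConv_convolution_le _ _).trans_lt (max_lt ?_ ?_)
    · rw [LSeries.abscissaOfAbsConv_logMul]
      exact hb.trans (EReal.coe_lt_top _)
    · exact ha.trans_lt (EReal.coe_lt_top _)
  · filter_upwards [eventually_gt_atTop 2] with x hx
    have hb' : LSeries.abscissaOfAbsConv D.b < (x : ℂ).re := abs_lt_of_le hb.le (by simp; linarith)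
    have ha' : LSeries.abscissaOfAbsConv a < (x : ℂ).re := abs_lt_of_le ha (by simp; linarith)
    have h1 := LSeries_hasDerivAt ha'
    have h2 := (LSeries_hasDerivAt hb').cexp
    have h3 : (fun s => Complex.exp (LSeries D.b s)) =ᶠ[𝓝 (x : ℂ)] LSeries a := by
      have : {s : ℂ | 1 < s.re} ∈ 𝓝 (x : ℂ) :=
        (isOpen_lt continuous_const continuous_re).mem_nhds (by simp; linarith)
      filter_upwards [this] with s hs using (D.Lexp s hs).symm
    have h4 := (h1.congr_of_eventuallyEq h3).unique h2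
    rw [LSeries_convolution' (LSeriesSummable_logMul_of_lt_re hb')
      (D.asum x (by simp; linarith)), D.Lexp x (by simp; linarith)]
    linear_combination -h4

lemma b_zero (ha1 : a 1 = 1) {p : ℕ} (hp : p.Prime) (h : ∀ i, 1 ≤ i → a (p ^ i) = 0) {j : ℕ}
    (hj : 1 ≤ j) : D.b (p ^ j) = 0 := by
  have hn : p ^ j ≠ 0 := pow_ne_zero _ hp.ne_zero
  have h1 := D.log_rec hn
  rw [LSeries.convolution_def] at h1
  simp only [LSeries.logMul, h j hj, mul_zero] at h1
  rw [Finset.sum_eq_single (p ^ j, 1)] at h1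
  · simp only [ha1, mul_one] at h1
    refine (mul_eq_zero.mp h1.symm).resolve_left ?_
    rw [← natCast_log, ofReal_eq_zero]
    apply (Real.log_pos _).ne'
    exact_mod_cast Nat.one_lt_pow (by omega) hp.one_lt
  · rintro ⟨x, y⟩ hxy hne
    have hxy' : x * y = p ^ j := (Nat.mem_divisorsAntidiagonal.mp hxy).1
    obtain ⟨i, -, rfl⟩ := (Nat.dvd_prime_pow hp).mp (Dvd.intro_left x hxy')
    rcases Nat.eq_zero_or_pos i with rfl | hi
    · exfalso
      apply hne
      simp at hxy'
      simp [hxy']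
    · simp [h i hi]
  · intro h
    exact absurd (Nat.mem_divisorsAntidiagonal.mpr ⟨by simp, hn⟩) h

lemma b_abs_small (ha1 : a 1 = 1) (hk : D.k = 0) :
    LSeries.abscissaOfAbsConv D.b ≤ (max D.th 0 : ℝ) := by
  obtain ⟨X, hX⟩ := D.odd_zero hk
  obtain ⟨Y, hY⟩ := exists_nat_gt (max X 3)
  obtain ⟨C, hC⟩ := D.bbd
  have hsupp : ∀ n, n ∉ Y.smoothNumbers → D.b n = 0 := by
    intro n hn
    by_cases hpp : IsPrimePow n
    · obtain ⟨p, j, hp, hj, rfl⟩ := (isPrimePow_nat_iff _).mp hpp
      have hpY : Y ≤ p := by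
        by_contra hlt
        apply hn
        rw [Nat.mem_smoothNumbers']
        intro q hq hqp
        rw [(Nat.prime_dvd_prime_iff_eq hq hp).mp (hq.dvd_of_dvd_pow hqp)]
        omega
      have hpY' : (Y : ℝ) ≤ p := by exact_mod_cast hpY
      have h3 : (3 : ℝ) < p := by linarith [le_max_right X 3]
      have h3' : 3 < p := by exact_mod_cast h3
      apply D.b_zero ha1 hp _ hj
      intro i hi
      apply hX _ ((hp.odd_of_ne_two (by omega)).pow)
      have : (p : ℝ) ≤ ((p ^ i : ℕ) : ℝ) := by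
        exact_mod_cast Nat.le_self_pow (by omega) p
      linarith [le_max_left X 3]
    · exact D.bpp n hpp
  apply LSeries.abscissaOfAbsConv_le_of_forall_lt_LSeriesSummable
  intro y hy
  have hδ : max D.th 0 - y < 0 := by linarith
  let f : ℕ →* ℝ :=
    { toFun := fun n => (n : ℝ) ^ (max D.th 0 - y)
      map_one' := by simp
      map_mul' := fun m n => by
        rw [Nat.cast_mul, Real.mul_rpow (by positivity) (by positivity)] }
  have hf := (EulerProduct.summable_and_hasSum_smoothNumbers_prod_primesBelow_geometric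
    (f := f) (fun {p} hp => by
      show ‖(p : ℝ) ^ (max D.th 0 - y)‖ < 1
      rw [Real.norm_eq_abs, abs_of_nonneg (by positivity)]
      exact Real.rpow_lt_one_of_one_lt_of_neg (by exact_mod_cast hp.one_lt) hδ) Y).1
  have hf2 := (summable_subtype_iff_indicator (f := fun n => ‖f n‖)
    (s := Y.smoothNumbers)).mp hf
  apply Summable.of_norm_bounded (hf2.mul_left |C|)
  intro n
  rw [LSeries.norm_term_eq]
  by_cases hn : n ∈ Y.smoothNumbers
  · have hn0 : n ≠ 0 := hn.1
    have n1 : (1 : ℝ) ≤ n := by exact_mod_cast Nat.pos_of_ne_zero hn0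
    rw [if_neg hn0, indicator_of_mem hn]
    show ‖D.b n‖ / (n : ℝ) ^ (y : ℂ).re ≤ |C| * ‖(n : ℝ) ^ (max D.th 0 - y)‖
    rw [Real.norm_eq_abs, abs_of_nonneg (by positivity : 0 ≤ (n : ℝ) ^ (max D.th 0 - y)),
      Real.rpow_sub (by linarith), ofReal_re, ← mul_div_assoc]
    gcongr
    refine (hC n (Nat.pos_of_ne_zero hn0)).trans ?_
    gcongr
    · exact le_abs_self C
    · exact le_max_left _ _
  · rw [indicator_of_notMem hn, hsupp n hn]
    simp

lemma trivial_of_k (ha1 : a 1 = 1) (hk : D.k = 0) : ∀ n, 2 ≤ n → a n = 0 := by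
  set θ : ℝ := max D.th 0 with hθ
  have hθ0 : 0 ≤ θ := le_max_right _ _
  have hθ1 : θ < 1 / 2 := max_lt D.thlt (by norm_num)
  have hb := D.b_abs_small ha1 hk
  rw [← hθ] at hb
  haveI : IsEmpty (Fin D.k) := by rw [hk]; infer_instance
  have hbd : ∀ s : ℂ, θ < s.re →
      HasDerivAt (LSeries D.b) (-LSeries (LSeries.logMul D.b) s) s :=
    fun s hs => LSeries_hasDerivAt (abs_lt_of_le hb hs)
  have hopen : IsOpen {s : ℂ | θ < s.re} := isOpen_lt continuous_const continuous_re
  have hGexp : ∀ s : ℂ, θ < s.re → D.G s = (s - 1) ^ D.m * Complex.exp (LSeries D.b s) := by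
    have a1 : AnalyticOnNhd ℂ D.G {s : ℂ | θ < s.re} := fun w _ => D.Gd.analyticAt w
    have a2 : AnalyticOnNhd ℂ (fun s => (s - 1) ^ D.m * Complex.exp (LSeries D.b s))
        {s : ℂ | θ < s.re} := by
      apply DifferentiableOn.analyticOnNhd _ hopen
      intro s hs
      exact (DifferentiableAt.mul (by fun_prop)
        (hbd s hs).differentiableAt.cexp).differentiableWithinAt
    apply a1.eqOn_of_preconnected_of_eventuallyEq a2 (convex_halfSpace_re_gt θ).isPreconnected
      (z₀ := 2) (by simp; linarith)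
    have : {s : ℂ | 1 < s.re} ∈ 𝓝 (2 : ℂ) :=
      (isOpen_lt continuous_const continuous_re).mem_nhds (by simp)
    filter_upwards [this] with s hs
    rw [D.Geq s hs, D.Lexp s hs]
  have hQ : (D.Q : ℂ) ≠ 0 := by exact_mod_cast D.Qpos.ne'
  set l : ℂ := Complex.log D.Q with hl
  set B' : ℂ → ℂ := LSeries (LSeries.logMul D.b) with hB'
  set U : ℂ → ℂ := fun s => Complex.exp (l * s + LSeries D.b s) with hU
  have hUd : ∀ s : ℂ, θ < s.re → HasDerivAt U (U s * (l - B' s)) s := by
    intro s hs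
    have := (((hasDerivAt_id s).const_mul l).add (hbd s hs)).cexp
    simpa [hU, sub_eq_add_neg] using this
  have hUe : ∀ s : ℂ, θ < s.re → s.re < 1 →
      (D.Q : ℂ) ^ s * 1 * (D.G s / (s - 1) ^ D.m) = U s := by
    intro s h1 h2
    have : s - 1 ≠ 0 := by
      intro h
      have := congrArg Complex.re h
      simp at this
      linarith
    rw [hGexp s h1, hU, cpow_def_of_ne_zero hQ]
    simp only
    rw [Complex.exp_add]
    field_simp
    rw [mul_comm s l]
  have hFE : ∀ s : ℂ, θ < s.re → s.re < 1 - θ →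
      U s = D.om * starRingEnd ℂ (U (1 - starRingEnd ℂ s)) := by
    intro s h1 h2
    have := D.fe s (by linarith) (by linarith)
    simp only [Finset.univ_eq_empty, Finset.prod_empty] at this
    rw [hUe s h1 (by linarith), hUe _ (by simp; linarith) (by simp; linarith)] at this
    exact this
  have hrel : ∀ s : ℂ, θ < s.re → s.re < 1 - θ →
      B' s = l + starRingEnd ℂ l - starRingEnd ℂ (B' (1 - starRingEnd ℂ s)) := by
    intro s h1 h2
    have d1 := hUd s h1
    have d2 := (refl_hasDerivAt (hUd (1 - starRingEnd ℂ s) (by simp; linarith))).const_mul D.om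
    have e : (fun z => D.om * starRingEnd ℂ (U (1 - starRingEnd ℂ z))) =ᶠ[𝓝 s] U := by
      have : {s : ℂ | θ < s.re ∧ s.re < 1 - θ} ∈ 𝓝 s :=
        (hopen.inter (isOpen_lt continuous_re continuous_const)).mem_nhds ⟨h1, h2⟩
      filter_upwards [this] with z hz using (hFE z hz.1 hz.2).symm
    have d3 := (d1.congr_of_eventuallyEq e).unique d2
    rw [map_mul, map_sub, mul_neg, ← mul_assoc, ← hFE s h1 h2] at d3
    have u0 : U s ≠ 0 := Complex.exp_ne_zero _
    have : U s * (l - B' s) = U s * (-(starRingEnd ℂ l -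
      starRingEnd ℂ (B' (1 - starRingEnd ℂ s)))) := by rw [d3]; ring
    have := mul_left_cancel₀ u0 this
    linear_combination -this
  have hb2 : LSeries.abscissaOfAbsConv (LSeries.logMul D.b) ≤ θ := by
    rwa [LSeries.abscissaOfAbsConv_logMul]
  have hB'd : ∀ s : ℂ, θ < s.re → DifferentiableAt ℂ B' s :=
    fun s hs => (LSeries_hasDerivAt (abs_lt_of_le hb2 hs)).differentiableAt
  set Φ : ℂ → ℂ := fun s => if 1 / 2 ≤ s.re then B' s else
    l + starRingEnd ℂ l - starRingEnd ℂ (B' (1 - starRingEnd ℂ s)) with hΦ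
  have hΦd : Differentiable ℂ Φ := by
    intro s
    by_cases hs : θ < s.re
    · refine (hB'd s hs).congr_of_eventuallyEq ?_
      filter_upwards [hopen.mem_nhds hs] with z hz
      rw [hΦ]
      simp only
      split_ifs with h
      · rfl
      · exact (hrel z hz (by linarith)).symm
    · have : DifferentiableAt ℂ (fun s => l + starRingEnd ℂ l -
          starRingEnd ℂ (B' (1 - starRingEnd ℂ s))) s :=
        (refl_diffAt (hB'd _ (by simp; linarith))).const_sub _
      refine this.congr_of_eventuallyEq ?_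
      have hm : {z : ℂ | z.re < 1 / 2} ∈ 𝓝 s :=
        (isOpen_lt continuous_re continuous_const).mem_nhds (by simp only [mem_setOf_eq]; linarith)
      filter_upwards [hm] with z hz
      rw [hΦ]
      simp only
      rw [if_neg (not_le.mpr hz)]
  have hsum : LSeriesSummable (LSeries.logMul D.b) (1 / 2 : ℝ) :=
    LSeriesSummable_of_abscissaOfAbsConv_lt_re (abs_lt_of_le hb2 (by simpa using hθ1))
  set S := ∑' n, ‖LSeries.term (LSeries.logMul D.b) (1 / 2 : ℝ) n‖ with hS
  have hΦb : Bornology.IsBounded (range Φ) := by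
    rw [isBounded_iff_forall_norm_le]
    refine ⟨‖l + starRingEnd ℂ l‖ + S, ?_⟩
    rintro _ ⟨s, rfl⟩
    rw [hΦ]
    simp only
    split_ifs with h
    · linarith [norm_LSeries_le hsum h, norm_nonneg (l + starRingEnd ℂ l)]
    · refine (norm_sub_le _ _).trans ?_
      rw [norm_conj]
      gcongr
      exact norm_LSeries_le hsum (by simp; linarith)
  have hconst : ∀ x : ℝ, 1 / 2 ≤ x → B' x = Φ 0 := by
    intro x hx
    rw [← hΦd.apply_eq_apply_of_bounded hΦb x 0, hΦ]
    simp only [ofReal_re]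
    rw [if_pos hx]
  have htop : LSeries.abscissaOfAbsConv (LSeries.logMul D.b) < ⊤ :=
    hb2.trans_lt (EReal.coe_lt_top _)
  have hlim := LSeries.tendsto_atTop htop
  have hΦ0 : Φ 0 = 0 := by
    have e : (fun x : ℝ => B' x) =ᶠ[atTop] fun _ => Φ 0 := by
      filter_upwards [eventually_ge_atTop (1 / 2)] with x hx using hconst x hx
    have := tendsto_nhds_unique (hlim.congr' e) tendsto_const_nhds
    rw [← this]
    simp [LSeries.logMul]
  have hz := (LSeries_eventually_eq_zero_iff' (f := LSeries.logMul D.b)).mp (by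
    filter_upwards [eventually_ge_atTop (1 / 2)] with x hx
    rw [Pi.zero_apply, ← hΦ0]
    exact hconst x hx)
  have hz' := hz.resolve_right htop.ne
  intro n hn
  have h1 := D.log_rec (n := n) (by omega)
  rw [LSeries.convolution_def] at h1
  simp only at h1
  rw [Finset.sum_eq_zero (fun p hp => by
    rw [hz' p.1 (Nat.left_ne_zero_of_mem_divisorsAntidiagonal hp), zero_mul])] at h1
  refine (mul_eq_zero.mp h1).resolve_left ?_
  rw [← natCast_log, ofReal_eq_zero]
  apply (Real.log_pos _).ne'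
  exact_mod_cast hn

end Dat

lemma deg_add {a f g : ℕ → ℂ} (A : Dat a) (F : Dat f) (G : Dat g)
    (h : ∀ s : ℂ, 1 < s.re → LSeries a s = LSeries f s * LSeries g s) :
    ∑ j, F.lam j + ∑ j, G.lam j ≤ ∑ j, A.lam j := by
  have key : (fun s => (s - 1) ^ (F.m + G.m) * A.G s) =
      fun s => (s - 1) ^ A.m * (F.G s * G.G s) := by
    apply entire_eq (U := {s : ℂ | 1 < s.re}) (z := 2)
    · exact Differentiable.mul (by fun_prop) A.Gd
    · exact Differentiable.mul (by fun_prop) (F.Gd.mul G.Gd)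
    · exact isOpen_lt continuous_const continuous_re
    · simp
    · intro s hs
      rw [A.Geq s hs, F.Geq s hs, G.Geq s hs, h s hs]
      ring
  have hN : ∀ N : ℕ, 1 ≤ N → (2 * N + 1) * (∑ j, F.lam j + ∑ j, G.lam j) - (F.k + G.k) ≤
      (2 * N + 1) * ∑ j, A.lam j + A.k := by
    intro N hN
    have h1 := (F.growth N hN).mul (G.growth N hN)
    have h2 := A.growth N hN
    rw [← mul_add] at h1
    refine TS.le_of_eq ?_ h2
    convert h1 using 2 with t
    have h3 := congrArg norm (congrFun key (((-N : ℝ) : ℂ) + t * I))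
    simp only [norm_mul, norm_pow, pow_add] at h3
    have : ‖((-N : ℝ) : ℂ) + t * I - 1‖ ≠ 0 := norm_ne_zero_iff.mpr (sub_ne_zero.mpr (line_ne N t))
    field_simp
    linear_combination h3
  by_contra hlt
  have hpos : 0 < ∑ j, F.lam j + ∑ j, G.lam j - ∑ j, A.lam j := by linarith
  obtain ⟨N, hN'⟩ := exists_nat_gt
    ((F.k + G.k + A.k : ℝ) / (∑ j, F.lam j + ∑ j, G.lam j - ∑ j, A.lam j))
  rw [div_lt_iff₀ hpos] at hN'
  have := hN (N + 1) (by omega)
  push_cast at this
  have : (0 : ℝ) ≤ N := by positivity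
  nlinarith

lemma deg_ge {a : ℕ → ℂ} (ha1 : a 1 = 1) (A : Dat a) (hne : ¬ ∀ n : ℕ, 2 ≤ n → a n = 0) :
    1 / 8 ≤ ∑ j, A.lam j := by
  by_contra h
  exact hne (A.trivial_of_k ha1 (A.k_zero (not_le.mp h)))

lemma coef_prime {a f g : ℕ → ℂ} (ha : IsSel a) (hf : IsSel f) (hg : IsSel g)
    (h : ∀ s : ℂ, 1 < s.re → LSeries a s = LSeries f s * LSeries g s) {p : ℕ} (hp : p.Prime) :
    a p = f p + g p := by
  have a1 := (abs_le_one (sel_summable ha)).trans_lt (EReal.coe_lt_top _)
  have f1 := (abs_le_one (sel_summable hf)).trans_lt (EReal.coe_lt_top _)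
  have g1 := (abs_le_one (sel_summable hg)).trans_lt (EReal.coe_lt_top _)
  have := LSeries.eq_of_LSeries_eventually_eq (f := a) (g := LSeries.convolution f g) a1
    ((LSeries.abscissaOfAbsConv_convolution_le _ _).trans_lt (max_lt f1 g1)) (by
      filter_upwards [eventually_gt_atTop 1] with x hx
      have hx' : 1 < (x : ℂ).re := by simpa using hx
      rw [LSeries_convolution' (sel_summable hf x hx') (sel_summable hg x hx'), h x hx'])
    hp.ne_zero
  rw [this, LSeries.convolution_def]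
  simp only
  rw [Nat.sum_divisorsAntidiagonal (fun x y => f x * g y), hp.divisors,
    Finset.sum_pair hp.one_lt.ne, Nat.div_one, Nat.div_self hp.pos, hf.1, hg.1]
  ring

lemma factors_aux (n : ℕ) : ∀ (a : ℕ → ℂ), IsSel a → (¬ ∀ n : ℕ, 2 ≤ n → a n = 0) →
    ∀ A : Dat a, ∑ j, A.lam j < n / 8 →
    ∃ (r : ℕ) (f : Fin r → ℕ → ℂ), (∀ i, IsPrim (f i)) ∧
      ∀ p : ℕ, p.Prime → a p = ∑ i, f i p := by
  induction n with
  | zero =>
    intro a ha hne A hA
    have := deg_ge ha.1 A hne
    simp at hA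
    linarith
  | succ n ih =>
    intro a ha hne A hA
    by_cases hp : IsPrim a
    · exact ⟨1, fun _ => a, fun _ => hp, fun p _ => by simp⟩
    · have hne' : ∃ n : ℕ, 2 ≤ n ∧ a n ≠ 0 := by
        by_contra h
        push Not at h
        exact hne h
      have : ∃ f g : ℕ → ℂ, IsSel f ∧ IsSel g ∧
          (∀ s : ℂ, 1 < s.re → LSeries a s = LSeries f s * LSeries g s) ∧
          (¬ ∀ n : ℕ, 2 ≤ n → f n = 0) ∧ (¬ ∀ n : ℕ, 2 ≤ n → g n = 0) := by
        by_contra h
        apply hp
        refine ⟨ha, hne', fun f g hf hg hfg => ?_⟩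
        by_contra h2
        rw [not_or] at h2
        exact h ⟨f, g, hf, hg, hfg, h2.1, h2.2⟩
      obtain ⟨f, g, hf, hg, hfg, f0, g0⟩ := this
      obtain ⟨F⟩ := exists_dat hf
      obtain ⟨G⟩ := exists_dat hg
      have e1 := deg_add A F G hfg
      have e2 := deg_ge hf.1 F f0
      have e3 := deg_ge hg.1 G g0
      push_cast at hA
      obtain ⟨r1, u, hu, hu'⟩ := ih f hf f0 F (by linarith)
      obtain ⟨r2, v, hv, hv'⟩ := ih g hg g0 G (by linarith)
      refine ⟨r1 + r2, Fin.append u v, fun i => ?_, fun p hp => ?_⟩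
      · refine Fin.addCases (fun i => ?_) (fun i => ?_) i
        · rw [Fin.append_left]; exact hu i
        · rw [Fin.append_right]; exact hv i
      · rw [coef_prime ha hf hg hfg hp, hu' p hp, hv' p hp, Fin.sum_univ_add]
        simp only [Fin.append_left, Fin.append_right]

end Pool.Agent.H121Z.Sel

namespace Pool.Agent.H520Z.Sel

open MeasureTheory Set

theorem exists_prim_factors (a : ℕ → ℂ) (ha : IsSel a) (hne : ∃ n : ℕ, 2 ≤ n ∧ a n ≠ 0) :
    ∃ (r : ℕ) (f : Fin r → ℕ → ℂ), (∀ i, IsPrim (f i)) ∧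
      ∀ p : ℕ, p.Prime → a p = ∑ i, f i p := by
  obtain ⟨A⟩ := Pool.Agent.H121Z.Sel.exists_dat ha
  obtain ⟨n, hn⟩ := exists_nat_gt (8 * ∑ j, A.lam j)
  refine Pool.Agent.H121Z.Sel.factors_aux n a ha ?_ A (by linarith)
  obtain ⟨m, h1, h2⟩ := hne
  exact fun h => h2 (h m h1)

end Pool.Agent.H520Z.Sel
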