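import Mathlib

set_option autoImplicit false

namespace Pool.Agent.H121Z.Tor

/-- polynomial expressions -/
inductive E where
  | c (z : ℤ) : E
  | v (n : ℕ) : E
  | add (a b : E) : E
  | mul (a b : E) : E

namespace E

/-- evaluation -/
def ev (ρ : ℕ → ℝ) : E → ℝ
  | c z => z
  | v n => ρ n
  | add a b => a.ev ρ + b.ev ρ
  | mul a b => a.ev ρ * b.ev ρ

/-- difference -/
def sub (a b : E) : E := add a (mul (c (-1)) b)

lemma ev_sub (ρ : ℕ → ℝ) (a b : E) : (sub a b).ev ρ = a.ev ρ - b.ev ρ := by
  simp [sub, ev]; ring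

/-- substitution -/
def sb (σ : ℕ → E) : E → E
  | c z => c z
  | v n => σ n
  | add a b => add (a.sb σ) (b.sb σ)
  | mul a b => mul (a.sb σ) (b.sb σ)

lemma ev_sb (ρ : ℕ → ℝ) (σ : ℕ → E) (e : E) : (e.sb σ).ev ρ = e.ev fun n => (σ n).ev ρ := by
  induction e with
  | c z => rfl
  | v n => rfl
  | add a b ha hb => simp [sb, ev, ha, hb]
  | mul a b ha hb => simp [sb, ev, ha, hb]

/-- all variables are below `N` -/
def lt (N : ℕ) : E → Bool
  | c _ => true
  | v n => decide (n < N)
  | add a b => a.lt N && b.lt N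
  | mul a b => a.lt N && b.lt N

lemma ev_congr {N : ℕ} {ρ ρ' : ℕ → ℝ} (h : ∀ n < N, ρ n = ρ' n) (e : E) (he : e.lt N = true) :
    e.ev ρ = e.ev ρ' := by
  induction e with
  | c z => rfl
  | v n => exact h n (by simpa [lt] using he)
  | add a b ha hb =>
    simp only [lt, Bool.and_eq_true] at he
    simp [ev, ha he.1, hb he.2]
  | mul a b ha hb =>
    simp only [lt, Bool.and_eq_true] at he
    simp [ev, ha he.1, hb he.2]

/-- first frequency vector -/
def fa (k : Fin 4) : ℤ := if k = 0 then 2 else if k = 1 then 1 else 0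

/-- second frequency vector -/
def fb (k : Fin 4) : ℤ := if k = 0 then 1 else if k = 1 then 2 else 0

/-- derivative of a variable -/
def dv (k : Fin 4) : ℕ → E
  | 0 => mul (c (-fa k)) (v 1)
  | 1 => mul (c (fa k)) (v 0)
  | 2 => mul (c (-fb k)) (v 3)
  | 3 => mul (c (fb k)) (v 2)
  | 4 => c (if k = 2 then 1 else 0)
  | 5 => c (if k = 3 then 1 else 0)
  | _ => c 0

/-- formal derivative -/
def D (k : Fin 4) : E → E
  | c _ => c 0
  | v n => dv k n
  | add a b => add (a.D k) (b.D k)
  | mul a b => add (mul (a.D k) b) (mul a (b.D k))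

lemma D_lt (k : Fin 4) (e : E) (he : e.lt 7 = true) : (e.D k).lt 7 = true := by
  induction e with
  | c z => rfl
  | v n =>
    rcases n with _ | _ | _ | _ | _ | _ | n <;> simp [D, dv, lt]
  | add a b ha hb =>
    simp only [lt, Bool.and_eq_true] at he
    simp [D, lt, ha he.1, hb he.2]
  | mul a b ha hb =>
    simp only [lt, Bool.and_eq_true] at he
    simp [D, lt, ha he.1, hb he.2, he.1, he.2]

lemma continuous_ev {X : Type} [TopologicalSpace X] {ρ : X → ℕ → ℝ}
    (h : ∀ n, Continuous fun x => ρ x n) (e : E) : Continuous fun x => e.ev (ρ x) := by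
  induction e with
  | c z => exact continuous_const
  | v n => exact h n
  | add a b ha hb => exact ha.add hb
  | mul a b ha hb => exact ha.mul hb

lemma contDiff_ev {ρ : (Fin 4 → ℝ) → ℕ → ℝ} {N : ℕ}
    (h : ∀ n, ContDiff ℝ N fun x => ρ x n) (e : E) : ContDiff ℝ N fun x => e.ev (ρ x) := by
  induction e with
  | c z => exact contDiff_const
  | v n => exact h n
  | add a b ha hb => exact ha.add hb
  | mul a b ha hb => exact ha.mul hb

lemma fderiv_ev {ρ : (Fin 4 → ℝ) → ℕ → ℝ} (h : ∀ n, ContDiff ℝ (1 : ℕ) fun x => ρ x n)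
    (L : ℝ) (k : Fin 4) (w : Fin 4 → ℝ)
    (hd : ∀ n, fderiv ℝ (fun x => ρ x n) w (Pi.single k 1) = L * (dv k n).ev (ρ w)) (e : E) :
    fderiv ℝ (fun x => e.ev (ρ x)) w (Pi.single k 1) = L * (e.D k).ev (ρ w) := by
  have hdiff : ∀ e : E, DifferentiableAt ℝ (fun x => e.ev (ρ x)) w := fun e =>
    (contDiff_ev h e).differentiable (by simp) w
  induction e with
  | c z => simp [ev, D]
  | v n => exact hd n
  | add a b ha hb =>
    simp only [ev, D]
    rw [fderiv_fun_add (hdiff a) (hdiff b), ContinuousLinearMap.add_apply, ha, hb]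
    ring
  | mul a b ha hb =>
    simp only [ev, D]
    rw [fderiv_fun_mul (hdiff a) (hdiff b)]
    simp only [ContinuousLinearMap.add_apply, ContinuousLinearMap.smul_apply, smul_eq_mul, ha, hb]
    ring

end E

/-- monomial evaluation -/
def mev (ρ : ℕ → ℝ) : ℕ → List ℕ → ℝ
  | _, [] => 1
  | i, x :: a => ρ i ^ x * mev ρ (i + 1) a

/-- product of monomials -/
def madd : List ℕ → List ℕ → List ℕ
  | [], b => b
  | x :: a, [] => x :: a
  | x :: a, y :: b => (x + y) :: madd a b

lemma mev_madd (ρ : ℕ → ℝ) (a : List ℕ) : ∀ (i : ℕ) (b : List ℕ),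
    mev ρ i (madd a b) = mev ρ i a * mev ρ i b := by
  induction a with
  | nil => intro i b; simp [madd, mev]
  | cons x a ih =>
    intro i b
    cases b with
    | nil => simp [madd, mev]
    | cons y b => simp only [madd, mev, ih, pow_add]; ring

/-- comparison of monomials: 0 less, 1 equal, 2 greater -/
def mcmp : List ℕ → List ℕ → ℕ
  | [], [] => 1
  | [], _ :: _ => 0
  | _ :: _, [] => 2
  | x :: a, y :: b => if Nat.blt x y then 0 else if Nat.beq x y then mcmp a b else 2

lemma mcmp_eq (a : List ℕ) : ∀ b, mcmp a b = 1 → a = b := by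
  induction a with
  | nil => intro b h; cases b with
    | nil => rfl
    | cons y b => simp [mcmp] at h
  | cons x a ih =>
    intro b h
    cases b with
    | nil => simp [mcmp] at h
    | cons y b =>
      simp only [mcmp] at h
      by_cases h1 : Nat.blt x y = true
      · simp [h1] at h
      · by_cases h2 : Nat.beq x y = true
        · rw [if_neg h1, if_pos h2] at h
          rw [Nat.eq_of_beq_eq_true h2, ih b h]
        · rw [if_neg h1, if_neg h2] at h
          simp at h

/-- polynomial evaluation -/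
def pev (ρ : ℕ → ℝ) : List (List ℕ × ℤ) → ℝ
  | [] => 0
  | t :: p => t.2 * mev ρ 0 t.1 + pev ρ p

/-- inner loop of the merge -/
def paux (t : List ℕ × ℤ) (p : List (List ℕ × ℤ))
    (r : List (List ℕ × ℤ) → List (List ℕ × ℤ)) : List (List ℕ × ℤ) → List (List ℕ × ℤ)
  | [] => t :: p
  | s :: q =>
    match mcmp t.1 s.1 with
    | 0 => t :: r (s :: q)
    | 1 => if t.2 + s.2 = 0 then r q else (t.1, t.2 + s.2) :: r q
    | _ => s :: paux t p r q

/-- sum of polynomials -/
def padd : List (List ℕ × ℤ) → List (List ℕ × ℤ) → List (List ℕ × ℤ)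
  | [] => fun q => q
  | t :: p => paux t p (padd p)

lemma pev_padd (ρ : ℕ → ℝ) (p : List (List ℕ × ℤ)) : ∀ q,
    pev ρ (padd p q) = pev ρ p + pev ρ q := by
  induction p with
  | nil => intro q; simp [padd, pev]
  | cons t p ih =>
    intro q
    induction q with
    | nil => simp [padd, paux, pev]
    | cons s q ihq =>
      simp only [padd] at ihq ⊢
      rw [paux]
      split
      · simp only [pev, ih]; ring
      · rename_i h
        have e := mcmp_eq _ _ h
        split_ifs with h0
        · have h1 : ((t.2 : ℝ) + s.2) = 0 := by exact_mod_cast h0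
          simp only [pev, ih, ← e]
          linear_combination (-mev ρ 0 t.1) * h1
        · simp only [pev, ih, ← e]
          push_cast
          ring
      · simp only [pev] at ihq ⊢
        rw [ihq]; ring

/-- product with a term -/
def pmul1 (t : List ℕ × ℤ) : List (List ℕ × ℤ) → List (List ℕ × ℤ)
  | [] => []
  | s :: q => (madd t.1 s.1, t.2 * s.2) :: pmul1 t q

lemma pev_pmul1 (ρ : ℕ → ℝ) (t : List ℕ × ℤ) (q : List (List ℕ × ℤ)) :
    pev ρ (pmul1 t q) = t.2 * mev ρ 0 t.1 * pev ρ q := by
  induction q with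
  | nil => simp [pmul1, pev]
  | cons s q ih => simp only [pmul1, pev, ih, mev_madd]; push_cast; ring

/-- product of polynomials -/
def pmul : List (List ℕ × ℤ) → List (List ℕ × ℤ) → List (List ℕ × ℤ)
  | [], _ => []
  | t :: p, q => padd (pmul1 t q) (pmul p q)

lemma pev_pmul (ρ : ℕ → ℝ) (p q : List (List ℕ × ℤ)) :
    pev ρ (pmul p q) = pev ρ p * pev ρ q := by
  induction p with
  | nil => simp [pmul, pev]
  | cons t p ih => simp only [pmul, pev_padd, pev_pmul1, ih, pev]; ring

/-- the monomial of a variable -/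
def mvar : ℕ → List ℕ
  | 0 => [1]
  | n + 1 => 0 :: mvar n

lemma mev_mvar (ρ : ℕ → ℝ) (n : ℕ) : ∀ i, mev ρ i (mvar n) = ρ (i + n) := by
  induction n with
  | zero => intro i; simp [mvar, mev]
  | succ n ih => intro i; simp only [mvar, mev, ih, pow_zero, one_mul]; congr 1; ring

/-- normal form -/
def nf : E → List (List ℕ × ℤ)
  | .c z => if z = 0 then [] else [([], z)]
  | .v n => [(mvar n, 1)]
  | .add a b => padd (nf a) (nf b)
  | .mul a b => pmul (nf a) (nf b)

lemma pev_nf (ρ : ℕ → ℝ) (e : E) : pev ρ (nf e) = e.ev ρ := by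
  induction e with
  | c z =>
    simp only [nf]
    split_ifs with h
    · simp [pev, E.ev, h]
    · simp [pev, E.ev, mev]
  | v n => simp [nf, pev, mev_mvar, E.ev]
  | add a b ha hb => simp [nf, pev_padd, ha, hb, E.ev]
  | mul a b ha hb => simp [nf, pev_pmul, ha, hb, E.ev]

lemma ev_eq_of_nf {a b : E} (h : nf (a.sub b) = []) (ρ : ℕ → ℝ) : a.ev ρ = b.ev ρ := by
  have := pev_nf ρ (a.sub b)
  rw [h, E.ev_sub] at this
  simp only [pev] at this
  linarith

lemma continuous_mev {X : Type} [TopologicalSpace X] {ρ : X → ℕ → ℝ}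
    (h : ∀ n, Continuous fun x => ρ x n) (m : List ℕ) : ∀ i, Continuous fun x => mev (ρ x) i m := by
  induction m with
  | nil => intro i; exact continuous_const
  | cons y m ih => intro i; exact ((h i).pow y).mul (ih _)

lemma continuous_pev {X : Type} [TopologicalSpace X] {ρ : X → ℕ → ℝ}
    (h : ∀ n, Continuous fun x => ρ x n) (p : List (List ℕ × ℤ)) :
    Continuous fun x => pev (ρ x) p := by
  induction p with
  | nil => exact continuous_const
  | cons t p ih => exact (continuous_const.mul (continuous_mev h _ _)).add ih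

lemma tube {X : Type} [TopologicalSpace X] {K : Set X} (hK : IsCompact K) (f : ℝ × X → ℝ)
    (hc : ∀ x ∈ K, ContinuousAt f (0, x)) (hp : ∀ x ∈ K, 0 < f (0, x)) :
    ∃ r : ℝ, 0 < r ∧ ∀ t, |t| < r → ∀ x ∈ K, 0 < f (t, x) := by
  have := hK.eventually_forall_of_forall_eventually (x₀ := (0 : ℝ))
    (P := fun t x => 0 < f (t, x)) (fun x hx => (hc x hx).eventually (lt_mem_nhds (hp x hx)))
  obtain ⟨r, hr, h⟩ := Metric.eventually_nhds_iff.mp this
  exact ⟨r, hr, fun t ht => h (by simpa [Real.dist_eq] using ht)⟩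

end Pool.Agent.H121Z.Tor
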