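import Mathlib

set_option autoImplicit false

namespace Pool.Agent.H121Z.Tor

/-- Christoffel symbols of the first kind from the 1-jet -/
noncomputable def Gam (dG : Fin 4 → Fin 4 → Fin 4 → ℝ) (a k l : Fin 4) : ℝ :=
  (dG k l a + dG l k a - dG a k l) / 2

/-- second order part of the curvature -/
noncomputable def Sec (ddG : Fin 4 → Fin 4 → Fin 4 → Fin 4 → ℝ) (i k l m : Fin 4) : ℝ :=
  (ddG l k i m + ddG m i k l - ddG m k i l - ddG l i k m) / 2

/-- curvature tensor from the jets -/
noncomputable def Riem (M : Fin 4 → Fin 4 → ℝ) (dG : Fin 4 → Fin 4 → Fin 4 → ℝ)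
    (ddG : Fin 4 → Fin 4 → Fin 4 → Fin 4 → ℝ) (i k l m : Fin 4) : ℝ :=
  Sec ddG i k l m + ∑ a, ∑ b, M a b * (Gam dG a k l * Gam dG b i m - Gam dG a k m * Gam dG b i l)

section
variable (G M : Fin 4 → Fin 4 → ℝ) (dG dT : Fin 4 → Fin 4 → Fin 4 → ℝ)
  (ddG ddT : Fin 4 → Fin 4 → Fin 4 → Fin 4 → ℝ) (L μ ν : Fin 4 → ℝ)
  (dl : Fin 4 → Fin 4 → ℝ) (ddl : Fin 4 → Fin 4 → Fin 4 → ℝ)

lemma gam_tens (hG : ∀ i j, G i j = G j i)
    (hdl : ∀ k i, dl k i = if k = i then μ i else 0)
    (hdT : ∀ k i j, dT k i j =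
      L k * ((dl k i * L j + L i * dl k j) * G i j + L i * L j * dG k i j)) (a k l : Fin 4) :
    Gam dT a k l = L a * (L k * L l * Gam dG a k l +
      (if k = l then L k * μ k else 0) * G a k) := by
  simp only [Gam, hdT, hdl]
  by_cases h1 : k = l
  · subst h1
    by_cases h2 : k = a
    · subst h2; simp; ring
    · simp [h2, Ne.symm h2, hG k a]; ring
  · by_cases h2 : k = a
    · subst h2; simp [h1, Ne.symm h1, hG l k]; ring
    · by_cases h3 : l = a
      · subst h3; simp [h1, Ne.symm h1]; ring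
      · simp [h1, h2, h3, Ne.symm h1, Ne.symm h2, Ne.symm h3]; ring

lemma prod_tens (hL : ∀ i, L i ≠ 0)
    (hM : ∀ b k, ∑ a, M a b * G a k = if b = k then 1 else 0)
    (hM' : ∀ a i, ∑ b, M a b * G b i = if a = i then 1 else 0)
    (X Y : Fin 4 → ℝ) (α β p q : ℝ) (k i : Fin 4) :
    ∑ a, ∑ b, M a b / (L a * L b) * ((L a * (α * X a + p * G a k)) * (L b * (β * Y b + q * G b i))) =
      α * β * (∑ a, ∑ b, M a b * (X a * Y b)) + α * q * X i + p * β * Y k + p * q * G k i := by
  have e : ∀ a b, M a b / (L a * L b) *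
      ((L a * (α * X a + p * G a k)) * (L b * (β * Y b + q * G b i))) =
      M a b * ((α * X a + p * G a k) * (β * Y b + q * G b i)) := by
    intro a b
    have := hL a
    have := hL b
    field_simp
  simp only [e]
  have e2 : ∑ a, ∑ b, M a b * ((α * X a + p * G a k) * (β * Y b + q * G b i)) =
      α * β * (∑ a, ∑ b, M a b * (X a * Y b)) + α * q * (∑ a, (∑ b, M a b * G b i) * X a) +
        p * β * (∑ b, (∑ a, M a b * G a k) * Y b) +
        p * q * (∑ b, (∑ a, M a b * G a k) * G b i) := by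
    simp only [Fin.sum_univ_four]
    ring
  rw [e2]
  simp [hM, hM']

set_option maxHeartbeats 8000000 in
lemma sec_tens (hG : ∀ i j, G i j = G j i) (hdG : ∀ k i j, dG k i j = dG k j i)
    (hdl : ∀ k i, dl k i = if k = i then μ i else 0)
    (hddl : ∀ l k i, ddl l k i = if k = i ∧ l = i then ν i else 0)
    (hddT : ∀ l k i j, ddT l k i j = L l *
      (dl l k * ((dl k i * L j + L i * dl k j) * G i j + L i * L j * dG k i j) +
        L k * (((ddl l k i * L j + dl k i * dl l j) + (dl l i * dl k j + L i * ddl l k j)) * G i j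
          + (dl k i * L j + L i * dl k j) * dG l i j +
          ((dl l i * L j + L i * dl l j) * dG k i j + L i * L j * ddG l k i j))))
    (i k l m : Fin 4) :
    Sec ddT i k l m +
      (L k * L l * (if i = m then L i * μ i else 0) * Gam dG i k l +
        (if k = l then L k * μ k else 0) * (L i * L m) * Gam dG k i m +
        (if k = l then L k * μ k else 0) * (if i = m then L i * μ i else 0) * G k i) -
      (L k * L m * (if i = l then L i * μ i else 0) * Gam dG i k m +
        (if k = m then L k * μ k else 0) * (L i * L l) * Gam dG k i l +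
        (if k = m then L k * μ k else 0) * (if i = l then L i * μ i else 0) * G k i) =
      L i * L k * L l * L m * Sec ddG i k l m := by
  simp only [Sec, Gam, hddT, hdl, hddl]
  have g1 := hG 1 0
  have g2 := hG 2 0
  have g3 := hG 3 0
  have g4 := hG 2 1
  have g5 := hG 3 1
  have g6 := hG 3 2
  have d1 := fun k => hdG k 1 0
  have d2 := fun k => hdG k 2 0
  have d3 := fun k => hdG k 3 0
  have d4 := fun k => hdG k 2 1
  have d5 := fun k => hdG k 3 1
  have d6 := fun k => hdG k 3 2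
  fin_cases i <;> fin_cases k <;> fin_cases l <;> fin_cases m <;>
    simp [g1, g2, g3, g4, g5, g6, d1, d2, d3, d4, d5, d6] <;> ring

lemma riem_tens (hL : ∀ i, L i ≠ 0) (hG : ∀ i j, G i j = G j i)
    (hdG : ∀ k i j, dG k i j = dG k j i)
    (hM : ∀ b k, ∑ a, M a b * G a k = if b = k then 1 else 0)
    (hM' : ∀ a i, ∑ b, M a b * G b i = if a = i then 1 else 0)
    (hdl : ∀ k i, dl k i = if k = i then μ i else 0)
    (hddl : ∀ l k i, ddl l k i = if k = i ∧ l = i then ν i else 0)
    (hdT : ∀ k i j, dT k i j =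
      L k * ((dl k i * L j + L i * dl k j) * G i j + L i * L j * dG k i j))
    (hddT : ∀ l k i j, ddT l k i j = L l *
      (dl l k * ((dl k i * L j + L i * dl k j) * G i j + L i * L j * dG k i j) +
        L k * (((ddl l k i * L j + dl k i * dl l j) + (dl l i * dl k j + L i * ddl l k j)) * G i j
          + (dl k i * L j + L i * dl k j) * dG l i j +
          ((dl l i * L j + L i * dl l j) * dG k i j + L i * L j * ddG l k i j))))
    (i k l m : Fin 4) :
    Riem (fun a b => M a b / (L a * L b)) dT ddT i k l m =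
      L i * L k * L l * L m * Riem M dG ddG i k l m := by
  have hs := sec_tens G dG ddG ddT L μ ν dl ddl hG hdG hdl hddl hddT i k l m
  have p1 := prod_tens G M L hL hM hM' (fun a => Gam dG a k l) (fun b => Gam dG b i m)
    (L k * L l) (L i * L m) (if k = l then L k * μ k else 0) (if i = m then L i * μ i else 0) k i
  have p2 := prod_tens G M L hL hM hM' (fun a => Gam dG a k m) (fun b => Gam dG b i l)
    (L k * L m) (L i * L l) (if k = m then L k * μ k else 0) (if i = l then L i * μ i else 0) k i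
  simp only [Riem, gam_tens G dG dT L μ dl hG hdl hdT, mul_sub, Finset.sum_sub_distrib]
  rw [p1, p2]
  linear_combination hs

end

/-- first index of a pair -/
def pI : Fin 6 → Fin 4 := ![0, 0, 0, 1, 1, 2]

/-- second index of a pair -/
def pJ : Fin 6 → Fin 4 := ![1, 2, 3, 2, 3, 3]

lemma riem_anti2 (M : Fin 4 → Fin 4 → ℝ) (dG : Fin 4 → Fin 4 → Fin 4 → ℝ)
    (ddG : Fin 4 → Fin 4 → Fin 4 → Fin 4 → ℝ) (i k l m : Fin 4) :
    Riem M dG ddG i k m l = -Riem M dG ddG i k l m := by
  simp only [Riem, Sec, Fin.sum_univ_four]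
  ring

lemma riem_anti1 (M : Fin 4 → Fin 4 → ℝ) (hM : ∀ a b, M a b = M b a)
    (dG : Fin 4 → Fin 4 → Fin 4 → ℝ)
    (ddG : Fin 4 → Fin 4 → Fin 4 → Fin 4 → ℝ) (i k l m : Fin 4) :
    Riem M dG ddG k i l m = -Riem M dG ddG i k l m := by
  simp only [Riem, Sec, Fin.sum_univ_four, hM 1 0, hM 2 0, hM 3 0, hM 2 1, hM 3 1, hM 3 2]
  ring

lemma quad_wedge (R : Fin 4 → Fin 4 → Fin 4 → Fin 4 → ℝ)
    (h1 : ∀ i k l m, R k i l m = -R i k l m) (h2 : ∀ i k l m, R i k m l = -R i k l m)
    (u v : Fin 4 → ℝ) :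
    ∑ i, ∑ k, ∑ l, ∑ m, R i k l m * u i * v k * u l * v m =
      ∑ I, ∑ J, R (pI I) (pJ I) (pI J) (pJ J) *
        (u (pI I) * v (pJ I) - u (pJ I) * v (pI I)) *
        (u (pI J) * v (pJ J) - u (pJ J) * v (pI J)) := by
  have z1 : ∀ i l m, R i i l m = 0 := fun i l m => by linarith [h1 i i l m]
  have z2 : ∀ i k l, R i k l l = 0 := fun i k l => by linarith [h2 i k l l]
  simp only [Fin.sum_univ_four, Fin.sum_univ_six, z1, z2, h1 0 1, h1 0 2, h1 0 3, h1 1 2, h1 1 3,
    h1 2 3, fun i k => h2 i k 0 1, fun i k => h2 i k 0 2, fun i k => h2 i k 0 3,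
    fun i k => h2 i k 1 2, fun i k => h2 i k 1 3, fun i k => h2 i k 2 3]
  simp only [pI, pJ, Matrix.cons_val]
  ring

lemma wedge_ne {u v : Fin 4 → ℝ} (h : LinearIndependent ℝ ![u, v]) :
    (fun I => u (pI I) * v (pJ I) - u (pJ I) * v (pI I)) ≠ 0 := by
  intro h0
  have e0 := congrFun h0 0
  have e1 := congrFun h0 1
  have e2 := congrFun h0 2
  have e3 := congrFun h0 3
  have e4 := congrFun h0 4
  have e5 := congrFun h0 5
  simp only [pI, pJ, Matrix.cons_val, Pi.zero_apply] at e0 e1 e2 e3 e4 e5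
  rw [LinearIndependent.pair_iff] at h
  have hu : ∀ i, u i = 0 := by
    intro i
    have := (h (v i) (-u i) (by
      funext k
      simp only [Pi.add_apply, Pi.smul_apply, smul_eq_mul, Pi.zero_apply]
      fin_cases i <;> fin_cases k <;> simp <;> linarith)).2
    linarith
  have := (h 1 0 (by funext k; simp [hu])).1
  norm_num at this

end Pool.Agent.H121Z.Tor
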