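import Pool.Agent.H121Z.TorA
import Pool.Agent.H121Z.TorB

set_option autoImplicit false

namespace Pool.Agent.H121Z.Tor

open E

/-- expression from a list of terms -/
def poly (p : List (ℤ × List ℕ)) : E :=
  p.foldr (fun t e => add (t.2.foldr (fun n x => mul (v n) x) (c t.1)) e) (c 0)

/-- the metric: variables 0..3 are cos A, sin A, cos B, sin B; 4, 5 are the normal
coordinates; 6 is a small parameter -/
def gU : ℕ → ℕ → E
  | 0, 0 => poly [(1, []), (-18, [5, 5, 6, 6]), (-4, [4, 4]), (36, [3, 3, 5, 5, 6, 6]),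
      (144, [3, 3, 4, 4, 6, 6]), (12, [2, 4, 5, 6]), (-192, [1, 3, 4, 4, 6, 6]),
      (342, [1, 1, 4, 4, 6, 6]), (-528, [0, 2, 4, 4, 6, 6])]
  | 0, 1 => poly [(117, [3, 3, 5, 5, 6, 6]), (36, [2, 4, 5, 6]), (72, [1, 3, 5, 5, 6, 6]),
      (72, [1, 3, 4, 4, 6, 6]), (117, [1, 1, 4, 4, 6, 6]), (36, [0, 4, 5, 6])]
  | 0, 2 => poly [(6, [3, 5, 6])]
  | 0, 3 => poly [(-6, [3, 4, 6])]
  | 1, 1 => poly [(1, []), (-4, [5, 5]), (-18, [4, 4, 6, 6]), (342, [3, 3, 5, 5, 6, 6]),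
      (-192, [1, 3, 5, 5, 6, 6]), (144, [1, 1, 5, 5, 6, 6]), (36, [1, 1, 4, 4, 6, 6]),
      (12, [0, 4, 5, 6]), (-528, [0, 2, 5, 5, 6, 6])]
  | 1, 2 => poly [(-6, [1, 5, 6])]
  | 1, 3 => poly [(6, [1, 4, 6])]
  | 2, 2 => poly [(1, []), (-1, [5, 5]), (-1, [4, 4])]
  | 3, 3 => poly [(1, []), (-1, [5, 5]), (-1, [4, 4])]
  | _, _ => c 0

/-- the symmetric metric -/
def gE (i j : Fin 4) : E := gU (min i.val j.val) (max i.val j.val)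

lemma gE_symm (i j : Fin 4) : gE i j = gE j i := by
  simp only [gE, min_comm i.val, max_comm i.val]

lemma gE_lt : ∀ i j, (gE i j).lt 7 = true := by decide +kernel

/-- metric values -/
def Gm (ρ : ℕ → ℝ) (i j : Fin 4) : ℝ := (gE i j).ev ρ

/-- first jet -/
def dGm (ρ : ℕ → ℝ) (k i j : Fin 4) : ℝ := ((gE i j).D k).ev ρ

/-- second jet -/
def ddGm (ρ : ℕ → ℝ) (l k i j : Fin 4) : ℝ := (((gE i j).D k).D l).ev ρ

/-- twice the Christoffel symbols -/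
def G2 (a k l : Fin 4) : E := (add ((gE l a).D k) ((gE k a).D l)).sub ((gE k l).D a)

/-- twice the second order part -/
def S2 (i k l m : Fin 4) : E :=
  ((add (((gE i m).D k).D l) (((gE k l).D i).D m)).sub (((gE i l).D k).D m)).sub
    (((gE k m).D i).D l)

lemma gam_eq (ρ : ℕ → ℝ) (a k l : Fin 4) : Gam (dGm ρ) a k l = (G2 a k l).ev ρ / 2 := by
  simp only [Gam, dGm, G2, ev_sub, ev]

lemma sec_eq (ρ : ℕ → ℝ) (i k l m : Fin 4) : Sec (ddGm ρ) i k l m = (S2 i k l m).ev ρ / 2 := by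
  simp only [Sec, ddGm, S2, ev_sub, ev]

/-- replace the normal coordinates by the direction -/
def s1 (n : ℕ) : E := if n = 4 then v 8 else if n = 5 then v 9 else v n

/-- polar form of the normal coordinates -/
def st (n : ℕ) : E := if n = 4 then mul (v 7) (v 8) else if n = 5 then mul (v 7) (v 9) else v n

/-- restriction to the torus -/
def s0 (n : ℕ) : E := if n = 4 ∨ n = 5 ∨ n = 7 then c 0 else v n

/-- rescaled tangential Christoffel symbols -/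
def gaE (a k l : Fin 4) : E :=
  if a.val < 2 then mul (v 7) ((G2 a k l).sb s1) else (G2 a k l).sb s1

lemma ev_st {ρ : ℕ → ℝ} (h4 : ρ 4 = ρ 7 * ρ 8) (h5 : ρ 5 = ρ 7 * ρ 9) (e : E) :
    (e.sb st).ev ρ = e.ev ρ := by
  rw [ev_sb]
  congr 1
  funext n
  unfold st
  split_ifs with h h'
  · rw [h, h4]; rfl
  · rw [h', h5]; rfl
  · rfl

lemma ev_s0 {ρ : ℕ → ℝ} (h4 : ρ 4 = 0) (h5 : ρ 5 = 0) (h7 : ρ 7 = 0) (e : E) :
    (e.sb s0).ev ρ = e.ev ρ := by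
  rw [ev_sb]
  congr 1
  funext n
  unfold s0
  split_ifs with h
  · rcases h with h | h | h <;> simp [h, ev, h4, h5, h7]
  · rfl

lemma chk_ga : ∀ a k l : Fin 4, k.val < 2 → l.val < 2 →
    nf (((G2 a k l).sb st).sub (mul (v 7) (gaE a k l))) = [] := by decide +kernel

lemma chk_s00 : nf (((S2 0 1 0 1).sb st).sub (mul (mul (v 7) (v 7)) ((S2 0 1 0 1).sb s1))) = [] := by
  decide +kernel

lemma chk_sa : ∀ l m : Fin 4, l.val < 2 → 2 ≤ m.val →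
    nf (((S2 0 1 l m).sb st).sub (mul (v 7) ((S2 0 1 l m).sb s1))) = [] ∧
    nf (((S2 l m 0 1).sb st).sub (mul (v 7) ((S2 l m 0 1).sb s1))) = [] := by decide +kernel

lemma chk_g0 : ∀ i j : Fin 4, nf (((gE i j).sb s0).sub (c (if i = j then 1 else 0))) = [] := by
  decide +kernel

/-- rescaled curvature entries -/
noncomputable def r00 (ρ : ℕ → ℝ) (M : Fin 4 → Fin 4 → ℝ) : ℝ :=
  ((S2 0 1 0 1).sb s1).ev ρ / 2 + ∑ a, ∑ b, M a b *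
    ((gaE a 1 0).ev ρ / 2 * ((gaE b 0 1).ev ρ / 2) - (gaE a 1 1).ev ρ / 2 * ((gaE b 0 0).ev ρ / 2))

/-- rescaled curvature entries -/
noncomputable def ra (ρ : ℕ → ℝ) (M : Fin 4 → Fin 4 → ℝ) (l m : Fin 4) : ℝ :=
  ((S2 0 1 l m).sb s1).ev ρ / 2 + ∑ a, ∑ b, M a b *
    ((gaE a 1 l).ev ρ / 2 * ((G2 b 0 m).ev ρ / 2) - (G2 a 1 m).ev ρ / 2 * ((gaE b 0 l).ev ρ / 2))

/-- rescaled curvature entries -/
noncomputable def rb (ρ : ℕ → ℝ) (M : Fin 4 → Fin 4 → ℝ) (l m : Fin 4) : ℝ :=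
  ((S2 l m 0 1).sb s1).ev ρ / 2 + ∑ a, ∑ b, M a b *
    ((G2 a m 0).ev ρ / 2 * ((gaE b l 1).ev ρ / 2) - (G2 a m 1).ev ρ / 2 * ((gaE b l 0).ev ρ / 2))

/-- curvature entries -/
noncomputable def rr (ρ : ℕ → ℝ) (M : Fin 4 → Fin 4 → ℝ) (i k l m : Fin 4) : ℝ :=
  (S2 i k l m).ev ρ / 2 + ∑ a, ∑ b, M a b *
    ((G2 a k l).ev ρ / 2 * ((G2 b i m).ev ρ / 2) - (G2 a k m).ev ρ / 2 * ((G2 b i l).ev ρ / 2))

lemma riem_eq (ρ : ℕ → ℝ) (M : Fin 4 → Fin 4 → ℝ) (i k l m : Fin 4) :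
    Riem M (dGm ρ) (ddGm ρ) i k l m = rr ρ M i k l m := by
  simp only [Riem, rr, gam_eq, sec_eq]

/-- the rescaled modified curvature operator -/
noncomputable def Q (ρ : ℕ → ℝ) (M : Fin 4 → Fin 4 → ℝ) (I J : Fin 6) : ℝ :=
  if I = 0 then (if J = 0 then r00 ρ M else if J = 5 then 0 else ra ρ M (pI J) (pJ J))
  else if J = 0 then (if I = 5 then 0 else rb ρ M (pI I) (pJ I))
  else rr ρ M (pI I) (pJ I) (pI J) (pJ J) +
    (if I = 2 ∧ J = 3 then -rr ρ M 0 1 2 3 else if I = 3 ∧ J = 2 then -rr ρ M 2 3 0 1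
      else if I = 1 ∧ J = 4 then rr ρ M 0 1 2 3 else if I = 4 ∧ J = 1 then rr ρ M 2 3 0 1 else 0)

section
variable {ρ : ℕ → ℝ} (h4 : ρ 4 = ρ 7 * ρ 8) (h5 : ρ 5 = ρ 7 * ρ 9)
include h4 h5

lemma G2_tan (a k l : Fin 4) (hk : k.val < 2) (hl : l.val < 2) :
    (G2 a k l).ev ρ = ρ 7 * (gaE a k l).ev ρ := by
  rw [← ev_st h4 h5, ev_eq_of_nf (chk_ga a k l hk hl)]
  rfl

lemma rr00 (M : Fin 4 → Fin 4 → ℝ) : rr ρ M 0 1 0 1 = ρ 7 ^ 2 * r00 ρ M := by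
  have h : (S2 0 1 0 1).ev ρ = ρ 7 * ρ 7 * ((S2 0 1 0 1).sb s1).ev ρ := by
    rw [← ev_st h4 h5, ev_eq_of_nf chk_s00]
    rfl
  simp only [rr, r00, h, fun a => G2_tan h4 h5 a 1 0 (by decide) (by decide),
    fun a => G2_tan h4 h5 a 0 1 (by decide) (by decide),
    fun a => G2_tan h4 h5 a 0 0 (by decide) (by decide),
    fun a => G2_tan h4 h5 a 1 1 (by decide) (by decide), Fin.sum_univ_four]
  ring

lemma rra (M : Fin 4 → Fin 4 → ℝ) (l m : Fin 4) (hl : l.val < 2) (hm : 2 ≤ m.val) :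
    rr ρ M 0 1 l m = ρ 7 * ra ρ M l m := by
  have h : (S2 0 1 l m).ev ρ = ρ 7 * ((S2 0 1 l m).sb s1).ev ρ := by
    rw [← ev_st h4 h5, ev_eq_of_nf (chk_sa l m hl hm).1]
    rfl
  simp only [rr, ra, h, fun a => G2_tan h4 h5 a 1 l (by decide) hl,
    fun a => G2_tan h4 h5 a 0 l (by decide) hl, Fin.sum_univ_four]
  ring

lemma rrb (M : Fin 4 → Fin 4 → ℝ) (l m : Fin 4) (hl : l.val < 2) (hm : 2 ≤ m.val) :
    rr ρ M l m 0 1 = ρ 7 * rb ρ M l m := by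
  have h : (S2 l m 0 1).ev ρ = ρ 7 * ((S2 l m 0 1).sb s1).ev ρ := by
    rw [← ev_st h4 h5, ev_eq_of_nf (chk_sa l m hl hm).2]
    rfl
  simp only [rr, rb, h, fun a => G2_tan h4 h5 a l 1 hl (by decide),
    fun a => G2_tan h4 h5 a l 0 hl (by decide), Fin.sum_univ_four]
  ring

lemma quad_scale (M : Fin 4 → Fin 4 → ℝ) (w ω : Fin 6 → ℝ) (e0 : w 0 = ω 0)
    (e1 : w 1 = ρ 7 * ω 1) (e2 : w 2 = ρ 7 * ω 2) (e3 : w 3 = ρ 7 * ω 3) (e4 : w 4 = ρ 7 * ω 4)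
    (e5 : w 5 = ρ 7 * ω 5) (hp : w 0 * w 5 - w 1 * w 4 + w 2 * w 3 = 0) :
    ∑ I, ∑ J, rr ρ M (pI I) (pJ I) (pI J) (pJ J) * w I * w J =
      ρ 7 ^ 2 * ∑ I, ∑ J, Q ρ M I J * ω I * ω J := by
  rw [e0, e1, e2, e3, e4, e5] at hp
  simp only [Fin.sum_univ_six, Q, e0, e1, e2, e3, e4, e5]
  simp only [pI, pJ, Matrix.cons_val, Fin.reduceEq, if_true, if_false, and_true, and_false,
    false_and, and_self, rr00 h4 h5 M, rra h4 h5 M 0 2 (by decide) (by decide),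
    rra h4 h5 M 0 3 (by decide) (by decide), rra h4 h5 M 1 2 (by decide) (by decide),
    rra h4 h5 M 1 3 (by decide) (by decide), rrb h4 h5 M 0 2 (by decide) (by decide),
    rrb h4 h5 M 0 3 (by decide) (by decide), rrb h4 h5 M 1 2 (by decide) (by decide),
    rrb h4 h5 M 1 3 (by decide) (by decide)]
  linear_combination (rr ρ M 0 1 2 3 + rr ρ M 2 3 0 1) * hp

end

/-- sum over four indices -/
def sum4 (f : Fin 4 → E) : E := add (add (add (f 0) (f 1)) (f 2)) (f 3)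

/-- four times the curvature for the identity matrix -/
def rrE (i k l m : Fin 4) : E := add (mul (c 2) (S2 i k l m))
  (sum4 fun a => (mul (G2 a k l) (G2 a i m)).sub (mul (G2 a k m) (G2 a i l)))

/-- four times `Q` for the identity matrix -/
def QE (I J : Fin 6) : E :=
  if I = 0 then (if J = 0 then add (mul (c 2) ((S2 0 1 0 1).sb s1))
      (sum4 fun a => (mul (gaE a 1 0) (gaE a 0 1)).sub (mul (gaE a 1 1) (gaE a 0 0)))
    else if J = 5 then c 0 else add (mul (c 2) ((S2 0 1 (pI J) (pJ J)).sb s1))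
      (sum4 fun a => (mul (gaE a 1 (pI J)) (G2 a 0 (pJ J))).sub
        (mul (G2 a 1 (pJ J)) (gaE a 0 (pI J)))))
  else if J = 0 then (if I = 5 then c 0 else add (mul (c 2) ((S2 (pI I) (pJ I) 0 1).sb s1))
      (sum4 fun a => (mul (G2 a (pJ I) 0) (gaE a (pI I) 1)).sub
        (mul (G2 a (pJ I) 1) (gaE a (pI I) 0))))
  else add (rrE (pI I) (pJ I) (pI J) (pJ J))
    (if I = 2 ∧ J = 3 then mul (c (-1)) (rrE 0 1 2 3)
      else if I = 3 ∧ J = 2 then mul (c (-1)) (rrE 2 3 0 1)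
      else if I = 1 ∧ J = 4 then rrE 0 1 2 3 else if I = 4 ∧ J = 1 then rrE 2 3 0 1 else c 0)

lemma rr_one (ρ : ℕ → ℝ) (i k l m : Fin 4) :
    rr ρ (fun a b => if a = b then 1 else 0) i k l m = (rrE i k l m).ev ρ / 4 := by
  simp only [rr, rrE, sum4, ev, ev_sub, Fin.sum_univ_four, Fin.reduceEq, if_true, if_false]
  push_cast
  ring

lemma Q_one (ρ : ℕ → ℝ) (I J : Fin 6) :
    Q ρ (fun a b => if a = b then 1 else 0) I J = (QE I J).ev ρ / 4 := by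
  unfold Q QE
  split_ifs <;>
    simp only [rr_one, r00, ra, rb, sum4, ev, ev_sub, Fin.sum_univ_four, Fin.reduceEq, if_true,
      if_false] <;> push_cast <;> ring

/-- leading coefficients -/
def cU : ℕ → ℕ → E
  | 0, 0 => poly [(-288, [9, 9]), (-288, [8, 8]), (648, [3, 3, 9, 9]), (2304, [3, 3, 8, 8]),
      (504, [2, 2, 9, 9]), (1152, [1, 3, 9, 9]), (1152, [1, 3, 8, 8]), (2304, [1, 1, 9, 9]),
      (648, [1, 1, 8, 8]), (504, [0, 0, 8, 8])]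
  | 0, 1 => poly [(-48, [3, 9]), (-192, [1, 9])]
  | 0, 2 => poly [(72, [2, 3, 9]), (288, [1, 2, 9])]
  | 0, 3 => poly [(-288, [0, 3, 8]), (-72, [0, 1, 8])]
  | 0, 4 => poly [(192, [3, 8]), (48, [1, 8])]
  | 1, 1 => poly [(16, [])]
  | 1, 2 => poly [(-24, [2])]
  | 2, 2 => poly [(72, [])]
  | 3, 3 => poly [(72, [])]
  | 3, 4 => poly [(-24, [0])]
  | 4, 4 => poly [(16, [])]
  | 5, 5 => poly [(8, [])]
  | _, _ => c 0

/-- leading coefficients -/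
def cE (I J : Fin 6) : E := cU (min I.val J.val) (max I.val J.val)

/-- scaling factors -/
def scE (I : Fin 6) : E := if I = 1 ∨ I = 4 ∨ I = 5 then v 6 else c 1

/-- higher order part -/
def xE (I J : Fin 6) : E :=
  (mul (mul (scE I) (scE J)) ((QE I J).sb s0)).sub (mul (mul (v 6) (v 6)) (cE I J))

/-- lower an exponent by three -/
def dec3 : ℕ → List ℕ → List ℕ
  | _, [] => []
  | 0, x :: a => (x - 3) :: a
  | n + 1, x :: a => x :: dec3 n a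

/-- remainder polynomial -/
def bP (I J : Fin 6) : List (List ℕ × ℤ) := (nf (xE I J)).map fun t => (dec3 6 t.1, t.2)

lemma chk_x : ∀ I J : Fin 6, pmul1 ([0, 0, 0, 0, 0, 0, 3], 1) (bP I J) = nf (xE I J) := by
  decide +kernel

lemma Q_exp {ρ : ℕ → ℝ} (h4 : ρ 4 = 0) (h5 : ρ 5 = 0) (h7 : ρ 7 = 0) (I J : Fin 6) :
    (scE I).ev ρ * (scE J).ev ρ * Q ρ (fun a b => if a = b then 1 else 0) I J =
      ρ 6 ^ 2 / 4 * ((cE I J).ev ρ + ρ 6 * pev ρ (bP I J)) := by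
  have h := congrArg (pev ρ) (chk_x I J)
  rw [pev_pmul1, pev_nf] at h
  simp only [xE, ev_sub, ev, ev_s0 h4 h5 h7, mev] at h
  rw [Q_one]
  push_cast at h
  linear_combination (-1 / 4 : ℝ) * h

lemma lead_pos {ρ : ℕ → ℝ} (hA : ρ 0 ^ 2 + ρ 1 ^ 2 = 1) (hB : ρ 2 ^ 2 + ρ 3 ^ 2 = 1)
    (hη : ρ 8 ^ 2 + ρ 9 ^ 2 = 1) (ω : Fin 6 → ℝ) (hω : ω ≠ 0) :
    0 < ∑ I, ∑ J, (cE I J).ev ρ * ω I * ω J := by
  have e : ∑ I, ∑ J, (cE I J).ev ρ * ω I * ω J =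
      (4 * ω 4 + (48 * ρ 3 * ρ 8 * ω 0 + 12 * ρ 1 * ρ 8 * ω 0 - 6 * ρ 0 * ω 3)) ^ 2 +
      (4 * ω 1 - (12 * ρ 3 * ρ 9 * ω 0 + 48 * ρ 1 * ρ 9 * ω 0 + 6 * ρ 2 * ω 2)) ^ 2 +
      8 * ω 5 ^ 2 + 36 * (1 + ρ 1 ^ 2) * ω 3 ^ 2 + 36 * (1 + ρ 3 ^ 2) * ω 2 ^ 2 +
      216 * ω 0 ^ 2 := by
    simp only [Fin.sum_univ_six, cE]
    simp [cU, poly, ev]
    linear_combination (504 * ρ 8 ^ 2 * ω 0 ^ 2 - 36 * ω 3 ^ 2) * hA +
      (504 * ρ 9 ^ 2 * ω 0 ^ 2 - 36 * ω 2 ^ 2) * hB + 216 * ω 0 ^ 2 * hη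
  rw [e]
  by_contra hle
  apply hω
  have p1 := sq_nonneg
    (4 * ω 4 + (48 * ρ 3 * ρ 8 * ω 0 + 12 * ρ 1 * ρ 8 * ω 0 - 6 * ρ 0 * ω 3))
  have p2 := sq_nonneg
    (4 * ω 1 - (12 * ρ 3 * ρ 9 * ω 0 + 48 * ρ 1 * ρ 9 * ω 0 + 6 * ρ 2 * ω 2))
  have p3 := sq_nonneg (ω 5)
  have p4 : 0 ≤ 36 * (1 + ρ 1 ^ 2) * ω 3 ^ 2 := by positivity
  have p5 : 0 ≤ 36 * (1 + ρ 3 ^ 2) * ω 2 ^ 2 := by positivity
  have p6 := sq_nonneg (ω 0)
  have z0 : ω 0 = 0 := pow_eq_zero_iff (n := 2) (by norm_num) |>.mp (by linarith)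
  have z5 : ω 5 = 0 := pow_eq_zero_iff (n := 2) (by norm_num) |>.mp (by linarith)
  have z3 : ω 3 = 0 := by
    have : 36 * (1 + ρ 1 ^ 2) * ω 3 ^ 2 = 0 := by linarith
    have h2 : (36 * (1 + ρ 1 ^ 2) : ℝ) ≠ 0 := by positivity
    simpa [h2] using this
  have z2 : ω 2 = 0 := by
    have : 36 * (1 + ρ 3 ^ 2) * ω 2 ^ 2 = 0 := by linarith
    have h2 : (36 * (1 + ρ 3 ^ 2) : ℝ) ≠ 0 := by positivity
    simpa [h2] using this
  rw [z0, z2, z3, z5] at hle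
  have z4 : ω 4 = 0 := by nlinarith [sq_nonneg (ω 4), sq_nonneg (ω 1)]
  have z1 : ω 1 = 0 := by nlinarith [sq_nonneg (ω 4), sq_nonneg (ω 1)]
  funext I
  fin_cases I <;> assumption

end Pool.Agent.H121Z.Tor
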