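import Pool.Agent.H121Z.TorC

set_option autoImplicit false

namespace Pool.Agent.H121Z.Tor

open E

/-- environment for the local analysis -/
def env (p : Fin 6 → ℝ) (δ t : ℝ) : ℕ → ℝ
  | 0 => p 0
  | 1 => p 1
  | 2 => p 2
  | 3 => p 3
  | 4 => t * p 4
  | 5 => t * p 5
  | 6 => δ
  | 7 => t
  | 8 => p 4
  | 9 => p 5
  | _ => 0

/-- the compact parameter set -/
def K1 : Set (Fin 6 → ℝ) :=
  {p | p 0 ^ 2 + p 1 ^ 2 = 1 ∧ p 2 ^ 2 + p 3 ^ 2 = 1 ∧ p 4 ^ 2 + p 5 ^ 2 = 1}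

lemma K1_compact : IsCompact K1 := by
  apply (isCompact_closedBall (0 : Fin 6 → ℝ) 1).of_isClosed_subset
  · exact (isClosed_eq (by fun_prop) continuous_const).inter
      ((isClosed_eq (by fun_prop) continuous_const).inter
        (isClosed_eq (by fun_prop) continuous_const))
  · rintro p ⟨h1, h2, h3⟩
    rw [mem_closedBall_zero_iff, pi_norm_le_iff_of_nonneg zero_le_one]
    intro i
    rw [Real.norm_eq_abs, ← sq_le_one_iff_abs_le_one]
    fin_cases i <;> simp only [Fin.reduceFinMk, Fin.zero_eta, Fin.mk_one] <;>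
      nlinarith [sq_nonneg (p 0), sq_nonneg (p 1), sq_nonneg (p 2), sq_nonneg (p 3),
        sq_nonneg (p 4), sq_nonneg (p 5)]

lemma tube_quad {n : ℕ} (A : ℝ × (Fin 6 → ℝ) → Fin n → Fin n → ℝ)
    (hc : ∀ p ∈ K1, ∀ I J, ContinuousAt (fun z => A z I J) (0, p))
    (hp : ∀ p ∈ K1, ∀ ω : Fin n → ℝ, ω ≠ 0 → 0 < ∑ I, ∑ J, A (0, p) I J * ω I * ω J) :
    ∃ r : ℝ, 0 < r ∧ ∀ t, |t| < r → ∀ p ∈ K1, ∀ ω : Fin n → ℝ, ω ≠ 0 →
      0 < ∑ I, ∑ J, A (t, p) I J * ω I * ω J := by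
  obtain ⟨r, hr, h⟩ := tube (K1_compact.prod (isCompact_sphere (0 : Fin n → ℝ) 1))
    (fun z : ℝ × ((Fin 6 → ℝ) × (Fin n → ℝ)) =>
      ∑ I, ∑ J, A (z.1, z.2.1) I J * z.2.2 I * z.2.2 J) (by
      rintro ⟨p, ω⟩ ⟨h1, -⟩
      refine tendsto_finsetSum _ fun I _ => tendsto_finsetSum _ fun J _ => ?_
      have a1 : ContinuousAt (fun z : ℝ × ((Fin 6 → ℝ) × (Fin n → ℝ)) => A (z.1, z.2.1) I J)
          (0, (p, ω)) :=
        ContinuousAt.comp (f := fun z : ℝ × ((Fin 6 → ℝ) × (Fin n → ℝ)) => (z.1, z.2.1))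
          (g := fun z => A z I J) (hc p h1 I J) (by fun_prop)
      have a2 : ∀ I, ContinuousAt (fun z : ℝ × ((Fin 6 → ℝ) × (Fin n → ℝ)) => z.2.2 I)
          (0, (p, ω)) := fun I => by fun_prop
      exact (a1.mul (a2 I)).mul (a2 J)) (by
      rintro ⟨p, ω⟩ ⟨h1, h2⟩
      apply hp p h1 ω
      rintro rfl
      simp at h2)
  refine ⟨r, hr, fun t ht p hp ω hω => ?_⟩
  have hn : 0 < ‖ω‖ := norm_pos_iff.mpr hω
  have h1 := h t ht (p, ‖ω‖⁻¹ • ω) ⟨hp, by
    simp [norm_smul, hn.ne']⟩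
  simp only [Pi.smul_apply, smul_eq_mul] at h1
  have e : ∑ I, ∑ J, A (t, p) I J * ω I * ω J =
      ‖ω‖ ^ 2 * ∑ I, ∑ J, A (t, p) I J * (‖ω‖⁻¹ * ω I) * (‖ω‖⁻¹ * ω J) := by
    simp only [Finset.mul_sum]
    refine Finset.sum_congr rfl fun I _ => Finset.sum_congr rfl fun J _ => ?_
    field_simp
  rw [e]
  positivity

lemma env_cont1 (n : ℕ) : Continuous fun z : ℝ × (Fin 6 → ℝ) => env z.2 z.1 0 n := by
  rcases n with _ | _ | _ | _ | _ | _ | _ | _ | _ | _ | n <;> simp only [env] <;> fun_prop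

lemma env_cont2 (δ : ℝ) (n : ℕ) : Continuous fun z : ℝ × (Fin 6 → ℝ) => env z.2 δ z.1 n := by
  rcases n with _ | _ | _ | _ | _ | _ | _ | _ | _ | _ | n <;> simp only [env] <;> fun_prop

lemma step1 : ∃ δ : ℝ, ∀ p ∈ K1, ∀ ω : Fin 6 → ℝ, ω ≠ 0 →
    0 < ∑ I, ∑ J, Q (env p δ 0) (fun a b => if a = b then 1 else 0) I J * ω I * ω J := by
  obtain ⟨r, hr, h⟩ := tube_quad
    (fun z I J => (cE I J).ev (env z.2 z.1 0) + z.1 * pev (env z.2 z.1 0) (bP I J))
    (fun p _ I J => ((continuous_ev env_cont1 _).add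
      (continuous_fst.mul (continuous_pev env_cont1 _))).continuousAt)
    (fun p hp ω hω => by
      simp only [zero_mul, add_zero]
      exact lead_pos hp.1 hp.2.1 hp.2.2 ω hω)
  have hδ : 0 < r / 2 := by linarith
  refine ⟨r / 2, fun p hp ω hω => ?_⟩
  have hs : ∀ I, (scE I).ev (env p (r / 2) 0) ≠ 0 := by
    intro I
    unfold scE
    split_ifs
    · exact hδ.ne'
    · simp [ev]
  have h1 := h (r / 2) (by rw [abs_of_pos hδ]; linarith) p hp
    (fun I => ω I / (scE I).ev (env p (r / 2) 0)) (by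
      intro h0
      apply hω
      funext I
      have := congrFun h0 I
      simpa [hs I] using this)
  have e : ∑ I, ∑ J, Q (env p (r / 2) 0) (fun a b => if a = b then 1 else 0) I J * ω I * ω J =
      (r / 2) ^ 2 / 4 * ∑ I, ∑ J, ((cE I J).ev (env p (r / 2) 0) +
        r / 2 * pev (env p (r / 2) 0) (bP I J)) * (ω I / (scE I).ev (env p (r / 2) 0)) *
          (ω J / (scE J).ev (env p (r / 2) 0)) := by
    simp only [Finset.mul_sum]
    refine Finset.sum_congr rfl fun I _ => Finset.sum_congr rfl fun J _ => ?_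
    have h2 := Q_exp (ρ := env p (r / 2) 0) (by simp [env]) (by simp [env]) rfl I J
    have h6 : env p (r / 2) 0 6 = r / 2 := rfl
    rw [h6] at h2
    rw [← mul_assoc, ← mul_assoc, ← h2]
    have := hs I
    have := hs J
    field_simp
  rw [e]
  positivity

/-- the inverse metric -/
noncomputable def Minv (ρ : ℕ → ℝ) (a b : Fin 4) : ℝ := (Matrix.of (Gm ρ))⁻¹ a b

lemma Gm_zero (p : Fin 6 → ℝ) (δ : ℝ) (i j : Fin 4) :
    Gm (env p δ 0) i j = if i = j then 1 else 0 := by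
  unfold Gm
  rw [← ev_s0 (by simp [env]) (by simp [env]) rfl, ev_eq_of_nf (chk_g0 i j)]
  split_ifs <;> simp [ev]

lemma Gm_zero' (p : Fin 6 → ℝ) (δ : ℝ) : Matrix.of (Gm (env p δ 0)) = 1 := by
  ext i j
  rw [Matrix.of_apply, Gm_zero, Matrix.one_apply]

lemma Minv_cont (p : Fin 6 → ℝ) (δ : ℝ) (a b : Fin 4) :
    ContinuousAt (fun z : ℝ × (Fin 6 → ℝ) => Minv (env z.2 δ z.1) a b) (0, p) := by
  have h1 : Continuous fun z : ℝ × (Fin 6 → ℝ) => Matrix.of (Gm (env z.2 δ z.1)) :=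
    continuous_pi fun i => continuous_pi fun j => continuous_ev (env_cont2 δ) _
  have h2 : ContinuousAt (Inv.inv : Matrix (Fin 4) (Fin 4) ℝ → _)
      (Matrix.of (Gm (env p δ 0))) := by
    apply continuousAt_matrix_inv
    rw [Gm_zero', Matrix.det_one, Ring.inverse_eq_inv']
    exact continuousAt_inv₀ one_ne_zero
  have h3 := ContinuousAt.comp (f := fun z : ℝ × (Fin 6 → ℝ) => Matrix.of (Gm (env z.2 δ z.1)))
    (x := (0, p)) h2 h1.continuousAt
  exact ((continuous_apply_apply a b).continuousAt).comp h3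

lemma Q_cont {X : Type} [TopologicalSpace X] {ρ : X → ℕ → ℝ} {M : X → Fin 4 → Fin 4 → ℝ} {x : X}
    (hρ : ∀ e : E, ContinuousAt (fun z => e.ev (ρ z)) x)
    (hM : ∀ a b, ContinuousAt (fun z => M z a b) x) (I J : Fin 6) :
    ContinuousAt (fun z => Q (ρ z) (M z) I J) x := by
  have key : ∀ (e0 : E) (e1 e2 e3 e4 : Fin 4 → E), ContinuousAt (fun z => e0.ev (ρ z) / 2 +
      ∑ a, ∑ b, M z a b * ((e1 a).ev (ρ z) / 2 * ((e2 b).ev (ρ z) / 2) -
        (e3 a).ev (ρ z) / 2 * ((e4 b).ev (ρ z) / 2))) x := by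
    intro e0 e1 e2 e3 e4
    refine ((hρ _).div_const 2).add ?_
    refine tendsto_finsetSum _ fun a _ => tendsto_finsetSum _ fun b _ => ?_
    exact (hM a b).mul ((((hρ _).div_const 2).mul ((hρ _).div_const 2)).sub
      (((hρ _).div_const 2).mul ((hρ _).div_const 2)))
  have hr : ∀ i k l m, ContinuousAt (fun z => rr (ρ z) (M z) i k l m) x :=
    fun i k l m => key _ _ _ _ _
  unfold Q
  split_ifs
  · exact key _ _ _ _ _
  · exact continuousAt_const
  · exact key _ _ _ _ _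
  · exact continuousAt_const
  · exact key _ _ _ _ _
  · exact (hr _ _ _ _).add (hr _ _ _ _).neg
  · exact (hr _ _ _ _).add (hr _ _ _ _).neg
  · exact (hr _ _ _ _).add (hr _ _ _ _)
  · exact (hr _ _ _ _).add (hr _ _ _ _)
  · exact (hr _ _ _ _).add continuousAt_const

theorem main_local : ∃ δ r : ℝ, 0 < r ∧ ∀ t, |t| < r → ∀ p ∈ K1,
    (∀ v : Fin 4 → ℝ, v ≠ 0 → 0 < ∑ i, ∑ j, Gm (env p δ t) i j * v i * v j) ∧
    ∀ ω : Fin 6 → ℝ, ω ≠ 0 →
      0 < ∑ I, ∑ J, Q (env p δ t) (Minv (env p δ t)) I J * ω I * ω J := by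
  obtain ⟨δ, hδ⟩ := step1
  obtain ⟨r1, hr1, h1⟩ := tube_quad (fun z i j => Gm (env z.2 δ z.1) i j)
    (fun p _ i j => (continuous_ev (env_cont2 δ) _).continuousAt)
    (fun p _ v hv => by
      simp only [Gm_zero, ite_mul, one_mul, zero_mul, Finset.sum_ite_eq, Finset.mem_univ, if_true]
      obtain ⟨i, hi⟩ := Function.ne_iff.mp hv
      exact Finset.sum_pos' (fun j _ => mul_self_nonneg _)
        ⟨i, Finset.mem_univ _, mul_self_pos.mpr hi⟩)
  obtain ⟨r2, hr2, h2⟩ := tube_quad (fun z I J => Q (env z.2 δ z.1) (Minv (env z.2 δ z.1)) I J)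
    (fun p _ I J => Q_cont (fun e => (continuous_ev (env_cont2 δ) e).continuousAt)
      (Minv_cont p δ) I J)
    (fun p hp ω hω => by
      have : Minv (env p δ 0) = fun a b => if a = b then 1 else 0 := by
        funext a b
        rw [Minv, Gm_zero', inv_one, Matrix.one_apply]
      simp only [this]
      exact hδ p hp ω hω)
  exact ⟨δ, min r1 r2, lt_min hr1 hr2, fun t ht p hp =>
    ⟨h1 t (ht.trans_le (min_le_left _ _)) p hp, h2 t (ht.trans_le (min_le_right _ _)) p hp⟩⟩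

lemma Gm_symm (ρ : ℕ → ℝ) (i j : Fin 4) : Gm ρ i j = Gm ρ j i := by rw [Gm, gE_symm, Gm]

lemma dGm_symm (ρ : ℕ → ℝ) (k i j : Fin 4) : dGm ρ k i j = dGm ρ k j i := by
  rw [dGm, gE_symm, dGm]

lemma Minv_symm (ρ : ℕ → ℝ) (a b : Fin 4) : Minv ρ a b = Minv ρ b a := by
  have h : (Matrix.of (Gm ρ)).transpose = Matrix.of (Gm ρ) := by
    ext i j
    exact Gm_symm ρ j i
  have h2 := Matrix.transpose_nonsing_inv (Matrix.of (Gm ρ))
  rw [h] at h2
  exact (congrFun (congrFun h2 a) b).symm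

lemma Minv_mul {ρ : ℕ → ℝ}
    (h : ∀ v : Fin 4 → ℝ, v ≠ 0 → 0 < ∑ i, ∑ j, Gm ρ i j * v i * v j) (a i : Fin 4) :
    ∑ b, Minv ρ a b * Gm ρ b i = if a = i then 1 else 0 := by
  have hd : (Matrix.of (Gm ρ)).det ≠ 0 := by
    intro h0
    obtain ⟨v, hv, h1⟩ := Matrix.exists_mulVec_eq_zero_iff.mpr h0
    have h2 := h v hv
    have h3 : ∀ i, ∑ j, Gm ρ i j * v i * v j = 0 := by
      intro i
      have := congrFun h1 i
      simp only [Matrix.mulVec, dotProduct, Matrix.of_apply, Pi.zero_apply] at this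
      calc ∑ j, Gm ρ i j * v i * v j = v i * ∑ j, Gm ρ i j * v j := by
            rw [Finset.mul_sum]
            exact Finset.sum_congr rfl fun j _ => by ring
        _ = 0 := by rw [this, mul_zero]
    simp [h3] at h2
  have := Matrix.nonsing_inv_mul _ (isUnit_iff_ne_zero.mpr hd)
  have h2 := congrFun (congrFun this a) i
  rw [Matrix.mul_apply, Matrix.one_apply] at h2
  exact h2

/-- positivity of the sectional curvature off the torus, in the local model -/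
lemma sec_pos {p : Fin 6 → ℝ} {δ t : ℝ} (ht : t ≠ 0)
    (h : ∀ ω : Fin 6 → ℝ, ω ≠ 0 →
      0 < ∑ I, ∑ J, Q (env p δ t) (Minv (env p δ t)) I J * ω I * ω J)
    {u v : Fin 4 → ℝ} (huv : (fun I => u (pI I) * v (pJ I) - u (pJ I) * v (pI I)) ≠ 0) :
    0 < ∑ i, ∑ k, ∑ l, ∑ m, Riem (Minv (env p δ t)) (dGm (env p δ t)) (ddGm (env p δ t)) i k l m *
      u i * v k * u l * v m := by
  rw [quad_wedge _ (riem_anti1 _ (Minv_symm _) _ _) (riem_anti2 _ _ _)]
  simp only [riem_eq]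
  set w : Fin 6 → ℝ := fun I => u (pI I) * v (pJ I) - u (pJ I) * v (pI I) with hw
  have h7 : env p δ t 7 = t := rfl
  have key := quad_scale (ρ := env p δ t) rfl rfl (Minv (env p δ t)) w
    (fun I => if I = 0 then w I else w I / t) (by simp) (by simp [h7]; field_simp)
    (by simp [h7]; field_simp) (by simp [h7]; field_simp) (by simp [h7]; field_simp)
    (by simp [h7]; field_simp) (by simp only [hw, pI, pJ, Matrix.cons_val]; ring)
  have hpos := h (fun I => if I = 0 then w I else w I / t) (by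
    intro h0
    apply huv
    funext I
    have := congrFun h0 I
    split_ifs at this
    · exact this
    · simpa [ht] using this)
  change 0 < ∑ I, ∑ J, rr _ _ (pI I) (pJ I) (pI J) (pJ J) * w I * w J
  rw [key, h7]
  positivity

end Pool.Agent.H121Z.Tor
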