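import Pool.Agent.H121Z.TorD

set_option autoImplicit false

namespace Pool.Agent.H121Z.Tor

open E Real

/-- linear phase -/
noncomputable def ph (a b : ℝ) : (Fin 4 → ℝ) →L[ℝ] ℝ :=
  (2 * π * a) • ContinuousLinearMap.proj 0 + (2 * π * b) • ContinuousLinearMap.proj 1

lemma ph_apply (a b : ℝ) (x : Fin 4 → ℝ) : ph a b x = 2 * π * a * x 0 + 2 * π * b * x 1 := by
  simp [ph]

/-- global environment -/
noncomputable def ew (δ r : ℝ) (w : Fin 4 → ℝ) : ℕ → ℝ
  | 0 => cos (ph 2 1 w)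
  | 1 => sin (ph 2 1 w)
  | 2 => cos (ph 1 2 w)
  | 3 => sin (ph 1 2 w)
  | 4 => r * tanh (w 2)
  | 5 => r * tanh (w 3)
  | 6 => δ
  | 7 => 2 * π
  | 8 => r
  | 9 => r⁻¹
  | _ => 0

/-- the diagonal Jacobian -/
def LE (k : Fin 4) : E :=
  if k = 2 then (v 8).sub (mul (v 9) (mul (v 4) (v 4)))
  else if k = 3 then (v 8).sub (mul (v 9) (mul (v 5) (v 5))) else v 7

lemma contDiff_tanh (N : ℕ) : ContDiff ℝ N tanh := by
  have : tanh = fun x => sinh x / cosh x := funext tanh_eq_sinh_div_cosh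
  rw [this]
  exact contDiff_sinh.div contDiff_cosh fun x => (cosh_pos x).ne'

lemma hasDerivAt_tanh (x : ℝ) : HasDerivAt tanh (1 - tanh x ^ 2) x := by
  have e : tanh = fun x => sinh x / cosh x := funext tanh_eq_sinh_div_cosh
  have h := (hasDerivAt_sinh x).div (hasDerivAt_cosh x) (cosh_pos x).ne'
  have e2 : 1 - tanh x ^ 2 = (cosh x * cosh x - sinh x * sinh x) / cosh x ^ 2 := by
    have := (cosh_pos x).ne'
    rw [tanh_eq_sinh_div_cosh]
    field_simp
  rw [e2, e]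
  exact h

lemma ew_smooth (δ r : ℝ) (N n : ℕ) : ContDiff ℝ N fun x => ew δ r x n := by
  rcases n with _ | _ | _ | _ | _ | _ | _ | _ | _ | _ | n <;> simp only [ew]
  · exact contDiff_cos.comp (ph 2 1).contDiff
  · exact contDiff_sin.comp (ph 2 1).contDiff
  · exact contDiff_cos.comp (ph 1 2).contDiff
  · exact contDiff_sin.comp (ph 1 2).contDiff
  · exact contDiff_const.mul ((contDiff_tanh N).comp (contDiff_apply ℝ ℝ 2))
  · exact contDiff_const.mul ((contDiff_tanh N).comp (contDiff_apply ℝ ℝ 3))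
  all_goals exact contDiff_const

lemma fd_comp {φ : ℝ → ℝ} {d : ℝ} (l : (Fin 4 → ℝ) →L[ℝ] ℝ) (w u : Fin 4 → ℝ)
    (h : HasDerivAt φ d (l w)) : fderiv ℝ (fun x => φ (l x)) w u = d * l u := by
  have := (h.comp_hasFDerivAt w l.hasFDerivAt).fderiv
  rw [show (fun x => φ (l x)) = φ ∘ l from rfl, this]
  simp

lemma ew_deriv (δ : ℝ) {r : ℝ} (hr : r ≠ 0) (k : Fin 4) (w : Fin 4 → ℝ) (n : ℕ) :
    fderiv ℝ (fun x => ew δ r x n) w (Pi.single k 1) =
      (LE k).ev (ew δ r w) * (dv k n).ev (ew δ r w) := by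
  rcases n with _ | _ | _ | _ | _ | _ | _ | _ | _ | _ | n
  · simp only [ew]
    rw [fd_comp _ _ _ (hasDerivAt_cos _)]
    fin_cases k <;> simp [LE, dv, ev, ew, fa, ph_apply] <;> ring
  · simp only [ew]
    rw [fd_comp _ _ _ (hasDerivAt_sin _)]
    fin_cases k <;> simp [LE, dv, ev, ew, fa, ph_apply] <;> ring
  · simp only [ew]
    rw [fd_comp _ _ _ (hasDerivAt_cos _)]
    fin_cases k <;> simp [LE, dv, ev, ew, fb, ph_apply] <;> ring
  · simp only [ew]
    rw [fd_comp _ _ _ (hasDerivAt_sin _)]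
    fin_cases k <;> simp [LE, dv, ev, ew, fb, ph_apply] <;> ring
  · simp only [ew]
    have := fd_comp (φ := fun y => r * tanh y) (ContinuousLinearMap.proj 2) w (Pi.single k 1)
      ((hasDerivAt_tanh _).const_mul r)
    simp only [ContinuousLinearMap.proj_apply] at this
    rw [this]
    fin_cases k <;> simp [LE, dv, ev, ew, sub]
    field_simp
    ring
  · simp only [ew]
    have := fd_comp (φ := fun y => r * tanh y) (ContinuousLinearMap.proj 3) w (Pi.single k 1)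
      ((hasDerivAt_tanh _).const_mul r)
    simp only [ContinuousLinearMap.proj_apply] at this
    rw [this]
    fin_cases k <;> simp [LE, dv, ev, ew, sub]
    field_simp
    ring
  all_goals simp [ew, dv, ev]

lemma tanh_sq_lt (x : ℝ) : tanh x ^ 2 < 1 := by
  rw [tanh_eq_sinh_div_cosh, div_pow, div_lt_one (by have := cosh_pos x; positivity), cosh_sq]
  linarith

lemma LE_ne (δ : ℝ) {r : ℝ} (hr : r ≠ 0) (w : Fin 4 → ℝ) (k : Fin 4) :
    (LE k).ev (ew δ r w) ≠ 0 := by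
  have key : ∀ x, r - r⁻¹ * (r * tanh x * (r * tanh x)) ≠ 0 := by
    intro x
    have : r - r⁻¹ * (r * tanh x * (r * tanh x)) = r * (1 - tanh x ^ 2) := by
      field_simp
    rw [this]
    exact mul_ne_zero hr (by linarith [tanh_sq_lt x])
  unfold LE
  split_ifs
  · rw [ev_sub]; exact key _
  · rw [ev_sub]; exact key _
  · exact (by positivity : 2 * π ≠ 0)

/-- the global metric -/
noncomputable def gg (δ r : ℝ) (i j : Fin 4) (w : Fin 4 → ℝ) : ℝ :=
  (mul (mul (LE i) (LE j)) (gE i j)).ev (ew δ r w)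

/-- its first jet -/
noncomputable def dT (δ r : ℝ) (w : Fin 4 → ℝ) (k i j : Fin 4) : ℝ :=
  fderiv ℝ (gg δ r i j) w (Pi.single k 1)

/-- its second jet -/
noncomputable def ddT (δ r : ℝ) (w : Fin 4 → ℝ) (l k i j : Fin 4) : ℝ :=
  fderiv ℝ (fun y => fderiv ℝ (gg δ r i j) y (Pi.single k 1)) w (Pi.single l 1)

lemma fd_ev (δ : ℝ) {r : ℝ} (hr : r ≠ 0) (k : Fin 4) (w : Fin 4 → ℝ) (e : E) :
    fderiv ℝ (fun x => e.ev (ew δ r x)) w (Pi.single k 1) =
      (mul (LE k) (e.D k)).ev (ew δ r w) :=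
  fderiv_ev (ew_smooth δ r 1) _ k w (ew_deriv δ hr k w) e

lemma hdl (ρ : ℕ → ℝ) (k i : Fin 4) :
    ((LE i).D k).ev ρ = if k = i then ((LE i).D i).ev ρ else 0 := by
  fin_cases k <;> fin_cases i <;> simp [LE, D, dv, ev, sub]

lemma hddl (ρ : ℕ → ℝ) (l k i : Fin 4) :
    (((LE i).D k).D l).ev ρ = if k = i ∧ l = i then (((LE i).D i).D i).ev ρ else 0 := by
  fin_cases l <;> fin_cases k <;> fin_cases i <;> simp [LE, D, dv, ev, sub]

lemma hdT (δ : ℝ) {r : ℝ} (hr : r ≠ 0) (w : Fin 4 → ℝ) (k i j : Fin 4) :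
    dT δ r w k i j = (LE k).ev (ew δ r w) *
      ((((LE i).D k).ev (ew δ r w) * (LE j).ev (ew δ r w) +
        (LE i).ev (ew δ r w) * ((LE j).D k).ev (ew δ r w)) * Gm (ew δ r w) i j +
        (LE i).ev (ew δ r w) * (LE j).ev (ew δ r w) * dGm (ew δ r w) k i j) :=
  fd_ev δ hr k w _

lemma inv_eq (δ : ℝ) {r : ℝ} (hr : r ≠ 0) (w : Fin 4 → ℝ)
    (h : ∀ v : Fin 4 → ℝ, v ≠ 0 → 0 < ∑ i, ∑ j, Gm (ew δ r w) i j * v i * v j) :
    (Matrix.of fun p q => gg δ r p q w)⁻¹ = Matrix.of fun a b =>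
      Minv (ew δ r w) a b / ((LE a).ev (ew δ r w) * (LE b).ev (ew δ r w)) := by
  apply Matrix.inv_eq_left_inv
  ext a i
  have h1 := Minv_mul h a i
  have e : ∀ b, Minv (ew δ r w) a b / ((LE a).ev (ew δ r w) * (LE b).ev (ew δ r w)) *
      gg δ r b i w = (LE i).ev (ew δ r w) / (LE a).ev (ew δ r w) *
        (Minv (ew δ r w) a b * Gm (ew δ r w) b i) := by
    intro b
    have := LE_ne δ hr w a
    have := LE_ne δ hr w b
    simp only [gg, ev, Gm]
    field_simp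
  simp only [Matrix.mul_apply, Matrix.of_apply, e, ← Finset.mul_sum, h1, Matrix.one_apply]
  split_ifs with h2
  · rw [h2, div_self (LE_ne δ hr w i), mul_one]
  · rw [mul_zero]

lemma riem_global (δ : ℝ) {r : ℝ} (hr : r ≠ 0) (w : Fin 4 → ℝ)
    (h : ∀ v : Fin 4 → ℝ, v ≠ 0 → 0 < ∑ i, ∑ j, Gm (ew δ r w) i j * v i * v j) (i k l m : Fin 4) :
    Riem (fun a b => (Matrix.of fun p q => gg δ r p q w)⁻¹ a b) (dT δ r w) (ddT δ r w) i k l m =
      (LE i).ev (ew δ r w) * (LE k).ev (ew δ r w) * (LE l).ev (ew δ r w) * (LE m).ev (ew δ r w) *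
        Riem (Minv (ew δ r w)) (dGm (ew δ r w)) (ddGm (ew δ r w)) i k l m := by
  rw [inv_eq δ hr w h]
  refine riem_tens (Gm (ew δ r w)) (Minv (ew δ r w)) (dGm (ew δ r w)) (dT δ r w) (ddGm (ew δ r w))
    (ddT δ r w) (fun i => (LE i).ev (ew δ r w)) (fun i => ((LE i).D i).ev (ew δ r w))
    (fun i => (((LE i).D i).D i).ev (ew δ r w)) (fun k i => ((LE i).D k).ev (ew δ r w))
    (fun l k i => (((LE i).D k).D l).ev (ew δ r w)) (LE_ne δ hr w) (Gm_symm _) (dGm_symm _)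
    (fun b k => ?_) (Minv_mul h) (hdl _) (hddl _) (hdT δ hr w) (fun l k i j => ?_) i k l m
  · simp only [fun a => Minv_symm (ew δ r w) a b]
    exact Minv_mul h b k
  · have e : (fun y => fderiv ℝ (gg δ r i j) y (Pi.single k 1)) = fun y =>
        (mul (LE k) ((mul (mul (LE i) (LE j)) (gE i j)).D k)).ev (ew δ r y) :=
      funext fun y => fd_ev δ hr k y _
    rw [ddT, e, fd_ev δ hr l w]
    simp only [D, ev, Gm, dGm, ddGm]

lemma polar (a b : ℝ) : ∃ t x y : ℝ, x ^ 2 + y ^ 2 = 1 ∧ a = t * x ∧ b = t * y ∧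
    |t| ≤ |a| + |b| ∧ (a = 0 → b = 0 → t = 0) := by
  by_cases h : a = 0 ∧ b = 0
  · exact ⟨0, 1, 0, by norm_num, by simp [h.1], by simp [h.2], by simp; positivity, fun _ _ => rfl⟩
  · have hp : 0 < a ^ 2 + b ^ 2 := by
      rcases not_and_or.mp h with h | h
      · have := sq_pos_of_ne_zero h; positivity
      · have := sq_pos_of_ne_zero h; positivity
    have hs : 0 < √(a ^ 2 + b ^ 2) := sqrt_pos.mpr hp
    refine ⟨√(a ^ 2 + b ^ 2), a / √(a ^ 2 + b ^ 2), b / √(a ^ 2 + b ^ 2), ?_, by field_simp,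
      by field_simp, ?_, fun h1 h2 => absurd ⟨h1, h2⟩ h⟩
    · rw [div_pow, div_pow, sq_sqrt hp.le]
      field_simp
    · rw [abs_of_pos hs, sqrt_le_left (by positivity), ← sq_abs a, ← sq_abs b]
      nlinarith [abs_nonneg a, abs_nonneg b]

lemma link (δ : ℝ) {r : ℝ} (hr : 0 < r) (w : Fin 4 → ℝ) : ∃ p ∈ K1, ∃ t : ℝ, |t| < 2 * r ∧
    (w 2 = 0 → w 3 = 0 → t = 0) ∧ (w 2 ≠ 0 ∨ w 3 ≠ 0 → t ≠ 0) ∧
    Gm (ew δ r w) = Gm (env p δ t) ∧ dGm (ew δ r w) = dGm (env p δ t) ∧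
    ddGm (ew δ r w) = ddGm (env p δ t) := by
  obtain ⟨t, x, y, h1, h2, h3, h4, h5⟩ := polar (r * tanh (w 2)) (r * tanh (w 3))
  have hb : ∀ z, |r * tanh z| < r := by
    intro z
    rw [abs_mul, abs_of_pos hr]
    exact mul_lt_of_lt_one_right hr ((sq_lt_one_iff_abs_lt_one _).mp (tanh_sq_lt z))
  have hz : ∀ z, r * tanh z = 0 → z = 0 := by
    intro z h
    have := (mul_eq_zero.mp h).resolve_left hr.ne'
    rw [tanh_eq_sinh_div_cosh, div_eq_zero_iff] at this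
    exact sinh_eq_zero.mp (this.resolve_right (cosh_pos z).ne')
  have hag : ∀ n < 7, ew δ r w n =
      env ![cos (ph 2 1 w), sin (ph 2 1 w), cos (ph 1 2 w), sin (ph 1 2 w), x, y] δ t n := by
    intro n hn
    interval_cases n
    · rfl
    · rfl
    · rfl
    · rfl
    · exact h2
    · exact h3
    · rfl
  refine ⟨![cos (ph 2 1 w), sin (ph 2 1 w), cos (ph 1 2 w), sin (ph 1 2 w), x, y],
    ⟨cos_sq_add_sin_sq _, cos_sq_add_sin_sq _, h1⟩, t, by linarith [hb (w 2), hb (w 3)],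
    fun a b => h5 (by simp [a]) (by simp [b]), fun h h0 => ?_, ?_, ?_, ?_⟩
  · rw [h0, zero_mul] at h2 h3
    rcases h with h | h
    · exact h (hz _ h2)
    · exact h (hz _ h3)
  · funext i j
    exact ev_congr hag _ (gE_lt i j)
  · funext k i j
    exact ev_congr hag _ (D_lt _ _ (gE_lt i j))
  · funext l k i j
    exact ev_congr hag _ (D_lt _ _ (D_lt _ _ (gE_lt i j)))

lemma ew_per (δ r : ℝ) (w : Fin 4 → ℝ) :
    ew δ r (w + Pi.single 0 1) = ew δ r w ∧ ew δ r (w + Pi.single 1 1) = ew δ r w := by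
  have a1 : ph 2 1 (w + Pi.single 0 1) = ph 2 1 w + (2 : ℕ) * (2 * π) := by
    simp [ph_apply]; ring
  have a2 : ph 1 2 (w + Pi.single 0 1) = ph 1 2 w + (1 : ℕ) * (2 * π) := by
    simp [ph_apply]; ring
  have a3 : ph 2 1 (w + Pi.single 1 1) = ph 2 1 w + (1 : ℕ) * (2 * π) := by
    simp [ph_apply]; ring
  have a4 : ph 1 2 (w + Pi.single 1 1) = ph 1 2 w + (2 : ℕ) * (2 * π) := by
    simp [ph_apply]; ring
  constructor <;> funext n <;>
    rcases n with _ | _ | _ | _ | _ | _ | _ | _ | _ | _ | n <;>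
    simp only [ew, a1, a2, a3, a4, cos_add_nat_mul_two_pi, sin_add_nat_mul_two_pi] <;> simp

theorem main : ∃ δ r : ℝ,
    (∀ x v : Fin 4 → ℝ, v ≠ 0 → 0 < ∑ i, ∑ j, gg δ r i j x * v i * v j) ∧
    (∀ x : Fin 4 → ℝ, x 2 = 0 → x 3 = 0 →
      (∀ a i j : Fin 4, i.val < 2 → j.val < 2 → Gam (dT δ r x) a i j = 0) ∧
      Riem (fun a b => (Matrix.of fun p q => gg δ r p q x)⁻¹ a b) (dT δ r x) (ddT δ r x)
        0 1 0 1 = 0) ∧
    (∀ x : Fin 4 → ℝ, (x 2 ≠ 0 ∨ x 3 ≠ 0) → ∀ u v : Fin 4 → ℝ, LinearIndependent ℝ ![u, v] →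
      0 < ∑ i, ∑ k, ∑ l, ∑ m, Riem (fun a b => (Matrix.of fun p q => gg δ r p q x)⁻¹ a b)
        (dT δ r x) (ddT δ r x) i k l m * u i * v k * u l * v m) := by
  obtain ⟨δ, r0, hr0, H⟩ := main_local
  have hr : 0 < r0 / 2 := by linarith
  have hpos : ∀ x v : Fin 4 → ℝ, v ≠ 0 → 0 < ∑ i, ∑ j, Gm (ew δ (r0 / 2) x) i j * v i * v j := by
    intro x
    obtain ⟨p, hp, t, ht, -, -, e, -⟩ := link δ hr x
    rw [e]
    exact (H t (by linarith) p hp).1
  refine ⟨δ, r0 / 2, fun x v hv => ?_, fun x h2 h3 => ?_, fun x hx u v huv => ?_⟩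
  · have := hpos x (fun i => (LE i).ev (ew δ (r0 / 2) x) * v i) (by
      intro h0
      apply hv
      funext i
      exact (mul_eq_zero.mp (congrFun h0 i)).resolve_left (LE_ne δ hr.ne' x i))
    refine this.trans_eq (Finset.sum_congr rfl fun i _ => Finset.sum_congr rfl fun j _ => ?_)
    simp only [gg, ev, Gm]
    ring
  · obtain ⟨p, hp, t, ht, h0, -, e1, e2, e3⟩ := link δ hr x
    obtain rfl := h0 h2 h3
    constructor
    · intro a i j hi hj
      rw [gam_tens (Gm (ew δ (r0 / 2) x)) (dGm (ew δ (r0 / 2) x)) (dT δ (r0 / 2) x)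
        (fun i => (LE i).ev (ew δ (r0 / 2) x)) (fun i => ((LE i).D i).ev (ew δ (r0 / 2) x))
        (fun k i => ((LE i).D k).ev (ew δ (r0 / 2) x)) (Gm_symm _) (hdl _) (hdT δ hr.ne' x), e2,
        gam_eq, G2_tan (ρ := env p δ 0) rfl rfl a i j hi hj]
      have z1 : env p δ 0 7 = 0 := rfl
      have z2 : ((LE i).D i).ev (ew δ (r0 / 2) x) = 0 := by
        fin_cases i <;> simp at hi <;> simp [LE, D, dv, ev]
      simp [z1, z2]
    · rw [riem_global δ hr.ne' x (hpos x), e2, e3, riem_eq, rr00 (ρ := env p δ 0) rfl rfl]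
      have z1 : env p δ 0 7 = 0 := rfl
      simp [z1]
  · obtain ⟨p, hp, t, ht, -, h0, e1, e2, e3⟩ := link δ hr x
    have hM : Minv (ew δ (r0 / 2) x) = Minv (env p δ t) := by
      funext a b
      rw [Minv, e1, Minv]
    have hw := wedge_ne huv
    have := sec_pos (h0 hx) (H t (by linarith) p hp).2
      (u := fun i => (LE i).ev (ew δ (r0 / 2) x) * u i)
      (v := fun i => (LE i).ev (ew δ (r0 / 2) x) * v i) (by
        intro h1
        apply hw
        funext I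
        have h2 := congrFun h1 I
        have n1 := LE_ne δ hr.ne' x (pI I)
        have n2 := LE_ne δ hr.ne' x (pJ I)
        simp only [Pi.zero_apply] at h2 ⊢
        apply mul_left_cancel₀ (mul_ne_zero n1 n2)
        linear_combination h2)
    refine this.trans_eq ?_
    simp only [riem_global δ hr.ne' x (hpos x), hM, e2, e3]
    refine Finset.sum_congr rfl fun i _ => Finset.sum_congr rfl fun k _ =>
      Finset.sum_congr rfl fun l _ => Finset.sum_congr rfl fun m _ => ?_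
    ring

end Pool.Agent.H121Z.Tor
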